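import Pool.Agent.H.MP_6c077c_gt.Al.Cls2
import Pool.Agent.H.MP_6c077c_gt.Al.Rd1
import Pool.Agent.H.MP_6c077c_gt.Al.NoSad
import Pool.Agent.H.MP_6c077c_gt.Al.HomTop
import Pool.Agent.H.MP_6c077c_gt.IxB.Final
import Pool.Agent.H.MP_6c077c_gt.IxC.T3

/-! The two-sided theorem for facing pairs: the base case (the hypersurface misses the level). -/

set_option autoImplicit false

namespace Pool.Schoen

open Filter Set
open scoped Topology RealInnerProductSpace ContDiff

variable {V : Type*} [NormedAddCommGroup V] [InnerProductSpace ℝ V] [FiniteDimensional ℝ V]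

/-- The index of the opposite function. -/
theorem BaseN_idx_neg {f : V → ℝ} (hf : ContDiff ℝ ∞ f) {e x : V} (he : ‖e‖ = 1) {k : ℕ}
    (h : Idx f e x k) :
    ∃ j, j + k + 1 = Module.finrank ℝ V ∧ Idx (fun y => -f y) e x j := by
  obtain ⟨N, P, hs, hk⟩ := h
  have h1 : fderiv ℝ (fderiv ℝ (fun y => -f y)) x = -fderiv ℝ (fderiv ℝ f) x := by
    have h2 : fderiv ℝ (fun y => -f y) = fun y => -fderiv ℝ f y := by
      funext y
      exact fderiv_fun_neg
    rw [h2]
    exact fderiv_fun_neg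
  have h3 := hs.finrank he
  refine ⟨Module.finrank ℝ P, by omega, P, N, ⟨hs.hP, hs.hN, fun a ha b hb => ?_, fun w hw => ?_,
    fun a ha b hb => ?_, fun a ha ha0 => ?_, fun b hb hb0 => ?_⟩, rfl⟩
  · rw [real_inner_comm]
    exact hs.orth b hb a ha
  · obtain ⟨a, ha, b, hb, hab⟩ := hs.span w hw
    exact ⟨b, hb, a, ha, by rw [hab, add_comm]⟩
  · rw [h1, _root_.neg_apply, _root_.neg_apply, ixHess_symm hf, hs.diag b hb a ha, neg_zero]
  · rw [h1]
    have := hs.pos a ha ha0
    simp only [_root_.neg_apply]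
    linarith
  · rw [h1]
    have := hs.neg b hb hb0
    simp only [_root_.neg_apply]
    linarith

/-- The sides of a hypersurface on which circle maps lift. -/
theorem BaseN_liftS {f : V → ℝ} (hf : Continuous f) (hl : LiftS {x | f x = 0}) :
    LiftS {x | f x ≤ 0} ∧ LiftS {x | 0 ≤ f x} := by
  have c1 : IsClosed {x | f x ≤ 0} := isClosed_le hf continuous_const
  have c2 : IsClosed {x | 0 ≤ f x} := isClosed_le continuous_const hf
  have e1 : {x | f x ≤ 0} ∩ {x | 0 ≤ f x} = {x | f x = 0} := by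
    ext x
    exact ⟨fun hx => le_antisymm hx.1 hx.2, fun hx => ⟨hx.le, hx.ge⟩⟩
  have e2 : {x | f x ≤ 0} ∪ {x | 0 ≤ f x} = univ := by
    rw [Set.eq_univ_iff_forall]
    exact fun x => le_total (f x) 0
  constructor
  · refine LiftS.of_union c1 c2 ?_ ?_
    · rw [e2]
      exact liftS_univ V
    · rw [e1]
      exact hl
  · refine LiftS.of_union c2 c1 ?_ ?_
    · rw [union_comm, e2]
      exact liftS_univ V
    · rw [inter_comm, e1]
      exact hl

/-- One direction: no inward point of index two. -/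
theorem f2_one (hn : Module.finrank ℝ V = 4) {f : V → ℝ} {e : V} (he : ‖e‖ = 1) (hm : Mo f e)
    (h1 : IsConnected {x | f x ≤ 0}) (h2 : IsConnected {x | 0 ≤ f x})
    (hl : LiftS {x | f x = 0}) (hw : ∀ x, Inward f e x → ¬ Idx f e x 2) : Rd f := by
  have hf := hm.smooth
  have hM : IsConnected {x | f x = 0} :=
    TopE.zero ⟨h1, h2, Or.inl (BaseN_liftS hf.continuous hl).1⟩ hf.continuous
  have hidx : ∀ x, Inward f e x → ∃ k, Idx f e x k ∧ (k ≤ 1 ∨ k = 3) := by
    intro x hx
    obtain ⟨k, hk⟩ := hm.nd x ((crit_iff he hm.reg x).2 (Or.inl hx))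
    refine ⟨k, hk, ?_⟩
    obtain ⟨j, hj, -⟩ := BaseN_idx_neg hf he hk
    have h3 : k ≠ 2 := fun h => hw x hx (h ▸ hk)
    omega
  rcases hm.good.bdd_side (by omega) with hb | hb
  · left
    have h4 := NoSad_top 3 hn hf hb hm.reg h2.isPreconnected he fun x hx => by
      obtain ⟨k, hk, hk1⟩ := hidx x hx
      exact ⟨k, hk, by omega⟩
    refine ix_T1 (by omega) f hf hb hm.reg hM hl e he fun x hx => ?_
    obtain ⟨k, hk, hk1⟩ := h4 x hx
    exact ⟨k, hk, by omega⟩
  · right
    have hset : {x | -f x = 0} = {x | f x = 0} := by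
      ext x
      exact neg_eq_zero (a := f x)
    have hreg : ∀ x, -f x = 0 → gradient (fun y => -f y) x ≠ 0 := by
      intro x hx h3
      have h4 : fderiv ℝ (fun y => -f y) x = -fderiv ℝ f x := fderiv_fun_neg
      unfold gradient at h3
      rw [h4, map_neg, neg_eq_zero] at h3
      exact hm.reg x (neg_eq_zero.1 hx) h3
    refine ix_T3 3 le_rfl hn (fun x => -f x) hf.neg ?_ hreg ?_ ?_ (-e)
      (by rw [norm_neg, he]) fun x hx => ?_
    · refine hb.subset fun x hx => ?_
      have hx' : -f x ≤ 0 := hx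
      show 0 ≤ f x
      linarith
    · rw [hset]
      exact hM
    · rw [hset]
      exact hl
    · obtain ⟨h3, l, hl0, h4⟩ := hx
      have h5 : Inward f e x := by
        refine ⟨neg_eq_zero.1 h3, l, hl0, ?_⟩
        have h6 : gradient (fun y => -f y) x = -gradient f x := by
          have h7 : fderiv ℝ (fun y => -f y) x = -fderiv ℝ f x := fderiv_fun_neg
          unfold gradient
          rw [h7, map_neg]
        rw [h6, smul_neg, neg_neg] at h4
        rw [← h4, neg_neg]
      obtain ⟨k, hk, hk1⟩ := hidx x h5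
      obtain ⟨j, hj, hj1⟩ := BaseN_idx_neg hf he hk
      exact ⟨j, idx_neg_dir.2 hj1, by omega⟩

/-- The base case: the hypersurface misses the level `c`. -/
theorem f2_base (hn : Module.finrank ℝ V = 4) {f : V → ℝ} {e : V} (he : ‖e‖ = 1) (hm : Mo f e)
    {c : ℝ} (h1 : IsConnected {x | f x ≤ 0}) (h2 : IsConnected {x | 0 ≤ f x})
    (hl : LiftS {x | f x = 0}) (hc : ∀ x, f x = 0 → ⟪e, x⟫ ≠ c)
    (w1 : ∀ x, Inward f e x → Idx f e x 2 → ⟪e, x⟫ < c)
    (w2 : ∀ x, Inward f (-e) x → Idx f e x 2 → c < ⟪e, x⟫) : Rd f := by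
  have hf := hm.smooth
  have hM : IsConnected {x | f x = 0} :=
    TopE.zero ⟨h1, h2, Or.inl (BaseN_liftS hf.continuous hl).1⟩ hf.continuous
  have himg : IsPreconnected ((fun z : V => ⟪e, z⟫) '' {z | f z = 0}) :=
    hM.isPreconnected.image _ (by fun_prop : Continuous fun z : V => ⟪e, z⟫).continuousOn
  have hord := himg.ordConnected
  by_cases hup : ∀ x, f x = 0 → c < ⟪e, x⟫
  · exact f2_one hn he hm h1 h2 hl fun x hx hk => absurd (w1 x hx hk) (not_lt.2 (hup x hx.1).le)
  · push Not at hup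
    obtain ⟨y, hy, hyc⟩ := hup
    have hdn : ∀ x, f x = 0 → ⟪e, x⟫ < c := by
      intro x hx
      by_contra hcon
      obtain ⟨z, hz, hzc⟩ := hord.out ⟨y, hy, rfl⟩ ⟨x, hx, rfl⟩ ⟨hyc, not_lt.1 hcon⟩
      exact hc z hz hzc
    exact f2_one hn (by rw [norm_neg, he]) hm.flip h1 h2 hl fun x hx hk =>
      absurd (w2 x hx (idx_neg_dir.1 hk)) (not_lt.2 (hdn x hx.1).le)

end Pool.Schoen
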