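import Pool.Agent.H.MP_6c077c_gt.Al.SCutC
import Pool.Agent.H.MP_6c077c_gt.Al.Flat
import Pool.Agent.H.MP_6c077c_gt.IxB.Lift
import Pool.Agent.H.MP_6c077c_gt.IxB.LiftSphere
import Pool.Agent.H.MP_6c077c_gt.Ix.LiftA
import Pool.Agent.H.MP_6c077c_gt.Gd.BaseDef

/-! Level cuts in any dimension: the caps of the smooth cut and the sphere at their boundary. -/

set_option autoImplicit false

namespace Pool.Schoen

open Filter Set
open scoped Topology RealInnerProductSpace ContDiff

/-- A compact set which is mapped injectively is homeomorphic to its image. -/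
theorem exists_homeo_of_inj {Y Z : Type*} [TopologicalSpace Y] [TopologicalSpace Z] [T2Space Z]
    {A : Set Y} (hA : IsCompact A) {p : Y → Z} (hp : ContinuousOn p A) (hi : InjOn p A) :
    Nonempty (A ≃ₜ (p '' A)) := by
  have : CompactSpace A := isCompact_iff_compactSpace.1 hA
  have hc : Continuous (Equiv.Set.imageOfInjOn p A hi) := by
    refine Continuous.subtype_mk ?_ _
    exact continuousOn_iff_continuous_domRestrict.1 hp
  exact ⟨Continuous.homeoOfEquivCompactToT2 hc⟩

theorem LiftS.of_inj {Y Z : Type*} [TopologicalSpace Y] [TopologicalSpace Z] [T2Space Z]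
    {A : Set Y} (hA : IsCompact A) {p : Y → Z} (hp : ContinuousOn p A) (hi : InjOn p A)
    (h : LiftS (p '' A)) : LiftS A := by
  obtain ⟨Φ⟩ := exists_homeo_of_inj hA hp hi
  exact LiftS.homeo Φ.symm h

theorem IsPreconnected.of_inj {Y Z : Type*} [TopologicalSpace Y] [TopologicalSpace Z] [T2Space Z]
    {A : Set Y} (hA : IsCompact A) {p : Y → Z} (hp : ContinuousOn p A) (hi : InjOn p A)
    (h : IsPreconnected (p '' A)) : IsPreconnected A := by
  obtain ⟨Φ⟩ := exists_homeo_of_inj hA hp hi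
  rw [isPreconnected_iff_preconnectedSpace] at h ⊢
  exact Φ.symm.surjective.denseRange.preconnectedSpace Φ.symm.continuous

variable {V : Type*} [NormedAddCommGroup V] [InnerProductSpace ℝ V]

/-- The cap of the cut below the middle level. -/
def capS (e q : V) (d a : ℝ) : Set V :=
  {x | scutM e q d x = 0 ∧ -a ≤ ⟪e, x - q⟫ ∧ ⟪e, x - q⟫ ≤ 0}

/-- The boundary of the cap. -/
def rimS (e q : V) (a : ℝ) : Set V := {x | ⟪e, x - q⟫ = a ∧ ‖orth e (x - q)‖ = 1}

/-- The bump is strictly monotone below the middle level. -/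
theorem wb_strictMono {d a : ℝ} (hd : 0 < d) (ha2 : a ^ 2 = 2 * d ^ 2) :
    StrictMonoOn (wb d) (Icc (-a) 0) := by
  refine strictMonoOn_of_deriv_pos (convex_Icc _ _) (wb_smooth d).continuous.continuousOn ?_
  intro s hs
  rw [interior_Icc] at hs
  obtain ⟨D, h1, -, h2⟩ := wb_deriv hd s
  have h3 : s * D < 0 := h2 hs.2.ne (by nlinarith [hs.1, hs.2])
  rw [h1.deriv]
  by_contra h4
  nlinarith [hs.2, not_lt.1 h4]

variable {e q : V} {d a : ℝ}

theorem capS_sub (q : V) : capS e q d a ⊆ cylS e q (-a) 0 := by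
  rintro x ⟨h0, h1, h2⟩
  refine ⟨h1, h2, ?_⟩
  unfold scutM at h0
  have h3 := wb_nonneg d ⟪e, x - q⟫
  have h4 := norm_nonneg (orth e (x - q))
  nlinarith

theorem capS_closed (q : V) : IsClosed (capS e q d a) := by
  have h1 : IsClosed {x : V | -a ≤ ⟪e, x - q⟫} := isClosed_le continuous_const (by fun_prop)
  have h2 : IsClosed {x : V | ⟪e, x - q⟫ ≤ 0} := isClosed_le (by fun_prop) continuous_const
  exact (isClosed_eq (scutM_smooth e q d).continuous continuous_const).inter (h1.inter h2)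

theorem orth_add_height (x : V) : x = q + (⟪e, x - q⟫ • e + orth e (x - q)) := by
  unfold orth
  abel

theorem cap_coords (he : ‖e‖ = 1) (q : V) {w : V} (hw : ⟪e, w⟫ = 0) (s : ℝ) :
    ⟪e, q + (s • e + w) - q⟫ = s ∧ orth e (q + (s • e + w) - q) = w := by
  have e1 : ⟪e, q + (s • e + w) - q⟫ = s := by
    rw [add_sub_cancel_left, inner_add_right, hw, real_inner_smul_right,
      real_inner_self_eq_norm_sq, he]
    ring
  refine ⟨e1, ?_⟩
  unfold orth
  rw [e1]
  abel

theorem capS_inj (q : V) (hd : 0 < d) (ha2 : a ^ 2 = 2 * d ^ 2) :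
    InjOn (fun x => orth e (x - q)) (capS e q d a) := by
  rintro x ⟨hx0, hx1, hx2⟩ y ⟨hy0, hy1, hy2⟩ hxy
  have hxy' : orth e (x - q) = orth e (y - q) := hxy
  unfold scutM at hx0 hy0
  have h1 : wb d ⟪e, x - q⟫ = wb d ⟪e, y - q⟫ := by
    rw [hxy'] at hx0
    linarith
  have h2 := (wb_strictMono hd ha2).injOn ⟨hx1, hx2⟩ ⟨hy1, hy2⟩ h1
  rw [orth_add_height (e := e) (q := q) x, orth_add_height (e := e) (q := q) y, h2, hxy']

theorem capS_image (he : ‖e‖ = 1) (q : V) (hd : 0 < d) (ha : 0 < a) (ha2 : a ^ 2 = 2 * d ^ 2) :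
    (fun x => orth e (x - q)) '' capS e q d a = {w : V | ⟪e, w⟫ = 0 ∧ ‖w‖ ≤ 1} := by
  ext w
  constructor
  · rintro ⟨x, hx, rfl⟩
    exact ⟨inner_orth he _, (capS_sub q hx).2.2⟩
  · rintro ⟨h1, h2⟩
    have had : d ≤ a := by nlinarith
    have h3 : (1 - ‖w‖ ^ 2) ∈ Icc (wb d (-a)) (wb d (-d)) := by
      rw [wb_neg, wb_neg, wb_zero hd (by rw [ha2]), wb_one hd.ne']
      have := norm_nonneg w
      constructor
      · nlinarith
      · nlinarith [sq_nonneg ‖w‖]
    obtain ⟨s, hs, hs1⟩ := intermediate_value_Icc (neg_le_neg had)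
      (wb_smooth d).continuous.continuousOn h3
    obtain ⟨e1, e2⟩ := cap_coords he q h1 s
    refine ⟨q + (s • e + w), ⟨?_, ?_, ?_⟩, e2⟩
    · unfold scutM
      rw [e1, e2, hs1]
      ring
    · rw [e1]
      exact hs.1
    · rw [e1]
      linarith [hs.2]

theorem capBase_convex : Convex ℝ {w : V | ⟪e, w⟫ = 0 ∧ ‖w‖ ≤ 1} := by
  rintro x ⟨hx1, hx2⟩ y ⟨hy1, hy2⟩ s t hs ht hst
  refine ⟨?_, ?_⟩
  · rw [inner_add_right, real_inner_smul_right, real_inner_smul_right, hx1, hy1]
    ring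
  · calc ‖s • x + t • y‖ ≤ ‖s • x‖ + ‖t • y‖ := norm_add_le _ _
      _ = s * ‖x‖ + t * ‖y‖ := by
        rw [norm_smul, norm_smul, Real.norm_of_nonneg hs, Real.norm_of_nonneg ht]
      _ ≤ s * 1 + t * 1 := by gcongr
      _ = 1 := by linarith

variable [FiniteDimensional ℝ V]

theorem capS_compact (he : ‖e‖ = 1) (q : V) : IsCompact (capS e q d a) :=
  (cylS_compact he q (-a) 0).of_isClosed_subset (capS_closed q) (capS_sub q)

omit [FiniteDimensional ℝ V] in
private theorem cap_orth_cont (q : V) (A : Set V) : ContinuousOn (fun x => orth e (x - q)) A := by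
  unfold orth
  fun_prop

theorem capS_lift (he : ‖e‖ = 1) (q : V) (hd : 0 < d) (ha : 0 < a) (ha2 : a ^ 2 = 2 * d ^ 2) :
    LiftS (capS e q d a) := by
  refine LiftS.of_inj (capS_compact he q) (cap_orth_cont q _) (capS_inj q hd ha2) ?_
  rw [capS_image he q hd ha ha2]
  have := FiniteDimensional.proper ℝ V
  refine liftS_convex_compact ?_ capBase_convex
  refine Metric.isCompact_of_isClosed_isBounded ?_ ?_
  · exact (isClosed_eq (by fun_prop) continuous_const).inter
      (isClosed_le continuous_norm continuous_const)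
  · refine (Metric.isBounded_closedBall (x := (0 : V)) (r := 1)).subset fun x hx => ?_
    rw [mem_closedBall_zero_iff]
    exact hx.2

theorem capS_preconn (he : ‖e‖ = 1) (q : V) (hd : 0 < d) (ha : 0 < a) (ha2 : a ^ 2 = 2 * d ^ 2) :
    IsPreconnected (capS e q d a) := by
  refine IsPreconnected.of_inj (capS_compact he q) (cap_orth_cont q _) (capS_inj q hd ha2) ?_
  rw [capS_image he q hd ha ha2]
  exact capBase_convex.isPreconnected

theorem rimS_compact (he : ‖e‖ = 1) (q : V) (s : ℝ) : IsCompact (rimS e q s) := by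
  refine (cylS_compact he q s s).of_isClosed_subset ?_ ?_
  · have c2 : Continuous fun y : V => ‖orth e (y - q)‖ := by
      unfold orth
      fun_prop
    exact (isClosed_eq (by fun_prop) continuous_const).inter (isClosed_eq c2 continuous_const)
  · rintro x ⟨h1, h2⟩
    exact ⟨h1.ge, h1.le, h2.le⟩

omit [FiniteDimensional ℝ V] in
private theorem cap_hpr_norm (he : ‖e‖ = 1) (x : V) :
    ((hpr e x : (ℝ ∙ e)ᗮ) : V) = orth e x := by
  have h1 := hpr_add he x
  unfold orth
  rw [eq_sub_iff_add_eq]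
  exact h1

omit [FiniteDimensional ℝ V] in
private theorem cap_hpr_cont (q : V) (A : Set V) : ContinuousOn (fun x => hpr e (x - q)) A := by
  have h1 : Continuous fun x => hprL e (x - q) := by fun_prop
  exact h1.continuousOn

omit [FiniteDimensional ℝ V] in
private theorem cap_rim_inj (he : ‖e‖ = 1) (q : V) (s : ℝ) :
    InjOn (fun x => hpr e (x - q)) (rimS e q s) := by
  rintro x ⟨hx1, hx2⟩ y ⟨hy1, hy2⟩ hxy
  have hxy' : hpr e (x - q) = hpr e (y - q) := hxy
  have h1 : orth e (x - q) = orth e (y - q) := by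
    rw [← cap_hpr_norm he, ← cap_hpr_norm he, hxy']
  rw [orth_add_height (e := e) (q := q) x, orth_add_height (e := e) (q := q) y, h1, hx1, hy1]

omit [FiniteDimensional ℝ V] in
private theorem cap_rim_image (he : ‖e‖ = 1) (q : V) (s : ℝ) :
    (fun x => hpr e (x - q)) '' rimS e q s = Metric.sphere (0 : (ℝ ∙ e)ᗮ) 1 := by
  ext w
  constructor
  · rintro ⟨x, ⟨hx1, hx2⟩, rfl⟩
    rw [mem_sphere_zero_iff_norm]
    rw [← cap_hpr_norm he] at hx2
    exact hx2
  · intro hw
    rw [mem_sphere_zero_iff_norm] at hw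
    obtain ⟨e1, e2⟩ := cap_coords he q (BaseDef_inner e w) s
    refine ⟨q + (s • e + (w : V)), ⟨e1, ?_⟩, ?_⟩
    · rw [e2]
      exact hw
    · apply Subtype.ext
      show ((hpr e (q + (s • e + (w : V)) - q) : (ℝ ∙ e)ᗮ) : V) = w
      rw [cap_hpr_norm he, e2]

theorem cap_rank (he : ‖e‖ = 1) : Module.finrank ℝ (ℝ ∙ e)ᗮ + 1 = Module.finrank ℝ V := by
  have he0 : e ≠ 0 := by
    rintro rfl
    simp at he
  have h1 := Submodule.finrank_add_finrank_orthogonal (ℝ ∙ e)
  rw [finrank_span_singleton he0] at h1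
  omega

theorem rimS_lift (hn : 4 ≤ Module.finrank ℝ V) (he : ‖e‖ = 1) (q : V) (s : ℝ) :
    LiftS (rimS e q s) := by
  refine LiftS.of_inj (rimS_compact he q s) (cap_hpr_cont q _) (cap_rim_inj he q s) ?_
  rw [cap_rim_image he q s]
  have := cap_rank he
  exact liftS_sphere (by omega)

theorem rimS_preconn (hn : 3 ≤ Module.finrank ℝ V) (he : ‖e‖ = 1) (q : V) (s : ℝ) :
    IsPreconnected (rimS e q s) := by
  refine IsPreconnected.of_inj (rimS_compact he q s) (cap_hpr_cont q _) (cap_rim_inj he q s) ?_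
  rw [cap_rim_image he q s]
  have := cap_rank he
  refine isPreconnected_sphere ?_ _ _
  rw [← Module.finrank_eq_rank]
  exact_mod_cast (by omega : 1 < Module.finrank ℝ (ℝ ∙ e)ᗮ)

end Pool.Schoen
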