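import Pool.Agent.H.MP_6c077c_gt.Al.Diffeo
import Pool.Agent.H.MP_6c077c_gt.IxB.Final
import Pool.Agent.H.MP_6c077c_gt.Ix.HomB
import Pool.Agent.H.MP_6c077c_gt.Ix.DescC

/-! Conformal form of the facing pair theorem: the class of unknotted hypersurfaces is invariant
under inversions. -/

set_option autoImplicit false

namespace Pool.Schoen

open Filter Set Metric
open scoped RealInnerProductSpace ContDiff Topology

variable {V : Type*} [NormedAddCommGroup V] [InnerProductSpace ℝ V]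

/-! ### The inversion -/

/-- The inversion in the unit sphere about `w` (with `w` fixed). -/
noncomputable def inv1 (w x : V) : V := w + (‖x - w‖ ^ 2)⁻¹ • (x - w)

theorem inv1_self (w : V) : inv1 w w = w := by simp [inv1]

theorem inv1_sub (w x : V) : inv1 w x - w = (‖x - w‖ ^ 2)⁻¹ • (x - w) := by
  rw [inv1, add_sub_cancel_left]

theorem inv1_norm (w x : V) : ‖inv1 w x - w‖ ^ 2 = (‖x - w‖ ^ 2)⁻¹ := by
  rw [inv1_sub, norm_smul, norm_inv, norm_pow, norm_norm, mul_pow]
  by_cases h : ‖x - w‖ = 0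
  · rw [h]
    simp
  · field_simp

theorem inv1_inv1 (w x : V) : inv1 w (inv1 w x) = x := by
  rw [inv1, inv1_norm, inv1_sub, inv_inv, smul_smul]
  by_cases h : x - w = 0
  · rw [h, smul_zero, add_zero]
    exact (sub_eq_zero.1 h).symm
  · rw [mul_inv_cancel₀ (pow_ne_zero 2 (norm_ne_zero_iff.2 h)), one_smul]
    abel

theorem inv1_eq_center {w x : V} : inv1 w x = w ↔ x = w := by
  constructor
  · intro h
    have := inv1_inv1 w x
    rw [h, inv1_self] at this
    exact this.symm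
  · rintro rfl
    exact inv1_self _

theorem inv1_injective (w : V) : Function.Injective (inv1 w) := fun x y h => by
  rw [← inv1_inv1 w x, h, inv1_inv1]

theorem inv1_contDiffAt {w x : V} (h : x ≠ w) : ContDiffAt ℝ ∞ (inv1 w) x := by
  have h1 : ContDiffAt ℝ ∞ (fun y : V => y - w) x := contDiffAt_id.sub contDiffAt_const
  have h2 : ContDiffAt ℝ ∞ (fun y : V => ‖y - w‖ ^ 2) x := h1.norm_sq ℝ
  exact contDiffAt_const.add ((h2.inv (pow_ne_zero 2 (norm_ne_zero_iff.2 (sub_ne_zero.2 h)))).smul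
    h1)

/-- The conjugate of a compactly supported diffeomorphism by inversions is smooth. -/
theorem conf_smooth {φ : V → V} (hφ : ContDiff ℝ ∞ φ) (hinj : Function.Injective φ)
    {R : ℝ} (hR : ∀ x, R ≤ ‖x‖ → φ x = x) (w : V) :
    ContDiff ℝ ∞ fun x => inv1 (φ w) (φ (inv1 w x)) := by
  rw [contDiff_iff_contDiffAt]
  intro x
  by_cases hx : x = w
  · subst hx
    obtain ⟨p, hp⟩ : ∃ p, p = φ x := ⟨_, rfl⟩
    rw [← hp]
    have hD : ContDiff ℝ ∞ fun y : V =>
        1 + 2 * ⟪x - p, y - x⟫ + ‖x - p‖ ^ 2 * ‖y - x‖ ^ 2 := by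
      have h1 : ContDiff ℝ ∞ (fun y : V => y - x) := contDiff_id.sub contDiff_const
      exact (contDiff_const.add (contDiff_const.mul (contDiff_const.inner ℝ h1))).add
        (contDiff_const.mul (h1.norm_sq ℝ))
    have hN : ContDiff ℝ ∞ fun y : V => (y - x) + ‖y - x‖ ^ 2 • (x - p) := by
      have h1 : ContDiff ℝ ∞ (fun y : V => y - x) := contDiff_id.sub contDiff_const
      exact h1.add ((h1.norm_sq ℝ).smul contDiff_const)
    have hmain : ContDiffAt ℝ ∞ (fun y : V =>
        p + (1 + 2 * ⟪x - p, y - x⟫ + ‖x - p‖ ^ 2 * ‖y - x‖ ^ 2)⁻¹ •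
          ((y - x) + ‖y - x‖ ^ 2 • (x - p))) x := by
      refine contDiffAt_const.add ((hD.contDiffAt.inv ?_).smul hN.contDiffAt)
      simp
    refine hmain.congr_of_eventuallyEq ?_
    have hpos : 0 < (|R| + ‖x‖ + 1)⁻¹ := by positivity
    filter_upwards [Metric.ball_mem_nhds x hpos] with y hy
    rw [Metric.mem_ball, dist_eq_norm] at hy
    by_cases hyx : y = x
    · subst hyx
      rw [inv1_self, ← hp, inv1_self]
      simp
    · have hu : 0 < ‖y - x‖ := norm_pos_iff.2 (sub_ne_zero.2 hyx)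
      have hfar : R ≤ ‖inv1 x y‖ := by
        have h1 : ‖inv1 x y - x‖ = ‖y - x‖⁻¹ := by
          rw [inv1_sub, norm_smul, norm_inv, norm_pow, norm_norm]
          field_simp
        have h2 : |R| + ‖x‖ + 1 < ‖y - x‖⁻¹ := by
          rw [lt_inv_comm₀ (by positivity) hu]
          exact hy
        have h3 := norm_sub_le (inv1 x y) x
        have h4 := le_abs_self R
        linarith
      rw [hR _ hfar]
      have e1 : inv1 x y - p = (x - p) + (‖y - x‖ ^ 2)⁻¹ • (y - x) := by
        rw [inv1]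
        abel
      have e2 : ‖y - x‖ ^ 2 * ‖inv1 x y - p‖ ^ 2 =
          1 + 2 * ⟪x - p, y - x⟫ + ‖x - p‖ ^ 2 * ‖y - x‖ ^ 2 := by
        rw [e1, ← real_inner_self_eq_norm_sq ((x - p) + _), inner_add_add_self,
          real_inner_smul_right, real_inner_smul_left, real_inner_smul_left,
          real_inner_smul_right, real_inner_comm (x - p) (y - x), real_inner_self_eq_norm_sq,
          real_inner_self_eq_norm_sq]
        field_simp
        ring
      have e3 : (y - x) + ‖y - x‖ ^ 2 • (x - p) = ‖y - x‖ ^ 2 • (inv1 x y - p) := by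
        rw [e1, smul_add, smul_smul, mul_inv_cancel₀ (pow_ne_zero 2 hu.ne'), one_smul, add_comm]
      rw [← e2, e3, smul_smul, mul_inv, mul_comm (‖y - x‖ ^ 2)⁻¹, mul_assoc,
        inv_mul_cancel₀ (pow_ne_zero 2 hu.ne'), mul_one]
      rfl
  · have h1 : φ (inv1 w x) ≠ φ w := fun h => hx (inv1_eq_center.1 (hinj h))
    have h2 : ContDiffAt ℝ ∞ (fun x => φ (inv1 w x)) x :=
      ContDiffAt.comp (g := φ) x hφ.contDiffAt (inv1_contDiffAt hx)
    exact ContDiffAt.comp (g := inv1 (φ w)) x (inv1_contDiffAt h1) h2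

/-- Conjugation of a compactly supported diffeomorphism by inversions. -/
theorem conf_dif {φ ψ : V → V} (hφ : ContDiff ℝ ∞ φ) (hψ : ContDiff ℝ ∞ ψ)
    (h1 : ∀ x, ψ (φ x) = x) (h2 : ∀ x, φ (ψ x) = x) {R : ℝ} (hR : ∀ x, R ≤ ‖x‖ → φ x = x) (w : V) :
    Dif (fun x => inv1 (φ w) (φ (inv1 w x))) (fun y => inv1 w (ψ (inv1 (φ w) y))) where
  smooth := conf_smooth hφ (fun x y h => by rw [← h1 x, h, h1]) hR w
  smooth' := by
    have := conf_smooth hψ (fun x y h => by rw [← h2 x, h, h2]) (supp_inv h1 R hR) (φ w)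
    rwa [h1] at this
  left x := by rw [inv1_inv1, h1, inv1_inv1]
  right y := by rw [inv1_inv1, h2, inv1_inv1]

/-! ### Hypersurfaces which are round spheres -/

variable [FiniteDimensional ℝ V]

private theorem Conf_grad (F : V → ℝ) (x a : V) : fderiv ℝ F x a = ⟪gradient F x, a⟫ :=
  (InnerProductSpace.toDual_symm_apply (𝕜 := ℝ)).symm

/-- A function which is positive on the half line has nonnegative derivative. -/
private theorem Conf_deriv {f : ℝ → ℝ} {t c : ℝ} (hf : HasDerivAt f c t) (h0 : f t = 0)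
    (hpos : ∀ s, t < s → 0 < f s) : 0 ≤ c := by
  have h1 := (hasDerivAt_iff_tendsto_slope.1 hf).mono_left
    (nhdsWithin_mono t (show Ioi t ⊆ {t}ᶜ from fun s hs => ne_of_gt hs))
  refine ge_of_tendsto h1 ?_
  filter_upwards [self_mem_nhdsWithin] with s hs
  have hs : t < s := hs
  rw [slope_def_field, h0, sub_zero]
  exact (div_pos (hpos s hs) (sub_pos.2 hs)).le

/-- A regular function whose zero set is a round sphere and which is positive far out is
homotopic to the unit ball. -/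
theorem isBall_of_sphere {G : V → ℝ} (hG : ContDiff ℝ ∞ G)
    (hb : Bornology.IsBounded {x | G x ≤ 0}) (hreg : ∀ x, G x = 0 → gradient G x ≠ 0) {o : V}
    {ρ : ℝ} (hρ : 0 < ρ) (hz : ∀ x, G x = 0 ↔ ‖x - o‖ = ρ) (hne : ∃ u : V, u ≠ 0) :
    IsBall G := by
  have hline : ∀ y w : V, Continuous fun t : ℝ => G (y + t • w) := fun y w =>
    hG.continuous.comp (continuous_const.add (continuous_id.smul continuous_const))
  obtain ⟨R, hR⟩ := hb.exists_norm_le
  have hout : ∀ y, ρ < ‖y - o‖ → 0 < G y := by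
    intro y hy
    by_contra hcon
    have hy0 : 0 < ‖y - o‖ := hρ.trans hy
    obtain ⟨T, hT1, hT⟩ : ∃ T : ℝ, 1 ≤ T ∧ R + ‖o‖ < T * ‖y - o‖ := by
      refine ⟨max 1 ((R + ‖o‖ + 1) / ‖y - o‖), le_max_left _ _, ?_⟩
      have h1 : (R + ‖o‖ + 1) / ‖y - o‖ * ‖y - o‖ ≤
          max 1 ((R + ‖o‖ + 1) / ‖y - o‖) * ‖y - o‖ :=
        mul_le_mul_of_nonneg_right (le_max_right _ _) hy0.le
      rw [div_mul_cancel₀ _ hy0.ne'] at h1
      linarith
    have h1 : G (o + (1 : ℝ) • (y - o)) ≤ 0 := by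
      rw [one_smul, add_sub_cancel]
      exact not_lt.1 hcon
    have h2 : 0 ≤ G (o + T • (y - o)) := by
      by_contra h3
      have h4 := hR _ (not_le.1 h3).le
      have h5 := norm_sub_norm_le (T • (y - o)) (-o)
      rw [sub_neg_eq_add, norm_neg, norm_smul, Real.norm_eq_abs, abs_of_pos (by linarith),
        add_comm (T • (y - o))] at h5
      linarith
    obtain ⟨t, ht, ht0⟩ := intermediate_value_Icc hT1 (hline o (y - o)).continuousOn ⟨h1, h2⟩
    have h3 := (hz _).1 ht0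
    rw [add_sub_cancel_left, norm_smul, Real.norm_eq_abs, abs_of_pos (by linarith [ht.1])] at h3
    nlinarith [ht.1]
  have hin : ∀ y, ‖y - o‖ < ρ → G y < 0 := by
    intro y0 hy0
    by_contra hcon
    have hpos : ∀ y, 0 ≤ G y := by
      intro y
      rcases lt_trichotomy ‖y - o‖ ρ with h | h | h
      · by_contra hneg
        have hconv := (convex_ball o ρ).isPreconnected
        have h1 : (0 : ℝ) ∈ G '' ball o ρ := by
          refine (hconv.image G hG.continuous.continuousOn).ordConnected.out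
            (mem_image_of_mem G (mem_ball_iff_norm.2 h))
            (mem_image_of_mem G (mem_ball_iff_norm.2 hy0)) ⟨(not_le.1 hneg).le, not_lt.1 hcon⟩
        obtain ⟨z, hz1, hz2⟩ := h1
        exact absurd ((hz z).1 hz2) (mem_ball_iff_norm.1 hz1).ne
      · exact ((hz y).2 h).ge
      · exact (hout y h).le
    obtain ⟨u, hu⟩ := hne
    have hu' : 0 < ‖u‖ := norm_pos_iff.2 hu
    have hx : G (o + (ρ / ‖u‖) • u) = 0 := by
      rw [hz, add_sub_cancel_left, norm_smul, Real.norm_eq_abs, abs_of_pos (by positivity),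
        div_mul_cancel₀ _ hu'.ne']
    refine hreg _ hx ?_
    have h1 : IsLocalMin G (o + (ρ / ‖u‖) • u) := by
      refine Filter.Eventually.of_forall fun y => ?_
      show G _ ≤ G y
      rw [hx]
      exact hpos y
    rw [gradient, LinearIsometryEquiv.map_eq_zero_iff]
    exact h1.fderiv_eq_zero
  have hder : ∀ y, G y = 0 → fderiv ℝ G y (-(y - o)) < 0 := by
    intro y hy
    have hyo := (hz y).1 hy
    have hd : ∀ w : V, HasDerivAt (fun t : ℝ => G (y + t • w)) (fderiv ℝ G y w) 0 := by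
      intro w
      have e1 : HasDerivAt (fun t : ℝ => y + t • w) w 0 := by
        simpa using ((hasDerivAt_id (0 : ℝ)).smul_const w).const_add y
      exact ((hG.differentiable (by simp) y).hasFDerivAt).comp_hasDerivAt_of_eq (0 : ℝ) e1
        (by rw [zero_smul, add_zero])
    have h1 : 0 ≤ fderiv ℝ G y (y - o) := by
      refine Conf_deriv (hd (y - o)) (by rw [zero_smul, add_zero, hy]) fun s hs => hout _ ?_
      have e1 : y + s • (y - o) - o = (1 + s) • (y - o) := by
        rw [add_smul, one_smul]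
        abel
      rw [e1, norm_smul, Real.norm_eq_abs, abs_of_pos (by linarith), hyo]
      nlinarith
    have h2 : fderiv ℝ G y (y - o) ≠ 0 := by
      intro h0
      have h3 : 0 ≤ fderiv ℝ G y (-gradient G y) := by
        refine Conf_deriv (hd _) (by rw [zero_smul, add_zero, hy]) fun s hs => hout _ ?_
        rw [Conf_grad] at h0
        have e1 : ‖y + s • -gradient G y - o‖ ^ 2 = ρ ^ 2 + s ^ 2 * ‖gradient G y‖ ^ 2 := by
          have e2 : y + s • -gradient G y - o = (y - o) - s • gradient G y := by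
            rw [smul_neg]
            abel
          rw [e2, norm_sub_sq_real, hyo, real_inner_smul_right, real_inner_comm, h0, norm_smul,
            Real.norm_eq_abs, mul_pow, sq_abs]
          ring
        have e3 : 0 < ‖gradient G y‖ := norm_pos_iff.2 (hreg y hy)
        have e4 : ρ ^ 2 < ‖y + s • -gradient G y - o‖ ^ 2 := by
          rw [e1]
          have : 0 < s ^ 2 * ‖gradient G y‖ ^ 2 := by positivity
          linarith
        exact lt_of_pow_lt_pow_left₀ 2 (norm_nonneg _) e4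
      rw [map_neg, Conf_grad, real_inner_self_eq_norm_sq] at h3
      have e3 : 0 < ‖gradient G y‖ := norm_pos_iff.2 (hreg y hy)
      have : 0 < ‖gradient G y‖ ^ 2 := by positivity
      linarith
    rw [map_neg, neg_lt_zero]
    exact lt_of_le_of_ne h1 (Ne.symm h2)
  have hgood : Good G := good_of_regular hG (hb.subset fun x hx => le_of_eq hx) (fun x hx h =>
    hreg x hx (by rw [gradient, h, map_zero]))
  have hq : ContDiff ℝ ∞ fun x : V => ‖x - o‖ ^ 2 - ρ ^ 2 :=
    ((contDiff_id.sub contDiff_const).norm_sq ℝ).sub contDiff_const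
  have hsgn : ∀ x, (G x < 0 ↔ ‖x - o‖ ^ 2 - ρ ^ 2 < 0) ∧ (G x ≤ 0 ↔ ‖x - o‖ ^ 2 - ρ ^ 2 ≤ 0) := by
    intro x
    have h0 := norm_nonneg (x - o)
    rcases lt_trichotomy ‖x - o‖ ρ with h | h | h
    · have h1 := hin x h
      have h2 : ‖x - o‖ ^ 2 - ρ ^ 2 < 0 := by nlinarith
      exact ⟨iff_of_true h1 h2, iff_of_true h1.le h2.le⟩
    · have h1 := (hz x).2 h
      rw [h1, h, sub_self]
      exact ⟨Iff.rfl, Iff.rfl⟩
    · have h1 := hout x h
      have h2 : 0 < ‖x - o‖ ^ 2 - ρ ^ 2 := by nlinarith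
      exact ⟨iff_of_false h1.not_gt h2.not_gt, iff_of_false h1.not_ge h2.not_ge⟩
  have h1 : Hom G fun x => ‖x - o‖ ^ 2 - ρ ^ 2 := by
    refine Hom.of_sign hgood hq.continuous (fun x => (hsgn x).1) (fun x => (hsgn x).2)
      fun x hx => ⟨-(x - o), ?_, ?_⟩
    · exact desc1_smooth (hG.of_le (by norm_cast)).contDiffAt (hder x hx)
    · refine desc1_smooth (hq.of_le (by norm_cast)).contDiffAt ?_
      have e1 : HasFDerivAt (fun x : V => ‖x - o‖ ^ 2 - ρ ^ 2) ((2 : ℝ) • innerSL ℝ (x - o)) x := by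
        have e2 := (((hasFDerivAt_id (𝕜 := ℝ) x).sub_const o).norm_sq).sub_const (ρ ^ 2)
        refine e2.congr_fderiv ?_
        ext v
        simp
      rw [e1.fderiv]
      simp only [smul_apply, innerSL_apply_apply, inner_neg_right, real_inner_self_eq_norm_sq,
        smul_eq_mul, (hz x).1 hx]
      nlinarith
  have h2 := hom_balls o (0 : V) hρ one_pos
  have h3 : (fun x : V => ‖x - 0‖ ^ 2 - (1 : ℝ) ^ 2) = fun x => ‖x‖ ^ 2 - 1 := by
    funext x
    rw [sub_zero, one_pow]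
  rw [h3] at h2
  exact h1.trans h2

omit [FiniteDimensional ℝ V] in
/-- The image of the unit sphere under an inversion at a point off the sphere is a sphere. -/
theorem inv1_sphere {p : V} (hp : ‖p‖ ≠ 1) (y : V) :
    ‖inv1 p y‖ = 1 ↔ ‖y - (p - (‖p‖ ^ 2 - 1)⁻¹ • p)‖ = |(‖p‖ ^ 2 - 1)⁻¹| := by
  obtain ⟨s, hs⟩ : ∃ s, s = ‖p‖ ^ 2 - 1 := ⟨_, rfl⟩
  have hs0 : s ≠ 0 := by
    intro h
    apply hp
    have h1 : ‖p‖ ^ 2 = 1 := by linarith
    exact (pow_eq_one_iff_of_nonneg (norm_nonneg p) two_ne_zero).1 h1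
  rw [← hs]
  obtain ⟨u, hu⟩ : ∃ u, u = y - p := ⟨_, rfl⟩
  have e1 : y - (p - s⁻¹ • p) = u + s⁻¹ • p := by
    rw [hu]
    abel
  have e2 : ‖u + s⁻¹ • p‖ = |s⁻¹| ↔ s * ‖u‖ ^ 2 + 2 * ⟪p, u⟫ + 1 = 0 := by
    have h1 : ‖u + s⁻¹ • p‖ ^ 2 - |s⁻¹| ^ 2 = s⁻¹ * (s * ‖u‖ ^ 2 + 2 * ⟪p, u⟫ + 1) := by
      rw [norm_add_sq_real, real_inner_smul_right, norm_smul, Real.norm_eq_abs, mul_pow, sq_abs,
        real_inner_comm]
      have h2 : ‖p‖ ^ 2 = s + 1 := by linarith
      rw [h2]
      field_simp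
      ring
    constructor
    · intro h
      rw [h, sub_self] at h1
      rcases mul_eq_zero.1 h1.symm with h2 | h2
      · exact absurd h2 (inv_ne_zero hs0)
      · exact h2
    · intro h
      rw [h, mul_zero, sub_eq_zero] at h1
      exact (pow_left_inj₀ (norm_nonneg _) (abs_nonneg _) two_ne_zero).1 h1
  rw [e1, e2]
  by_cases hy : y = p
  · subst hy
    rw [inv1_self, hu, sub_self, norm_zero, inner_zero_right]
    refine iff_of_false hp ?_
    norm_num
  · have hu0 : 0 < ‖u‖ := by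
      rw [hu]
      exact norm_pos_iff.2 (sub_ne_zero.2 hy)
    have h1 : ‖inv1 p y‖ ^ 2 - 1 = (‖u‖ ^ 2)⁻¹ * (s * ‖u‖ ^ 2 + 2 * ⟪p, u⟫ + 1) := by
      rw [inv1, ← hu, norm_add_sq_real, real_inner_smul_right, norm_smul, norm_inv, norm_pow,
        norm_norm, mul_pow]
      have h2 : ‖p‖ ^ 2 = s + 1 := by linarith
      rw [h2]
      field_simp
      ring
    constructor
    · intro h
      rw [h, one_pow, sub_self] at h1
      rcases mul_eq_zero.1 h1.symm with h2 | h2
      · exact absurd h2 (inv_ne_zero (pow_ne_zero 2 hu0.ne'))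
      · exact h2
    · intro h
      rw [h, mul_zero, sub_eq_zero] at h1
      exact (pow_eq_one_iff_of_nonneg (norm_nonneg _) two_ne_zero).1 h1

/-- If the image of the hypersurface under the inversion about a point off the hypersurface is
unknotted, so is the hypersurface. -/
theorem isBall_of_inv1 {F : V → ℝ} (hF : ContDiff ℝ ∞ F)
    (hb : Bornology.IsBounded {x | F x ≤ 0}) (hreg : ∀ x, F x = 0 → gradient F x ≠ 0)
    (hne : ∃ u : V, u ≠ 0) {w : V} (hw : F w ≠ 0)
    (h : Carries (inv1 w '' {x | F x = 0}) (sphere (0 : V) 1)) : IsBall F := by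
  obtain ⟨φ, ψ, hφ, hψ, h1, h2, ⟨R, hR⟩, him⟩ := h
  have hdif := conf_dif hφ hψ h1 h2 hR w
  have hp : ‖φ w‖ ≠ 1 := by
    intro hp
    have h3 : φ w ∈ sphere (0 : V) 1 := mem_sphere_zero_iff_norm.2 hp
    rw [← him] at h3
    obtain ⟨_, ⟨x, hx, rfl⟩, hx2⟩ := h3
    have h4 : inv1 w x = w := by rw [← h1 (inv1 w x), hx2, h1]
    rw [inv1_eq_center] at h4
    rw [h4] at hx
    exact hw hx
  have hsp : ‖φ w‖ ^ 2 - 1 ≠ 0 := by
    intro h3
    exact hp ((pow_eq_one_iff_of_nonneg (norm_nonneg _) two_ne_zero).1 (by linarith))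
  rw [← isBall_comp_dif hdif.symm]
  refine isBall_of_sphere (hF.comp hdif.smooth') (hdif.symm.bounded hb)
    (fun x hx => hdif.symm.reg hF (hreg _ hx)) (o := φ w - (‖φ w‖ ^ 2 - 1)⁻¹ • φ w)
    (ρ := |(‖φ w‖ ^ 2 - 1)⁻¹|)
    (abs_pos.2 (inv_ne_zero hsp)) (fun y => ?_) hne
  rw [← inv1_sphere hp]
  constructor
  · intro hy
    have h3 : φ (inv1 w (inv1 w (ψ (inv1 (φ w) y)))) ∈ sphere (0 : V) 1 := by
      rw [← him]
      exact mem_image_of_mem φ (mem_image_of_mem _ hy)
    rw [inv1_inv1, h2] at h3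
    exact mem_sphere_zero_iff_norm.1 h3
  · intro hy
    have h3 : inv1 (φ w) y ∈ sphere (0 : V) 1 := mem_sphere_zero_iff_norm.2 hy
    rw [← him] at h3
    obtain ⟨_, ⟨x, hx, rfl⟩, hx2⟩ := h3
    show F (inv1 w (ψ (inv1 (φ w) y))) = 0
    rw [← hx2, h1, inv1_inv1]
    exact hx

end Pool.Schoen
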