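import Pool.Agent.H.MP_6c077c_gt.F2.ConfDef

/-! Conformal form of the facing pair theorem: derivatives of `F ∘ inv1 w`. -/

set_option autoImplicit false

namespace Pool.Schoen

open Filter Set
open scoped Topology RealInnerProductSpace ContDiff

variable {V : Type*} [NormedAddCommGroup V] [InnerProductSpace ℝ V]

/-- The derivative of the inversion about `w` at `w + z`. -/
noncomputable def invD (z v : V) : V :=
  (‖z‖ ^ 2)⁻¹ • v - (2 * ⟪z, v⟫ * ((‖z‖ ^ 2)⁻¹) ^ 2) • z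

theorem invD_norm {z : V} (hz : z ≠ 0) (v : V) : ‖invD z v‖ ^ 2 = ((‖z‖ ^ 2)⁻¹) ^ 2 * ‖v‖ ^ 2 := by
  have h : ‖z‖ ^ 2 ≠ 0 := pow_ne_zero 2 (norm_ne_zero_iff.2 hz)
  rw [invD, norm_sub_sq_real, real_inner_smul_left, real_inner_smul_right, norm_smul, norm_smul,
    mul_pow, mul_pow, Real.norm_eq_abs, Real.norm_eq_abs, sq_abs, sq_abs, real_inner_comm v z]
  field_simp
  ring

theorem invD_ne {z v : V} (hz : z ≠ 0) (hv : v ≠ 0) : invD z v ≠ 0 := by
  intro h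
  have h1 := invD_norm hz v
  rw [h, norm_zero] at h1
  have h2 : 0 < ‖z‖ := norm_pos_iff.2 hz
  have h3 : 0 < ‖v‖ := norm_pos_iff.2 hv
  have h4 : 0 < ((‖z‖ ^ 2)⁻¹) ^ 2 * ‖v‖ ^ 2 := by positivity
  linarith

theorem invD_add (z v v' : V) : invD z (v + v') = invD z v + invD z v' := by
  rw [invD, invD, invD, inner_add_right, smul_add, mul_add, add_mul, add_smul]
  abel

theorem invD_smul (z v : V) (c : ℝ) : invD z (c • v) = c • invD z v := by
  rw [invD, invD, real_inner_smul_right, smul_sub, smul_smul, smul_smul, smul_smul,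
    mul_comm c (‖z‖ ^ 2)⁻¹]
  congr 2
  ring

theorem invD_inner (z v v' : V) : ⟪invD z v, v'⟫ = ⟪v, invD z v'⟫ := by
  rw [invD, invD, inner_sub_left, inner_sub_right, real_inner_smul_left, real_inner_smul_left,
    real_inner_smul_right, real_inner_smul_right, real_inner_comm z v]
  ring

/-- The derivative as a linear map. -/
noncomputable def invL (z : V) : V →ₗ[ℝ] V where
  toFun := invD z
  map_add' := invD_add z
  map_smul' c v := invD_smul z v c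

theorem invL_apply (z v : V) : invL z v = invD z v := rfl

theorem invD_invD {z : V} (hz : z ≠ 0) (v : V) : invD z (invD z v) = ((‖z‖ ^ 2)⁻¹) ^ 2 • v := by
  have h : ‖z‖ ^ 2 ≠ 0 := pow_ne_zero 2 (norm_ne_zero_iff.2 hz)
  have e1 : ⟪z, invD z v⟫ = -((‖z‖ ^ 2)⁻¹ * ⟪z, v⟫) := by
    rw [invD, inner_sub_right, real_inner_smul_right, real_inner_smul_right,
      real_inner_self_eq_norm_sq]
    field_simp
    ring
  rw [invD, e1, invD, smul_sub, smul_smul, smul_smul, sub_sub, ← add_smul]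
  have e2 : (‖z‖ ^ 2)⁻¹ * (2 * ⟪z, v⟫ * ((‖z‖ ^ 2)⁻¹) ^ 2) +
      2 * -((‖z‖ ^ 2)⁻¹ * ⟪z, v⟫) * ((‖z‖ ^ 2)⁻¹) ^ 2 = 0 := by ring
  rw [e2, zero_smul, sub_zero, sq (‖z‖ ^ 2)⁻¹]

theorem inv1_line (w y v : V) {t : ℝ} (h : y + t • v ≠ w) :
    HasDerivAt (fun t : ℝ => inv1 w (y + t • v)) (invD (y + t • v - w) v) t := by
  have h0 : y + t • v - w ≠ 0 := sub_ne_zero.2 h
  have hz : ‖y + t • v - w‖ ^ 2 ≠ 0 := pow_ne_zero 2 (norm_ne_zero_iff.2 h0)
  have e1 : HasDerivAt (fun t : ℝ => y + t • v - w) v t := by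
    simpa using (((hasDerivAt_id t).smul_const v).const_add y).sub_const w
  have e2 : HasDerivAt (fun t : ℝ => ‖y + t • v - w‖ ^ 2) (2 * ⟪y + t • v - w, v⟫) t :=
    e1.norm_sq
  have e3 := ((e2.inv hz).smul e1).const_add w
  refine e3.congr_deriv ?_
  rw [invD, neg_div, neg_smul, ← sub_eq_add_neg, Pi.inv_apply]
  congr 2
  field_simp

theorem invD_line (w y v : V) (h : y ≠ w) :
    HasDerivAt (fun t : ℝ => invD (y + t • v - w) v)
      (-(4 * ⟪y - w, v⟫ * (‖y - w‖ ^ 2)⁻¹) • invD (y - w) v -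
        (2 * ‖v‖ ^ 2 * ((‖y - w‖ ^ 2)⁻¹) ^ 2) • (y - w)) 0 := by
  have h0 : y - w ≠ 0 := sub_ne_zero.2 h
  have hz : ‖y - w‖ ^ 2 ≠ 0 := pow_ne_zero 2 (norm_ne_zero_iff.2 h0)
  have e0 : y + (0 : ℝ) • v - w = y - w := by rw [zero_smul, add_zero]
  have e1 : HasDerivAt (fun t : ℝ => y + t • v - w) v 0 := by
    simpa using (((hasDerivAt_id (0 : ℝ)).smul_const v).const_add y).sub_const w
  have e2 : HasDerivAt (fun t : ℝ => ‖y + t • v - w‖ ^ 2) (2 * ⟪y - w, v⟫) 0 := by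
    have := e1.norm_sq
    rwa [e0] at this
  have e3 : HasDerivAt (fun t : ℝ => (‖y + t • v - w‖ ^ 2)⁻¹)
      (-(2 * ⟪y - w, v⟫) / (‖y - w‖ ^ 2) ^ 2) 0 := by
    have := e2.inv (by rw [e0]; exact hz)
    rwa [e0] at this
  have e4 : HasDerivAt (fun t : ℝ => ⟪y + t • v - w, v⟫) (‖v‖ ^ 2) 0 := by
    have := e1.inner ℝ (hasDerivAt_const (0 : ℝ) v)
    rw [inner_zero_right, zero_add, real_inner_self_eq_norm_sq] at this
    exact this
  have e5 := (e3.smul (hasDerivAt_const (0 : ℝ) v)).sub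
    (((e4.const_mul 2).mul (e3.pow 2)).smul e1)
  refine e5.congr_deriv ?_
  simp only [Pi.pow_apply, Pi.mul_apply, e0, show (2 - 1 : ℕ) = 1 from rfl, pow_one]
  rw [invD]
  generalize y - w = z at *
  match_scalars
  · field_simp
    ring
  · field_simp
    ring

variable [FiniteDimensional ℝ V]

private theorem Conf2_grad (F : V → ℝ) (x a : V) : fderiv ℝ F x a = ⟪gradient F x, a⟫ :=
  (InnerProductSpace.toDual_symm_apply (𝕜 := ℝ)).symm

omit [FiniteDimensional ℝ V] in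
/-- First and second derivatives of a function which agrees with `F ∘ inv1 w` near `y`. -/
theorem conf_deriv {F G : V → ℝ} (hF : ContDiff ℝ ∞ F) (hG : ContDiff ℝ ∞ G) {w y : V}
    (hy : y ≠ w) (hFG : G =ᶠ[𝓝 y] fun z => F (inv1 w z)) (v : V) :
    fderiv ℝ G y v = fderiv ℝ F (inv1 w y) (invD (y - w) v) ∧
    (fderiv ℝ G y v = 0 → fderiv ℝ (fderiv ℝ G) y v v * ‖inv1 w y - w‖ ^ 2 =
      fderiv ℝ (fderiv ℝ F) (inv1 w y) (invD (y - w) v) (invD (y - w) v) *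
        ‖inv1 w y - w‖ ^ 2 -
      2 * fderiv ℝ F (inv1 w y) (inv1 w y - w) * ‖invD (y - w) v‖ ^ 2) := by
  have h0 : y - w ≠ 0 := sub_ne_zero.2 hy
  have hz : ‖y - w‖ ^ 2 ≠ 0 := pow_ne_zero 2 (norm_ne_zero_iff.2 h0)
  have hline : ∀ t : ℝ, HasDerivAt (fun t : ℝ => y + t • v) v t := fun t => by
    simpa using ((hasDerivAt_id t).smul_const v).const_add y
  have hlim : Tendsto (fun t : ℝ => y + t • v) (𝓝 0) (𝓝 y) := by
    have := (hline 0).continuousAt.tendsto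
    simpa using this
  have hFd2 : ContDiff ℝ ∞ (fderiv ℝ F) := hF.fderiv_right (by simp)
  have hGd2 : ContDiff ℝ ∞ (fderiv ℝ G) := hG.fderiv_right (by simp)
  have hgd : ∀ t : ℝ, HasDerivAt (fun t : ℝ => G (y + t • v)) (fderiv ℝ G (y + t • v) v) t :=
    fun t => ((hG.differentiable (by simp) _).hasFDerivAt).comp_hasDerivAt t (hline t)
  have hfd : ∀ t : ℝ, y + t • v ≠ w → HasDerivAt (fun t : ℝ => F (inv1 w (y + t • v)))
      (fderiv ℝ F (inv1 w (y + t • v)) (invD (y + t • v - w) v)) t := fun t ht =>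
    ((hF.differentiable (by simp) _).hasFDerivAt).comp_hasDerivAt t (inv1_line w y v ht)
  have heq : ∀ᶠ t : ℝ in 𝓝 0, fderiv ℝ G (y + t • v) v =
      fderiv ℝ F (inv1 w (y + t • v)) (invD (y + t • v - w) v) := by
    filter_upwards [hlim.eventually hFG.eventually_nhds, hlim.eventually_ne hy] with t ht ht'
    have e1 : (fun t : ℝ => G (y + t • v)) =ᶠ[𝓝 t] fun t : ℝ => F (inv1 w (y + t • v)) :=
      (hline t).continuousAt.tendsto.eventually ht
    exact (hgd t).unique ((hfd t ht').congr_of_eventuallyEq e1)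
  have h1 : fderiv ℝ G y v = fderiv ℝ F (inv1 w y) (invD (y - w) v) := by
    have := heq.self_of_nhds
    rwa [zero_smul, add_zero] at this
  refine ⟨h1, fun hv => ?_⟩
  have e1 : HasDerivAt (fun t : ℝ => fderiv ℝ G (y + t • v) v) (fderiv ℝ (fderiv ℝ G) y v v) 0 := by
    have a1 : HasDerivAt (fun t : ℝ => fderiv ℝ G (y + t • v)) (fderiv ℝ (fderiv ℝ G) y v) 0 :=
      ((hGd2.differentiable (by simp) y).hasFDerivAt).comp_hasDerivAt_of_eq (0 : ℝ) (hline 0)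
        (by rw [zero_smul, add_zero])
    have a2 := a1.clm_apply (hasDerivAt_const (0 : ℝ) v)
    simpa using a2
  obtain ⟨B, hB⟩ : ∃ B, B = -(4 * ⟪y - w, v⟫ * (‖y - w‖ ^ 2)⁻¹) • invD (y - w) v -
        (2 * ‖v‖ ^ 2 * ((‖y - w‖ ^ 2)⁻¹) ^ 2) • (y - w) := ⟨_, rfl⟩
  have e2 : HasDerivAt (fun t : ℝ => fderiv ℝ F (inv1 w (y + t • v)) (invD (y + t • v - w) v))
      (fderiv ℝ (fderiv ℝ F) (inv1 w y) (invD (y - w) v) (invD (y - w) v) +
        fderiv ℝ F (inv1 w y) B) 0 := by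
    have a0 : y + (0 : ℝ) • v = y := by rw [zero_smul, add_zero]
    have a1 : HasDerivAt (fun t : ℝ => fderiv ℝ F (inv1 w (y + t • v)))
        (fderiv ℝ (fderiv ℝ F) (inv1 w y) (invD (y - w) v)) 0 := by
      have b1 := inv1_line w y v (t := 0) (by rw [a0]; exact hy)
      rw [a0] at b1
      exact ((hFd2.differentiable (by simp) (inv1 w y)).hasFDerivAt).comp_hasDerivAt_of_eq
        (0 : ℝ) b1 (by rw [a0])
    have a2 := invD_line w y v hy
    rw [← hB] at a2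
    have a3 := a1.clm_apply a2
    simp only [a0] at a3
    exact a3
  have e3 := e1.unique (e2.congr_of_eventuallyEq heq)
  obtain ⟨u, hu⟩ : ∃ u, u = invD (y - w) v := ⟨_, rfl⟩
  rw [← hu] at h1 hB e3 ⊢
  have e4 : fderiv ℝ F (inv1 w y) u = 0 := by rw [← h1, hv]
  have e5 : ‖u‖ ^ 2 = ((‖y - w‖ ^ 2)⁻¹) ^ 2 * ‖v‖ ^ 2 := by
    rw [hu]
    exact invD_norm h0 v
  have e6 : fderiv ℝ F (inv1 w y) (inv1 w y - w) =
      (‖y - w‖ ^ 2)⁻¹ * fderiv ℝ F (inv1 w y) (y - w) := by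
    rw [inv1_sub, map_smul, smul_eq_mul]
  rw [e3, hB, map_sub, map_smul, map_smul, e4, smul_zero, zero_sub, smul_eq_mul, inv1_norm, e5, e6]
  ring

theorem conf_gradient {F G : V → ℝ} (hF : ContDiff ℝ ∞ F) (hG : ContDiff ℝ ∞ G) {w y : V}
    (hy : y ≠ w) (hFG : G =ᶠ[𝓝 y] fun z => F (inv1 w z)) :
    gradient G y = invD (y - w) (gradient F (inv1 w y)) := by
  refine ext_inner_right ℝ fun v => ?_
  rw [← Conf2_grad, (conf_deriv hF hG hy hFG v).1, Conf2_grad, invD_inner]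

theorem conf_nrm {F G : V → ℝ} (hF : ContDiff ℝ ∞ F) (hG : ContDiff ℝ ∞ G) {w y : V}
    (hy : y ≠ w) (hFG : G =ᶠ[𝓝 y] fun z => F (inv1 w z)) :
    nrm G y = cNrm F w (inv1 w y) := by
  have h0 : y - w ≠ 0 := sub_ne_zero.2 hy
  have hz : ‖y - w‖ ^ 2 ≠ 0 := pow_ne_zero 2 (norm_ne_zero_iff.2 h0)
  have hz1 : ‖y - w‖ ≠ 0 := norm_ne_zero_iff.2 h0
  have h1 := conf_gradient hF hG hy hFG
  have h2 : ‖gradient G y‖ = (‖y - w‖ ^ 2)⁻¹ * ‖gradient F (inv1 w y)‖ := by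
    have e1 := invD_norm h0 (gradient F (inv1 w y))
    rw [← h1, ← mul_pow] at e1
    exact (pow_left_inj₀ (norm_nonneg _) (by positivity) two_ne_zero).1 e1
  rw [nrm, h2, h1, cNrm, nrm, inv1_norm, inv1_sub, invD]
  generalize gradient F (inv1 w y) = g
  rw [real_inner_smul_left, real_inner_smul_right, real_inner_comm g (y - w)]
  by_cases hg : g = 0
  · rw [hg]
    simp
  · have hg1 : ‖g‖ ≠ 0 := norm_ne_zero_iff.2 hg
    generalize y - w = z at *
    match_scalars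
    · field_simp
    · field_simp

omit [FiniteDimensional ℝ V] in
theorem twoLess_of_twoNeg {F G : V → ℝ} (hF : ContDiff ℝ ∞ F) (hG : ContDiff ℝ ∞ G) {w y : V}
    (hy : y ≠ w) (hFG : G =ᶠ[𝓝 y] fun z => F (inv1 w z)) (h : TwoNeg G y) :
    TwoLess F w (inv1 w y) := by
  obtain ⟨U, hU2, hU⟩ := h
  have h0 : y - w ≠ 0 := sub_ne_zero.2 hy
  have hinj : Function.Injective (invL (y - w)) := by
    rw [← LinearMap.ker_eq_bot, LinearMap.ker_eq_bot']
    intro v hv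
    by_contra hv0
    exact invD_ne h0 hv0 hv
  have hx : 0 < ‖inv1 w y - w‖ ^ 2 := by
    rw [inv1_norm]
    have : 0 < ‖y - w‖ := norm_pos_iff.2 h0
    positivity
  refine ⟨U.map (invL (y - w)), ?_, ?_⟩
  · rw [← hU2]
    exact (Submodule.equivMapOfInjective (invL (y - w)) hinj U).finrank_eq.symm
  · rintro _ ⟨v, hv, rfl⟩ hne
    have hv0 : v ≠ 0 := by
      rintro rfl
      exact hne (map_zero _)
    obtain ⟨e1, e2⟩ := hU v hv hv0
    obtain ⟨e3, e4⟩ := conf_deriv hF hG hy hFG v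
    rw [invL_apply]
    refine ⟨by rw [← e3, e1], ?_⟩
    have e5 := e4 e1
    have e6 : fderiv ℝ (fderiv ℝ G) y v v * ‖inv1 w y - w‖ ^ 2 < 0 := mul_neg_of_neg_of_pos e2 hx
    linarith

omit [FiniteDimensional ℝ V] in
theorem oneMore_of_onePos {F G : V → ℝ} (hF : ContDiff ℝ ∞ F) (hG : ContDiff ℝ ∞ G) {w y : V}
    (hy : y ≠ w) (hFG : G =ᶠ[𝓝 y] fun z => F (inv1 w z)) (h : OnePos G y) :
    OneMore F w (inv1 w y) := by
  obtain ⟨v, hv0, e1, e2⟩ := h
  have h0 : y - w ≠ 0 := sub_ne_zero.2 hy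
  have hx : 0 < ‖inv1 w y - w‖ ^ 2 := by
    rw [inv1_norm]
    have : 0 < ‖y - w‖ := norm_pos_iff.2 h0
    positivity
  obtain ⟨e3, e4⟩ := conf_deriv hF hG hy hFG v
  refine ⟨invD (y - w) v, invD_ne h0 hv0, by rw [← e3, e1], ?_⟩
  have e5 := e4 e1
  have e6 : 0 < fderiv ℝ (fderiv ℝ G) y v v * ‖inv1 w y - w‖ ^ 2 := mul_pos e2 hx
  linarith

/-- The facing condition for the pencil of spheres becomes the one for parallel hyperplanes. -/
theorem noFace21_of_conf {F G : V → ℝ} (hF : ContDiff ℝ ∞ F) (hG : ContDiff ℝ ∞ G) {w : V}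
    (hz : ∀ y, G y = 0 → y ≠ w ∧ F (inv1 w y) = 0 ∧ G =ᶠ[𝓝 y] fun z => F (inv1 w z)) {a : V}
    (h : NoFaceC F w a) : NoFace21 G a := by
  have hcl : ∀ y ∈ closure (M21 G), G y = 0 := fun y hy =>
    closure_minimal (fun x hx => hx.1) (isClosed_eq hG.continuous continuous_const) hy
  have hmem : ∀ y ∈ closure (M21 G), inv1 w y ∈ closure (C21 F w) := by
    intro y hy
    have h1 := (hz y (hcl y hy)).1
    have h2 : ContinuousWithinAt (inv1 w) (M21 G) y :=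
      (inv1_contDiffAt h1).continuousAt.continuousWithinAt
    refine closure_mono ?_ (h2.mem_closure_image hy)
    rintro _ ⟨z, ⟨hz1, hz2, hz3⟩, rfl⟩
    obtain ⟨e1, e2, e3⟩ := hz z hz1
    exact ⟨e2, twoLess_of_twoNeg hF hG e1 e3 hz2, oneMore_of_onePos hF hG e1 e3 hz3⟩
  have hht : ∀ y, y ≠ w → ⟪a, y⟫ = ⟪a, w⟫ + cHt w a (inv1 w y) := by
    intro y hy
    have h0 : y - w ≠ 0 := sub_ne_zero.2 hy
    have h1 : ‖y - w‖ ^ 2 ≠ 0 := pow_ne_zero 2 (norm_ne_zero_iff.2 h0)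
    have h2 : ⟪a, y⟫ = ⟪a, w⟫ + ⟪a, y - w⟫ := by
      rw [inner_sub_right]
      ring
    rw [h2, cHt, inv1_norm, inv1_sub, real_inner_smul_right]
    field_simp
  intro x hx y hy hnx hny
  obtain ⟨e1, e2, e3⟩ := hz x (hcl x hx)
  obtain ⟨f1, f2, f3⟩ := hz y (hcl y hy)
  rw [hht x e1, hht y f1]
  have := h _ (hmem x hx) _ (hmem y hy) (by rw [← conf_nrm hF hG e1 e3, hnx])
    (by rw [← conf_nrm hF hG f1 f3, hny])
  linarith

end Pool.Schoen
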