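import Pool.Agent.H.MP_6c077c_gt.F2.Defs
import Pool.Agent.H.MP_6c077c_gt.Gd.FaceCor

/-! Facing pairs in a set `C`: visibility excludes facing pairs (helper18). -/

set_option autoImplicit false

namespace Pool.Schoen

open Filter Set
open scoped Topology RealInnerProductSpace ContDiff

variable {V : Type*} [NormedAddCommGroup V] [InnerProductSpace ℝ V] [FiniteDimensional ℝ V]

/-- Guards in a proper affine subspace: no facing pair in the directions orthogonal to it. -/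
theorem noFaceC_of_guards (F : V → ℝ) (hF : ContDiff ℝ ∞ F) (C : Set V)
    (Q : Set V) (hQb : Bornology.IsBounded Q)
    (e : V) (he : ∀ p ∈ Q, ∀ q ∈ Q, ⟪e, p⟫ = ⟪e, q⟫)
    (hvis : ∀ x ∈ C, ∃ q ∈ Q, 0 ≤ ⟪gradient F x, x - q⟫) :
    ∀ x ∈ closure C, ∀ y ∈ closure C, nrm F x = -e → nrm F y = e → ⟪e, x⟫ ≤ ⟪e, y⟫ := by
  intro x hx y hy hnx hny
  have hK : IsCompact (closure Q) := hQb.isCompact_closure
  have hcl := FaceCor_isClosed F hF (closure Q) hK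
  have key : ∀ z ∈ closure C, ∃ q ∈ closure Q, 0 ≤ ⟪gradient F z, z - q⟫ := by
    have hd : IsClosed {z : V | (z, z) ∈ {p : V × V | ∃ q ∈ closure Q,
        0 ≤ ⟪gradient F p.1, p.1 - q⟫ ∧ 0 ≤ ⟪gradient F p.2, p.2 - q⟫}} :=
      hcl.preimage (continuous_id.prodMk continuous_id)
    intro z hz
    have h1 : closure C ⊆ {z : V | (z, z) ∈ {p : V × V | ∃ q ∈ closure Q,
        0 ≤ ⟪gradient F p.1, p.1 - q⟫ ∧ 0 ≤ ⟪gradient F p.2, p.2 - q⟫}} := by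
      refine closure_minimal ?_ hd
      intro z hz
      obtain ⟨q, hq, h⟩ := hvis z hz
      exact ⟨q, subset_closure hq, h, h⟩
    obtain ⟨q, hq, h, -⟩ := h1 hz
    exact ⟨q, hq, h⟩
  obtain ⟨p, hp, hpx⟩ := key x hx
  obtain ⟨q, hq, hqy⟩ := key y hy
  have h1 : ⟪e, x⟫ ≤ ⟪e, p⟫ := FaceCor_le_of_neg F hnx hpx
  have h2 : ⟪e, q⟫ ≤ ⟪e, y⟫ := FaceCor_le_of_pos F hny hqy
  have h3 : ∀ a ∈ closure Q, ∀ b ∈ closure Q, ⟪e, a⟫ = ⟪e, b⟫ := by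
    have hQ1 : closure (Q ×ˢ Q) ⊆ {s : V × V | ⟪e, s.1⟫ = ⟪e, s.2⟫} := by
      refine closure_minimal (fun s hs => he _ hs.1 _ hs.2) (isClosed_eq ?_ ?_) <;> fun_prop
    intro a ha b hb
    have h4 : (a, b) ∈ closure (Q ×ˢ Q) := by
      rw [closure_prod_eq]
      exact ⟨ha, hb⟩
    exact hQ1 h4
  linarith [h3 p hp q hq]

/-- (A) Guards in a proper affine subspace. -/
theorem exists_noFaceC_of_guards (F : V → ℝ) (hF : ContDiff ℝ ∞ F) (C : Set V)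
    (Q : Set V) (hQb : Bornology.IsBounded Q)
    (hQ : Module.finrank ℝ (vectorSpan ℝ Q) < Module.finrank ℝ V)
    (hvis : ∀ x ∈ C, ∃ q ∈ Q, 0 ≤ ⟪gradient F x, x - q⟫) :
    ∃ e : V, ‖e‖ = 1 ∧
      ∀ x ∈ closure C, ∀ y ∈ closure C, nrm F x = -e → nrm F y = e → ⟪e, x⟫ ≤ ⟪e, y⟫ := by
  have h1 : (vectorSpan ℝ Q) ≠ ⊤ := by
    intro h
    rw [h, finrank_top] at hQ
    exact lt_irrefl _ hQ
  have h2 : (vectorSpan ℝ Q)ᗮ ≠ ⊥ := by
    intro h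
    exact h1 ((Submodule.orthogonal_eq_bot_iff).1 h)
  obtain ⟨v, hv, hv0⟩ := (Submodule.ne_bot_iff _).1 h2
  refine ⟨‖v‖⁻¹ • v, norm_smul_inv_norm hv0, ?_⟩
  refine noFaceC_of_guards F hF C Q hQb _ ?_ hvis
  intro p hp q hq
  have h3 : ⟪v, p - q⟫ = 0 := by
    rw [real_inner_comm]
    exact hv _ (vsub_mem_vectorSpan ℝ hp hq)
  rw [real_inner_smul_left, real_inner_smul_left]
  rw [inner_sub_right] at h3
  have h4 : ⟪v, p⟫ = ⟪v, q⟫ := by linarith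
  rw [h4]

/-- (B) If any two points of `C` have a common guard (in a fixed bounded set), there is no facing
pair in `C` in any direction. -/
theorem noFaceC_of_pairs (F : V → ℝ) (hF : ContDiff ℝ ∞ F) (C : Set V) (R : ℝ)
    (hvis : ∀ x ∈ C, ∀ y ∈ C, ∃ q, ‖q‖ ≤ R ∧ 0 ≤ ⟪gradient F x, x - q⟫ ∧
      0 ≤ ⟪gradient F y, y - q⟫) (e : V) :
    ∀ x ∈ closure C, ∀ y ∈ closure C, nrm F x = -e → nrm F y = e → ⟪e, x⟫ ≤ ⟪e, y⟫ := by
  intro x hx y hy hnx hny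
  have hcl := FaceCor_isClosed F hF (Metric.closedBall 0 R) (isCompact_closedBall 0 R)
  have h1 : closure (C ×ˢ C) ⊆ {p : V × V | ∃ q ∈ Metric.closedBall 0 R,
      0 ≤ ⟪gradient F p.1, p.1 - q⟫ ∧ 0 ≤ ⟪gradient F p.2, p.2 - q⟫} := by
    refine closure_minimal ?_ hcl
    rintro ⟨a, b⟩ ⟨ha, hb⟩
    obtain ⟨q, hq, h⟩ := hvis a ha b hb
    exact ⟨q, mem_closedBall_zero_iff.2 hq, h⟩
  have h2 : (x, y) ∈ closure (C ×ˢ C) := by
    rw [closure_prod_eq]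
    exact ⟨hx, hy⟩
  obtain ⟨q, -, ha, hb⟩ := h1 h2
  exact (FaceCor_le_of_neg F hnx ha).trans (FaceCor_le_of_pos F hny hb)

/-- (B'), with segments. -/
theorem noFaceC_of_segments (F : V → ℝ) (hF : ContDiff ℝ ∞ F) (C : Set V)
    (hC : ∀ x ∈ C, F x = 0) (R : ℝ)
    (hvis : ∀ x ∈ C, ∀ y ∈ C, ∃ q, ‖q‖ ≤ R ∧ segment ℝ q x ⊆ {z | F z ≤ 0} ∧
      segment ℝ q y ⊆ {z | F z ≤ 0}) (e : V) :
    ∀ x ∈ closure C, ∀ y ∈ closure C, nrm F x = -e → nrm F y = e → ⟪e, x⟫ ≤ ⟪e, y⟫ := by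
  refine noFaceC_of_pairs F hF C R ?_ e
  intro x hx y hy
  obtain ⟨q, hq, h1, h2⟩ := hvis x hx y hy
  exact ⟨q, hq, gd_of_segment F hF (hC x hx) h1, gd_of_segment F hF (hC y hy) h2⟩

theorem gradient_neg_fun (F : V → ℝ) (x : V) : gradient (fun z => -F z) x = -gradient F x := by
  unfold gradient
  rw [fderiv_fun_neg, map_neg]

theorem nrm_neg_fun (F : V → ℝ) (x : V) : nrm (fun z => -F z) x = -nrm F x := by
  rw [nrm, nrm, gradient_neg_fun, norm_neg, smul_neg]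

/-- The condition outside, in terms of the outer normal. -/
theorem noFace21_neg_iff (F : V → ℝ) (e : V) : NoFace21 (fun z => -F z) e ↔
    ∀ x ∈ closure (M21 fun z => -F z), ∀ y ∈ closure (M21 fun z => -F z),
      nrm F x = e → nrm F y = -e → ⟪e, x⟫ ≤ ⟪e, y⟫ := by
  refine forall₂_congr fun x _ => forall₂_congr fun y _ => ?_
  rw [nrm_neg_fun, nrm_neg_fun, neg_inj, neg_eq_iff_eq_neg]

end Pool.Schoen
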