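import Pool.Agent.H.MP_6c077c_gt.Al.Main
import Pool.Agent.H.MP_6c077c_gt.helper58.InnerBall
import Pool.Agent.H.MP_6c077c_gt.helper58.ExtS

/-! Theorem F2: an innermost region of the slice is a ball. -/

set_option autoImplicit false

namespace Pool.Schoen

open Filter Set Metric
open scoped Topology RealInnerProductSpace ContDiff

variable {E : Type*} [NormedAddCommGroup E] [InnerProductSpace ℝ E] [FiniteDimensional ℝ E]

/-- An innermost region of a smooth compact surface in three-dimensional space is a ball, when the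
body `{g ≤ 0}` has the lifting property. -/
theorem leaf_ball (hE : Module.finrank ℝ E = 3) {g : E → ℝ} (hg : ContDiff ℝ ∞ g)
    (hb : Bornology.IsBounded {x | g x = 0}) (hreg : ∀ x, g x = 0 → gradient g x ≠ 0)
    (hne : ∃ x, g x = 0) (hl : LiftS {x | g x ≤ 0}) :
    ∃ s : ℝ, (s = 1 ∨ s = -1) ∧ ∃ k : E → ℝ, Dom k ∧ IsBall k ∧ (∀ w, k w ≤ 0 → s * g w ≤ 0) ∧
      (∀ w, k w = 0 → k =ᶠ[𝓝 w] fun y => s * g y) ∧
      (∀ w, k w ≤ 0 → k =ᶠ[𝓝 w] fun y => s * g y) ∧ IsConnected {w | 0 < k w} := by
  haveI : Nontrivial E := Module.nontrivial_of_finrank_pos (R := ℝ) (by omega)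
  have hgood : Good g := good_of_regular hg hb fun x hx => Final_fderiv_ne (hreg x hx)
  obtain ⟨s, hs, K, W, hK, hKc, hKc', hW, hKW, hKg⟩ :=
    hgood.exists_innermost (by rw [hE]; norm_num) hne
  obtain ⟨k, hk, hk0, hkg⟩ := exists_smooth_part hg s hK hW hKW hKg
  have hs0 : s ≠ 0 := by rcases hs with h | h <;> rw [h] <;> norm_num
  have hset : {x | k x ≤ 0} = K := by
    ext x
    exact hk0 x
  have hset' : {x | 0 < k x} = Kᶜ := by
    ext x
    show 0 < k x ↔ x ∉ K
    rw [← hk0 x, not_le]
  have hkz : ∀ x, k x = 0 → g x = 0 := by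
    intro x hx
    have h1 := (hkg x ((hk0 x).1 hx.le)).eq_of_nhds
    rw [hx] at h1
    rcases mul_eq_zero.1 h1.symm with h | h
    · exact absurd h hs0
    · exact h
  have hkr : ∀ x, k x = 0 → gradient k x ≠ 0 := by
    intro x hx
    have h1 := hkg x ((hk0 x).1 hx.le)
    have h3 : gradient k x = gradient (fun y => s * g y) x := by
      unfold gradient
      rw [h1.fderiv_eq]
    have h4 : gradient (fun y => s * g y) x = s • gradient g x := by
      unfold gradient
      rw [fderiv_const_mul (hg.differentiable (by norm_num) x), map_smul]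
    rw [h3, h4]
    exact smul_ne_zero hs0 (hreg x (hkz x hx))
  have hkb : Bornology.IsBounded {x | k x ≤ 0} := by rw [hset]; exact hK.isBounded
  -- both sides
  have hconn : IsConnected {x | k x ≤ 0} := by rw [hset]; exact hKc
  have hpos : IsConnected {x | 0 < k x} := by rw [hset']; exact hKc'
  have hout : IsConnected {x | 0 ≤ k x} := by
    refine ⟨?_, NoSad_closed (fun x hx => NoSad_closure hk hx (hkr x hx)) hpos.isPreconnected⟩
    obtain ⟨a, ha⟩ := hpos.nonempty
    exact ⟨a, (show 0 ≤ k a from (show 0 < k a from ha).le)⟩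
  have hD : IsClosed {x | g x ≤ 0} := isClosed_le hg.continuous continuous_const
  have hY : IsClosed {x | 0 ≤ k x} := isClosed_le continuous_const hk.continuous
  have hlift : LiftS {x | k x ≤ 0} ∨ LiftS {x | 0 ≤ k x} := by
    rcases hs with h | h
    · left
      rw [hset]
      have hR : IsClosed ({x | g x ≤ 0} ∩ Wᶜ) := hD.inter hW.isClosed_compl
      refine LiftS.of_union (A := K) (B := {x | g x ≤ 0} ∩ Wᶜ) hK.isClosed hR ?_ ?_
      · have h1 : K ∪ {x | g x ≤ 0} ∩ Wᶜ = {x | g x ≤ 0} := by
          ext x
          constructor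
          · rintro (hx | hx)
            · have := (hKg x (hKW hx)).2 hx
              rw [h, one_mul] at this
              exact this
            · exact hx.1
          · intro hx
            by_cases hxW : x ∈ W
            · refine Or.inl ((hKg x hxW).1 ?_)
              rw [h, one_mul]
              exact hx
            · exact Or.inr ⟨hx, hxW⟩
        rw [h1]
        exact hl
      · have h1 : K ∩ ({x | g x ≤ 0} ∩ Wᶜ) = ∅ := by
          ext x
          simp only [mem_inter_iff, mem_empty_iff_false, iff_false, not_and]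
          intro hx _ hxW
          exact hxW (hKW hx)
        rw [h1]
        exact liftS_empty
    · right
      have hKD : ∀ x, x ∈ K → g x ≤ 0 → k x = 0 := by
        intro x hx hgx
        have h1 := (hkg x hx).eq_of_nhds
        have h2 := (hk0 x).2 hx
        rw [h] at h1
        linarith
      refine LiftS.of_union (A := {x | 0 ≤ k x}) (B := K ∪ {x | g x ≤ 0}) hY
        (hK.isClosed.union hD) ?_ ?_
      · have h1 : {x | 0 ≤ k x} ∪ (K ∪ {x | g x ≤ 0}) = univ := by
          rw [eq_univ_iff_forall]
          intro x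
          rcases le_total 0 (k x) with h2 | h2
          · exact Or.inl h2
          · exact Or.inr (Or.inl ((hk0 x).1 h2))
        rw [h1]
        exact liftS_univ E
      · have h1 : {x | 0 ≤ k x} ∩ (K ∪ {x | g x ≤ 0}) = {x | g x ≤ 0} := by
          ext x
          constructor
          · rintro ⟨hx, hx' | hx'⟩
            · have h2 : k x = 0 := le_antisymm ((hk0 x).2 hx') hx
              exact (hkz x h2).le
            · exact hx'
          · intro hx
            refine ⟨?_, Or.inr hx⟩
            by_cases hxK : x ∈ K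
            · exact (hKD x hxK hx).ge
            · have : ¬ k x ≤ 0 := fun h2 => hxK ((hk0 x).1 h2)
              exact (not_le.1 this).le
        rw [h1]
        exact hl
  have hball : IsBall k := by
    have hz : Bornology.IsBounded {x | k x = 0} :=
      hkb.subset fun x (hx : k x = 0) => hx.le
    exact (alexander_rd hE hk hz hkr ⟨hconn, hout, hlift⟩).isBall hkb
  have hliftK : LiftS {x | k x ≤ 0} := by
    refine Hom.liftS (Hom.symm hball) ?_ ?_
    · refine (Metric.isBounded_closedBall (x := (0 : E)) (r := 1)).subset fun x hx => ?_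
      have hx' : ‖x‖ ^ 2 - 1 ≤ 0 := hx
      rw [mem_closedBall_zero_iff]
      have := norm_nonneg x
      nlinarith
    · have h1 : {x : E | ‖x‖ ^ 2 - 1 ≤ 0} = closedBall 0 1 := by
        ext x
        show ‖x‖ ^ 2 - 1 ≤ 0 ↔ x ∈ closedBall 0 1
        rw [mem_closedBall_zero_iff]
        have := norm_nonneg x
        constructor
        · intro h; nlinarith
        · intro h; nlinarith
      rw [h1]
      exact liftS_convex_compact (isCompact_closedBall 0 1) (convex_closedBall 0 1)
  refine ⟨s, hs, k, ⟨hk, hkb, hkr, hconn, hliftK⟩, hball, fun w hw => ?_,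
    fun w hw => hkg w ((hk0 w).1 hw.le), fun w hw => hkg w ((hk0 w).1 hw), hpos⟩
  exact (hKg w (hKW ((hk0 w).1 hw))).2 ((hk0 w).1 hw)

end Pool.Schoen
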