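import Pool.Agent.H.MP_6c077c_gt.F2.K2
import Pool.Agent.H.MP_6c077c_gt.helper58.Ext

/-! Level cuts in dimension four: the hypersurface is in the class of the induction. -/

set_option autoImplicit false

namespace Pool.Schoen

open Filter Set
open scoped Topology RealInnerProductSpace ContDiff

/-- If two closed sets cover a connected space and their intersection is connected, they are
connected. -/
theorem preconn_of_cover {Y : Type*} [TopologicalSpace Y] [PreconnectedSpace Y] {A B : Set Y}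
    (hA : IsClosed A) (hB : IsClosed B) (hAB : A ∪ B = univ) (hI : IsPreconnected (A ∩ B))
    (hne : (A ∩ B).Nonempty) : IsPreconnected A := by
  rw [isPreconnected_iff_subset_of_disjoint_closed]
  intro P Q hP hQ hPQ hd
  have key : ∀ P Q : Set Y, IsClosed P → IsClosed Q → A ⊆ P ∪ Q → A ∩ (P ∩ Q) = ∅ →
      A ∩ B ⊆ P → A ⊆ P := by
    intro P Q hP hQ hPQ hd h1 x hx
    by_contra hxP
    have hxQ : x ∈ Q := (hPQ hx).resolve_left hxP
    have h2 : (univ : Set Y) ⊆ (A ∩ Q) ∪ ((A ∩ P) ∪ B) := by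
      intro y _
      have hy : y ∈ A ∪ B := by
        rw [hAB]
        exact mem_univ y
      rcases hy with hy | hy
      · rcases hPQ hy with h3 | h3
        · exact Or.inr (Or.inl ⟨hy, h3⟩)
        · exact Or.inl ⟨hy, h3⟩
      · exact Or.inr (Or.inr hy)
    obtain ⟨z, hz⟩ := hne
    obtain ⟨y, -, hy1, hy2⟩ := isPreconnected_closed_iff.1 (isPreconnected_univ (α := Y))
      (A ∩ Q) ((A ∩ P) ∪ B) (hA.inter hQ) ((hA.inter hP).union hB) h2 ⟨x, mem_univ x, hx, hxQ⟩
      ⟨z, mem_univ z, Or.inr hz.2⟩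
    have hyP : y ∈ P := by
      rcases hy2 with h3 | h3
      · exact h3.2
      · exact h1 ⟨hy1.1, h3⟩
    have : y ∈ A ∩ (P ∩ Q) := ⟨hy1.1, hyP, hy1.2⟩
    rw [hd] at this
    exact this
  have h1 := isPreconnected_iff_subset_of_disjoint_closed.1 hI P Q hP hQ
    (inter_subset_left.trans hPQ) (by
      rw [eq_empty_iff_forall_notMem]
      rintro x ⟨hx, hx2⟩
      have : x ∈ A ∩ (P ∩ Q) := ⟨hx.1, hx2⟩
      rw [hd] at this
      exact this)
  rcases h1 with h1 | h1
  · exact Or.inl (key P Q hP hQ hPQ hd h1)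
  · refine Or.inr (key Q P hQ hP (by rw [union_comm]; exact hPQ) ?_ h1)
    rw [inter_comm Q P]
    exact hd

variable {V : Type*} [NormedAddCommGroup V] [InnerProductSpace ℝ V] [FiniteDimensional ℝ V]

omit [FiniteDimensional ℝ V] in
/-- The two sides of a connected hypersurface are connected. -/
theorem sides_conn {F : V → ℝ} (hF : Continuous F) (hM : IsConnected {x | F x = 0}) :
    IsConnected {x | F x ≤ 0} ∧ IsConnected {x | 0 ≤ F x} := by
  have h1 : IsClosed {x | F x ≤ 0} := isClosed_le hF continuous_const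
  have h2 : IsClosed {x | 0 ≤ F x} := isClosed_le continuous_const hF
  have h3 : {x | F x ≤ 0} ∪ {x | 0 ≤ F x} = univ := by
    ext x
    simp only [mem_union, mem_ofPred_eq, mem_univ, iff_true]
    exact le_total _ _
  have h4 : {x | F x ≤ 0} ∩ {x | 0 ≤ F x} = {x | F x = 0} := by
    ext x
    simp only [mem_inter_iff, mem_ofPred_eq]
    exact ⟨fun h => le_antisymm h.1 h.2, fun h => ⟨h.le, h.ge⟩⟩
  obtain ⟨x, hx⟩ := hM.nonempty
  have hx' : F x = 0 := hx
  refine ⟨⟨⟨x, hx'.le⟩, ?_⟩, ⟨x, hx'.ge⟩, ?_⟩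
  · refine preconn_of_cover h1 h2 h3 ?_ ?_
    · rw [h4]
      exact hM.isPreconnected
    · rw [h4]
      exact hM.nonempty
  · refine preconn_of_cover h2 h1 (by rw [union_comm]; exact h3) ?_ ?_
    · rw [inter_comm, h4]
      exact hM.isPreconnected
    · rw [inter_comm, h4]
      exact hM.nonempty

/-- The start of the induction. -/
theorem k2_start {F : V → ℝ} (hF : ContDiff ℝ ∞ F) (hb : Bornology.IsBounded {x | F x = 0})
    (hreg : ∀ x, F x = 0 → gradient F x ≠ 0) (hMc : IsConnected {x | F x = 0})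
    (hMl : LiftS {x | F x = 0}) {e : V} (he : ‖e‖ = 1)
    (hnd : ∀ x, Crit F e x → ∃ k, Idx F e x k) {c : ℝ} (hc : ∀ x, Crit F e x → ⟪e, x⟫ ≠ c)
    (up : ∀ x, Inward F e x → Idx F e x 2 → ⟪e, x⟫ < c)
    (dn : ∀ x, Inward F (-e) x → Idx F e x 2 → c < ⟪e, x⟫) : ∃ S, K2 F e c S := by
  have hmo : Mo F e := ⟨hF, hb, hreg, hnd⟩
  obtain ⟨hc1, hc2⟩ := sides_conn hF.continuous hMc
  have hlW : LiftS {x | F x ≤ 0} := by
    have h1 : IsClosed {x | F x ≤ 0} := isClosed_le hF.continuous continuous_const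
    have h2 : IsClosed {x | 0 ≤ F x} := isClosed_le continuous_const hF.continuous
    have h3 : {x | F x ≤ 0} ∪ {x | 0 ≤ F x} = univ := by
      ext x
      simp only [mem_union, mem_ofPred_eq, mem_univ, iff_true]
      exact le_total _ _
    have h4 : {x | F x ≤ 0} ∩ {x | 0 ≤ F x} = {x | F x = 0} := by
      ext x
      simp only [mem_inter_iff, mem_ofPred_eq]
      exact ⟨fun h => le_antisymm h.1 h.2, fun h => ⟨h.le, h.ge⟩⟩
    refine LiftS.of_union h1 h2 ?_ ?_
    · rw [h3]
      exact liftS_univ V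
    · rw [h4]
      exact hMl
  obtain ⟨S, hS⟩ := mark_exists (L := {c}) he hF hb (finite_singleton c) (by
    intro x hx hxc l hl
    exact hc x (crit_of_vert hx hl) (by simpa using hxc))
  refine ⟨S, hmo, hc, hc1, hc2, hMl, ?_, up, dn, hS⟩
  exact slice_liftS_nd hF hb hreg he hc hnd (fun x hx hxc hi => lt_asymm hxc (up x hx hi))
    (fun x hx hxc hi => lt_asymm hxc (dn x hx hi)) hlW

end Pool.Schoen
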