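import Pool.Agent.H.MP_6c077c_gt.F2.ZeroLift

/-! Level cuts in any dimension: the lifting property of the slices of the pieces. -/

set_option autoImplicit false

namespace Pool.Schoen

open Filter Set
open scoped Topology RealInnerProductSpace ContDiff

theorem liftS_empty {Y : Type*} [TopologicalSpace Y] : LiftS (∅ : Set Y) :=
  fun _ _ _ => ⟨fun _ => 0, continuousOn_const, fun _ hx => absurd hx (notMem_empty _)⟩

variable {V : Type*} [NormedAddCommGroup V] [InnerProductSpace ℝ V] [FiniteDimensional ℝ V]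
variable {f : V → ℝ} {e : V} {c ζ R d : ℝ} {A C : V → ℝ}

omit [FiniteDimensional ℝ V] in
theorem slice_coords (he : ‖e‖ = 1) (c : ℝ) (w : (ℝ ∙ e)ᗮ) :
    ⟪e, (w : V) + c • e - c • e⟫ = 0 ∧ orth e ((w : V) + c • e - c • e) = w ∧
      ⟪e, (w : V) + c • e⟫ = c := by
  have h1 := BaseDef_inner e w
  have h2 : ⟪e, (w : V) + c • e - c • e⟫ = 0 := by rw [add_sub_cancel_right, h1]
  refine ⟨h2, ?_, ?_⟩
  · unfold orth
    rw [h2, zero_smul, sub_zero, add_sub_cancel_right]
  · rw [inner_add_right, h1, real_inner_smul_right, real_inner_self_eq_norm_sq, he]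
    ring

omit [FiniteDimensional ℝ V] in
/-- Zeros and negative points of the cut on the slice. -/
theorem CylN.slice_far (h : CylN f e (c • e) ζ R) (hd : 0 < d) (hdζ : 2 * d ≤ ζ) (w : (ℝ ∙ e)ᗮ)
    (hw : scut f e (c • e) d R ((w : V) + c • e) ≤ 0) :
    R ≤ ‖w‖ ∧ scut f e (c • e) d R =ᶠ[𝓝 ((w : V) + c • e)] f := by
  obtain ⟨h1, h2, -⟩ := slice_coords h.he c w
  have h3 : R ≤ ‖w‖ := by
    by_contra h4
    have h5 := h.scut_mid (d := d) h1 (by rw [h2]; exact not_le.1 h4)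
    linarith
  exact ⟨h3, h.scut_off hd hdζ (Or.inr (by rw [h2]; exact h3))⟩

omit [FiniteDimensional ℝ V] in
/-- The slice of the body of a piece is a clopen part of the slice of the body. -/
theorem CylN.slice_neg (h : CylN f e (c • e) ζ R) (hd : 0 < d) (hdζ : 2 * d ≤ ζ)
    (hA : Continuous A) (hC : Continuous C)
    (hun : ∀ x, scut f e (c • e) d R x ≤ 0 ↔ A x ≤ 0 ∨ C x ≤ 0) (hdis : ∀ x, A x ≤ 0 → 0 < C x)
    (hl : LiftS {w : (ℝ ∙ e)ᗮ | f ((w : V) + c • e) ≤ 0}) :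
    LiftS {w : (ℝ ∙ e)ᗮ | A ((w : V) + c • e) ≤ 0} := by
  have hR := h.hR
  have cc : Continuous fun w : (ℝ ∙ e)ᗮ => (w : V) + c • e := by fun_prop
  have hAc : IsClosed {w : (ℝ ∙ e)ᗮ | A ((w : V) + c • e) ≤ 0} :=
    isClosed_le (hA.comp cc) continuous_const
  have hCc : IsClosed {w : (ℝ ∙ e)ᗮ | C ((w : V) + c • e) ≤ 0} :=
    isClosed_le (hC.comp cc) continuous_const
  have hfar : ∀ w : (ℝ ∙ e)ᗮ, (A ((w : V) + c • e) ≤ 0 ∨ C ((w : V) + c • e) ≤ 0) →
      R ≤ ‖w‖ ∧ f ((w : V) + c • e) ≤ 0 := by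
    intro w hw
    have h1 := (hun _).2 hw
    obtain ⟨h2, h3⟩ := h.slice_far hd hdζ w h1
    refine ⟨h2, ?_⟩
    rw [← h3.self_of_nhds]
    exact h1
  refine LiftS.of_union (B := Metric.closedBall 0 1 ∪ {w : (ℝ ∙ e)ᗮ | C ((w : V) + c • e) ≤ 0})
    hAc (Metric.isClosed_closedBall.union hCc) ?_ ?_
  · have h1 : {w : (ℝ ∙ e)ᗮ | A ((w : V) + c • e) ≤ 0} ∪
        (Metric.closedBall 0 1 ∪ {w : (ℝ ∙ e)ᗮ | C ((w : V) + c • e) ≤ 0}) =
        {w : (ℝ ∙ e)ᗮ | f ((w : V) + c • e) ≤ 0} := by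
      ext w
      obtain ⟨e1, e2, -⟩ := slice_coords h.he c w
      have hin : ‖w‖ < R → f ((w : V) + c • e) = ‖w‖ ^ 2 - 1 := by
        intro h1
        have h2 := h.hf ((w : V) + c • e) (by rw [e1, abs_zero]; exact h.hζ) (by rw [e2]; exact h1)
        rw [e2] at h2
        exact h2
      constructor
      · rintro (hw | hw | hw)
        · exact (hfar w (Or.inl hw)).2
        · rw [mem_closedBall_zero_iff] at hw
          show f ((w : V) + c • e) ≤ 0
          rw [hin (by linarith)]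
          have := norm_nonneg w
          nlinarith
        · exact (hfar w (Or.inr hw)).2
      · intro hw
        have hw' : f ((w : V) + c • e) ≤ 0 := hw
        by_cases h1 : R ≤ ‖w‖
        · have h2 := h.scut_off hd hdζ (x := (w : V) + c • e) (Or.inr (by rw [e2]; exact h1))
          have h3 : scut f e (c • e) d R ((w : V) + c • e) ≤ 0 := by
            rw [h2.self_of_nhds]
            exact hw'
          rcases (hun _).1 h3 with h4 | h4
          · exact Or.inl h4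
          · exact Or.inr (Or.inr h4)
        · right
          left
          rw [mem_closedBall_zero_iff]
          rw [hin (not_le.1 h1)] at hw'
          have := norm_nonneg w
          nlinarith
    rw [h1]
    exact hl
  · have h1 : {w : (ℝ ∙ e)ᗮ | A ((w : V) + c • e) ≤ 0} ∩
        (Metric.closedBall 0 1 ∪ {w : (ℝ ∙ e)ᗮ | C ((w : V) + c • e) ≤ 0}) = ∅ := by
      rw [Set.eq_empty_iff_forall_notMem]
      rintro w ⟨hw, hw1 | hw1⟩
      · have h2 := (hfar w (Or.inl hw)).1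
        rw [mem_closedBall_zero_iff] at hw1
        linarith
      · have h2 := hdis _ hw
        have h3 : C ((w : V) + c • e) ≤ 0 := hw1
        linarith
    rw [h1]
    exact liftS_empty

/-- The slice of the outer side of a piece. -/
theorem CylN.slice_pos (h : CylN f e (c • e) ζ R) (hf : ContDiff ℝ ∞ f)
    (hreg : ∀ x, f x = 0 → gradient f x ≠ 0) (hd : 0 < d) (hdζ : 2 * d ≤ ζ)
    (hA : Continuous A) (hC : Continuous C) (hAs : ∀ x, A x = 0 → A =ᶠ[𝓝 x] scut f e (c • e) d R)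
    (hun : ∀ x, scut f e (c • e) d R x ≤ 0 ↔ A x ≤ 0 ∨ C x ≤ 0) (hdis : ∀ x, A x ≤ 0 → 0 < C x)
    (hl : LiftS {w : (ℝ ∙ e)ᗮ | 0 ≤ f ((w : V) + c • e)}) :
    LiftS {w : (ℝ ∙ e)ᗮ | 0 ≤ A ((w : V) + c • e)} := by
  have cc : Continuous fun w : (ℝ ∙ e)ᗮ => (w : V) + c • e := by fun_prop
  have hAc : IsClosed {w : (ℝ ∙ e)ᗮ | 0 ≤ A ((w : V) + c • e)} :=
    isClosed_le continuous_const (hA.comp cc)
  have hAc' : IsClosed {w : (ℝ ∙ e)ᗮ | A ((w : V) + c • e) ≤ 0} :=
    isClosed_le (hA.comp cc) continuous_const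
  have hfc : IsClosed {w : (ℝ ∙ e)ᗮ | 0 ≤ f ((w : V) + c • e)} :=
    isClosed_le continuous_const (hf.continuous.comp cc)
  refine LiftS.of_union (B := {w : (ℝ ∙ e)ᗮ | 0 ≤ f ((w : V) + c • e)} ∪
    {w : (ℝ ∙ e)ᗮ | A ((w : V) + c • e) ≤ 0}) hAc (hfc.union hAc') ?_ ?_
  · have h1 : {w : (ℝ ∙ e)ᗮ | 0 ≤ A ((w : V) + c • e)} ∪
        ({w : (ℝ ∙ e)ᗮ | 0 ≤ f ((w : V) + c • e)} ∪ {w : (ℝ ∙ e)ᗮ | A ((w : V) + c • e) ≤ 0}) =
        univ := by
      refine eq_univ_of_forall fun w => ?_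
      rcases le_total 0 (A ((w : V) + c • e)) with h2 | h2
      · exact Or.inl h2
      · exact Or.inr (Or.inr h2)
    rw [h1]
    exact liftS_univ _
  · have h1 : {w : (ℝ ∙ e)ᗮ | 0 ≤ A ((w : V) + c • e)} ∩
        ({w : (ℝ ∙ e)ᗮ | 0 ≤ f ((w : V) + c • e)} ∪ {w : (ℝ ∙ e)ᗮ | A ((w : V) + c • e) ≤ 0}) =
        {w : (ℝ ∙ e)ᗮ | 0 ≤ f ((w : V) + c • e)} := by
      ext w
      constructor
      · rintro ⟨hw, hw1 | hw1⟩
        · exact hw1
        · have h2 : A ((w : V) + c • e) = 0 := le_antisymm hw1 hw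
          have h3 : scut f e (c • e) d R ((w : V) + c • e) = 0 := by
            rw [← (hAs _ h2).self_of_nhds, h2]
          have h4 := (h.slice_far hd hdζ w h3.le).2.self_of_nhds
          show 0 ≤ f ((w : V) + c • e)
          rw [← h4, h3]
      · intro hw
        have hw' : 0 ≤ f ((w : V) + c • e) := hw
        refine ⟨?_, Or.inl hw⟩
        show 0 ≤ A ((w : V) + c • e)
        by_contra h2
        have h2' : A ((w : V) + c • e) < 0 := not_le.1 h2
        have h3 := (hun _).2 (Or.inl h2'.le)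
        have h4 := (h.slice_far hd hdζ w h3).2.self_of_nhds
        have h5 : scut f e (c • e) d R ((w : V) + c • e) = 0 := by
          refine le_antisymm h3 ?_
          rw [h4]
          exact hw'
        rcases h.parts_zero hf hreg hd hdζ hA hC hun h5 with h6 | h6
        · linarith
        · have := hdis _ h2'.le
          linarith
    rw [h1]
    exact hl

end Pool.Schoen
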