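import Pool.Agent.H.MP_6c077c_gt.Al.STopA
import Pool.Agent.H.MP_6c077c_gt.Ix.LiftB

/-! Level cut along a ball: topology of the flat parts, any dimension, both sides with lifts. -/

set_option autoImplicit false

namespace Pool.Schoen

open Filter Set
open scoped Topology RealInnerProductSpace ContDiff

variable {V : Type*} [NormedAddCommGroup V] [InnerProductSpace ℝ V] [FiniteDimensional ℝ V]
variable {f : V → ℝ} {e q : V} {ζ R η r : ℝ}

private theorem stopN_rank {e : V} (he : ‖e‖ = 1) (hn : 3 ≤ Module.finrank ℝ V) :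
    2 ≤ Module.finrank ℝ (ℝ ∙ e)ᗮ := by
  have he0 : e ≠ 0 := by
    rintro rfl
    simp at he
  have h1 := Submodule.finrank_add_finrank_orthogonal (ℝ ∙ e)
  rw [finrank_span_singleton he0] at h1
  omega

/-- The lateral boundary of the cylinder. -/
theorem CylN.rimN (h : CylN f e q ζ R) (hn : 3 ≤ Module.finrank ℝ V) (hη : 0 < η) (hηζ : η < ζ) :
    IsConnected ({x | 0 ≤ f x} ∩ cylS e q (-η) η) := by
  have he := h.he
  have hr2 := stopN_rank he hn
  have hnt : Nontrivial (ℝ ∙ e)ᗮ := Module.nontrivial_of_finrank_pos (R := ℝ) (by omega)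
  have hrk : 1 < Module.rank ℝ (ℝ ∙ e)ᗮ := by
    rw [← Module.finrank_eq_rank]
    exact_mod_cast (by omega : 1 < Module.finrank ℝ (ℝ ∙ e)ᗮ)
  have h1 : IsPreconnected (Icc (-η) η ×ˢ Metric.sphere (0 : (ℝ ∙ e)ᗮ) 1) :=
    isPreconnected_Icc.prod (isPreconnected_sphere hrk 0 1)
  obtain ⟨w0, hw0⟩ := exists_norm_eq (ℝ ∙ e)ᗮ (zero_le_one (α := ℝ))
  have h2 : IsConnected (Icc (-η) η ×ˢ Metric.sphere (0 : (ℝ ∙ e)ᗮ) 1) :=
    ⟨⟨(0, w0), ⟨by linarith, hη.le⟩, mem_sphere_zero_iff_norm.2 hw0⟩, h1⟩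
  have h3 : {x | 0 ≤ f x} ∩ cylS e q (-η) η =
      (fun p : ℝ × (ℝ ∙ e)ᗮ => q + (p.1 • e + (p.2 : V))) ''
        (Icc (-η) η ×ˢ Metric.sphere (0 : (ℝ ∙ e)ᗮ) 1) := by
    ext x
    constructor
    · rintro ⟨hx, h4, h5, h6⟩
      have hx' : 0 ≤ f x := hx
      have h7 : |⟪e, x - q⟫| < ζ := by
        rw [abs_lt]
        constructor <;> linarith
      rw [h.hf x h7 (by linarith [h.hR])] at hx'
      have h8 : ‖orth e (x - q)‖ = 1 := by
        have := norm_nonneg (orth e (x - q))
        nlinarith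
      refine ⟨(⟪e, x - q⟫, ⟨orth e (x - q),
        Submodule.mem_orthogonal_singleton_iff_inner_right.2 (inner_orth he _)⟩), ⟨⟨h4, h5⟩, ?_⟩, ?_⟩
      · rw [mem_sphere_zero_iff_norm]
        exact h8
      · change q + (⟪e, x - q⟫ • e + orth e (x - q)) = x
        unfold orth
        abel
    · rintro ⟨⟨s, w⟩, ⟨⟨h4, h5⟩, h6⟩, rfl⟩
      have h6' : ‖(w : V)‖ = 1 := mem_sphere_zero_iff_norm.1 h6
      have hw : ⟪e, (w : V)⟫ = 0 := Submodule.mem_orthogonal_singleton_iff_inner_right.1 w.2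
      have e1 : ⟪e, q + (s • e + (w : V)) - q⟫ = s := by
        rw [add_sub_cancel_left, inner_add_right, hw, real_inner_smul_right,
          real_inner_self_eq_norm_sq, he]
        ring
      have e2 : orth e (q + (s • e + (w : V)) - q) = w := by
        unfold orth
        rw [e1]
        abel
      change 0 ≤ f (q + (s • e + (w : V))) ∧ _ ≤ _ ∧ _ ≤ _ ∧ _ ≤ _
      change -η ≤ s at h4
      change s ≤ η at h5
      rw [h.hf _ (by rw [e1, abs_lt]; constructor <;> linarith)
        (by rw [e2, h6']; exact h.hR), e1, e2, h6']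
      refine ⟨by norm_num, h4, h5, le_rfl⟩
  rw [h3]
  refine h2.image _ (Continuous.continuousOn ?_)
  fun_prop

/-- Topology of the flat parts. -/
theorem CylN.flat_topN (h : CylN f e q ζ R) (hn : 3 ≤ Module.finrank ℝ V) (hg : Good f)
    (hη : 0 < η) (hηζ : η < ζ) (hr : 1 < r) (hrR : r < R) (hc : IsConnected {x | f x ≤ 0})
    (hc' : IsConnected {x | 0 ≤ f x}) (hl : LiftS {x | f x ≤ 0}) :
    ∃ A C : Set V, IsClosed A ∧ IsClosed C ∧ Disjoint A C ∧
      A ∪ C = {x | fcutC f e q η r x ≤ 0} ∧ cylS e q (-η) (-η) ⊆ A ∧ cylS e q η η ⊆ C ∧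
      IsConnected A ∧ IsConnected C ∧
      IsConnected {x | 0 ≤ partF (fcutC f e q η r) A C x} ∧
      IsConnected {x | 0 ≤ partF (fcutC f e q η r) C A x} ∧
      (LiftS {x | f x ≤ 0} → LiftS A ∧ LiftS C) ∧
      (LiftS {x | 0 ≤ f x} → LiftS {x | 0 ≤ partF (fcutC f e q η r) A C x} ∧
        LiftS {x | 0 ≤ partF (fcutC f e q η r) C A x}) := by
  have he := h.he
  have hcg : Good (fcutC f e q η r) := h.fcut_good hg hη hηζ hr hrR
  have hDc : IsClosed {x | fcutC f e q η r x ≤ 0} := isClosed_le hcg.cont continuous_const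
  have hS : IsClosed (cylS e q (-η) η) := cylS_closed e q _ _
  have hW := h.fcut_inter hη hηζ hr hrR
  have hU := h.fcut_union hη hηζ hr hrR
  have hwm : IsConnected (cylS e q (-η) (-η)) := cylS_isConnected he q le_rfl
  have hwp : IsConnected (cylS e q η η) := cylS_isConnected he q le_rfl
  have hSc : IsConnected (cylS e q (-η) η) := cylS_isConnected he q (by linarith)
  have hnc : ¬ IsPreconnected {x | fcutC f e q η r x ≤ 0} := by
    intro hcon
    refine not_liftS_of_ring hDc hS hW (y := fun x => ⟪e, x - q⟫) (by fun_prop) hη ?_ ?_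
      hwm.nonempty hwp.nonempty hSc.isPreconnected hcon (by rw [hU]; exact hl)
    · rintro x ⟨h1, h2, _⟩
      exact le_antisymm h2 h1
    · rintro x ⟨h1, h2, _⟩
      exact le_antisymm h2 h1
  obtain ⟨A, C, hA, hC, hd, hAC, hmA, hpC, hAc, hCc⟩ :=
    cut_parts' hDc hS hW hwm hwp (by rw [hU]; exact hc) hnc
  have hA0 := hAc.nonempty
  have hC0 := hCc.nonempty
  have hCA : C ∪ A = {x | fcutC f e q η r x ≤ 0} := (Set.union_comm _ _).trans hAC
  have hNA := h.flat_compl hη hηζ hr hrR hC hC0 hAC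
  have hNC := h.flat_compl hη hηζ hr hrR hA hA0 hCA
  have hrim := h.rimN hn hη hηζ
  have hX : IsConnected ({x | 0 ≤ f x} ∪ cylS e q (-η) η) := by
    obtain ⟨z, hz1, hz2⟩ := hrim.nonempty
    exact ⟨⟨z, Or.inl hz1⟩, hc'.isPreconnected.union z hz1 hz2 hSc.isPreconnected⟩
  have hqm : q + (-η) • e ∈ A := hmA (cylS_mem he q le_rfl le_rfl)
  have hqp : q + η • e ∈ C := hpC (cylS_mem he q le_rfl le_rfl)
  have hqm' : q + (-η) • e ∈ {x | 0 ≤ f x} ∪ cylS e q (-η) η :=
    Or.inr (cylS_mem he q le_rfl (by linarith))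
  have hqp' : q + η • e ∈ {x | 0 ≤ f x} ∪ cylS e q (-η) η :=
    Or.inr (cylS_mem he q (by linarith) le_rfl)
  refine ⟨A, C, hA, hC, hd, hAC, hmA, hpC, hAc, hCc, ?_, ?_, ?_, ?_⟩
  · rw [hNA]
    exact ⟨⟨_, Or.inl hqp'⟩, hX.isPreconnected.union _ hqp' hqp hCc.isPreconnected⟩
  · rw [hNC]
    exact ⟨⟨_, Or.inl hqm'⟩, hX.isPreconnected.union _ hqm' hqm hAc.isPreconnected⟩
  · intro hlf
    constructor
    · exact cut_lift hS hW (liftS_convex_compact (cylS_compact he q _ _) (cylS_convex e q _ _))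
        (by rw [hU]; exact hlf) hA hC hd hAC hmA hpC
    · exact cut_lift hS (hW.trans (Set.union_comm _ _))
        (liftS_convex_compact (cylS_compact he q _ _) (cylS_convex e q _ _))
        (by rw [hU]; exact hlf) hC hA hd.symm hCA hpC hmA
  · intro hlf
    have hfc : IsClosed {x | 0 ≤ f x} := isClosed_le continuous_const hg.cont
    have hXl : LiftS ({x | 0 ≤ f x} ∪ cylS e q (-η) η) :=
      LiftS.union hfc hS hlf
        (liftS_convex_compact (cylS_compact he q _ _) (cylS_convex e q _ _)) hrim.isPreconnected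
    have hNAc : IsClosed {x | 0 ≤ partF (fcutC f e q η r) A C x} :=
      isClosed_le continuous_const (partF_cont hcg.cont A C)
    have hNCc : IsClosed {x | 0 ≤ partF (fcutC f e q η r) C A x} :=
      isClosed_le continuous_const (partF_cont hcg.cont C A)
    have hun : {x | 0 ≤ partF (fcutC f e q η r) A C x} ∪
        {x | 0 ≤ partF (fcutC f e q η r) C A x} = univ := by
      rw [hNA, hNC]
      refine eq_univ_of_forall fun x => ?_
      rcases le_total 0 (f x) with h1 | h1
      · exact Or.inl (Or.inl (Or.inl h1))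
      · have h2 : x ∈ {x | fcutC f e q η r x ≤ 0} ∪ cylS e q (-η) η := by
          rw [hU]
          exact h1
        rcases h2 with h2 | h2
        · rw [← hAC] at h2
          rcases h2 with h2 | h2
          · exact Or.inr (Or.inr h2)
          · exact Or.inl (Or.inr h2)
        · exact Or.inl (Or.inl (Or.inr h2))
    have hin : {x | 0 ≤ partF (fcutC f e q η r) A C x} ∩
        {x | 0 ≤ partF (fcutC f e q η r) C A x} = {x | 0 ≤ f x} ∪ cylS e q (-η) η := by
      rw [hNA, hNC, ← union_inter_distrib_left, inter_comm C A, hd.inter_eq, union_empty]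
    constructor
    · exact LiftS.of_union hNAc hNCc (by rw [hun]; exact liftS_univ V) (by rw [hin]; exact hXl)
    · exact LiftS.of_union hNCc hNAc (by rw [union_comm, hun]; exact liftS_univ V)
        (by rw [inter_comm, hin]; exact hXl)

end Pool.Schoen
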