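import Pool.Agent.H.MP_6c077c_gt.Al.STop
import Pool.Agent.H.MP_6c077c_gt.F2.StopA

/-! Level cut along a ball, any dimension: the smooth parts of the cut. -/

set_option autoImplicit false

namespace Pool.Schoen

open Filter Set
open scoped Topology RealInnerProductSpace ContDiff

variable {V : Type*} [NormedAddCommGroup V] [InnerProductSpace ℝ V] [FiniteDimensional ℝ V]
variable {f : V → ℝ} {e q : V} {ζ R η r d : ℝ}

/-- One smooth part. -/
private theorem stopN_one (h : CylN f e q ζ R) (hf : ContDiff ℝ ∞ f) (hg : Good f) (hd : 0 < d)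
    (hdζ : 2 * d ≤ ζ) (hη : 0 < η) (hηd : η < d) (hr : 1 < r) (hrR : r < R) {A C : Set V}
    (hA : IsClosed A) (hC : IsClosed C) (hD : Disjoint A C) (hA0 : A.Nonempty) (hC0 : C.Nonempty)
    (hAC : A ∪ C = {x | fcutC f e q η r x ≤ 0}) :
    ∃ G : V → ℝ, ContDiff ℝ ∞ G ∧ Hom (partF (fcutC f e q η r) A C) G ∧
      (∀ x, G x ≤ 0 ↔ x ∈ A ∧ scut f e q d R x ≤ 0) ∧
      ∀ x, G x = 0 → G =ᶠ[𝓝 x] scut f e q d R := by
  have hηζ : η < ζ := by linarith
  have hH := h.smooth_flat hg hd hdζ hη hηd hr hrR hA hC hD hA0 hC0 hAC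
  have hsc : Continuous (scut f e q d R) := (scut_smooth hf e q d R).continuous
  have hle : ∀ x, partF (scut f e q d R) A C x ≤ 0 ↔ x ∈ A ∧ scut f e q d R x ≤ 0 := by
    intro x
    unfold partF
    rw [max_le_iff]
    constructor
    · rintro ⟨h1, h2⟩
      refine ⟨?_, h1⟩
      have h3 : x ∈ A ∪ C := by
        rw [hAC]
        exact max_le ((scut_ge f e q d R x).trans h1) (h.scut_lam hd hηd hηζ hrR h1).le
      refine h3.resolve_right fun h4 => ?_
      have h5 : Metric.infDist x C = 0 := Metric.infDist_zero_of_mem h4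
      have h6 : 0 < Metric.infDist x A :=
        (hA.notMem_iff_infDist_pos hA0).1 fun h7 => hD.le_bot ⟨h7, h4⟩
      linarith
    · rintro ⟨h1, h2⟩
      have h5 : Metric.infDist x A = 0 := Metric.infDist_zero_of_mem h1
      have h6 : 0 ≤ Metric.infDist x C := Metric.infDist_nonneg
      exact ⟨h2, by linarith⟩
  obtain ⟨G, hGs, hGH, hGle, hGn⟩ := smooth_part' (scut f e q d R) (scut_smooth hf e q d R)
    (partF (scut f e q d R) A C) hH.good_right (by
      intro x hx
      obtain ⟨h1, h2⟩ := (hle x).1 hx.le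
      have h5 : Metric.infDist x A = 0 := Metric.infDist_zero_of_mem h1
      have h6 : 0 < Metric.infDist x C :=
        (hC.notMem_iff_infDist_pos hC0).1 fun h7 => hD.le_bot ⟨h1, h7⟩
      have h7 : scut f e q d R x = 0 := by
        have hx' : max (scut f e q d R x) (Metric.infDist x A - Metric.infDist x C) = 0 := hx
        rcases max_choice (scut f e q d R x) (Metric.infDist x A - Metric.infDist x C) with h8 | h8
        · rw [← h8]
          exact hx'
        · rw [h8] at hx'
          linarith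
      exact partF_near hsc hC hD hC0 h1 h7)
  exact ⟨G, hGs, hH.trans hGH, fun x => (hGle x).trans (hle x), hGn⟩

/-- The smooth cut and its two parts. -/
theorem CylN.stopN (h : CylN f e q ζ R) (hn : 3 ≤ Module.finrank ℝ V) (hf : ContDiff ℝ ∞ f)
    (hg : Good f) (hc : IsConnected {x | f x ≤ 0}) (hc' : IsConnected {x | 0 ≤ f x})
    (hl : LiftS {x | f x ≤ 0}) (hl' : LiftS {x | 0 ≤ f x}) (hd : 0 < d) (hdζ : 2 * d ≤ ζ) :
    ∃ A C : V → ℝ, ContDiff ℝ ∞ A ∧ ContDiff ℝ ∞ C ∧
      (∀ x, A x = 0 → A =ᶠ[𝓝 x] scut f e q d R) ∧ (∀ x, C x = 0 → C =ᶠ[𝓝 x] scut f e q d R) ∧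
      (∀ x, scut f e q d R x ≤ 0 ↔ A x ≤ 0 ∨ C x ≤ 0) ∧ (∀ x, A x ≤ 0 → 0 < C x) ∧
      A (q + (-d) • e) = 0 ∧ C (q + d • e) = 0 ∧
      IsConnected {x | A x ≤ 0} ∧ IsConnected {x | 0 ≤ A x} ∧
      IsConnected {x | C x ≤ 0} ∧ IsConnected {x | 0 ≤ C x} ∧
      LiftS {x | A x ≤ 0} ∧ LiftS {x | 0 ≤ A x} ∧ LiftS {x | C x ≤ 0} ∧ LiftS {x | 0 ≤ C x} ∧
      (IsBall A ∨ IsBall (fun x => -A x) → IsBall C ∨ IsBall (fun x => -C x) →
        IsBall f ∨ IsBall (fun x => -f x)) := by
  have he := h.he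
  obtain ⟨η, hηd⟩ : ∃ η : ℝ, η = d / 2 := ⟨_, rfl⟩
  obtain ⟨r, hr'⟩ : ∃ r : ℝ, r = (1 + R) / 2 := ⟨_, rfl⟩
  have hη : 0 < η := by rw [hηd]; linarith
  have hηd' : η < d := by rw [hηd]; linarith
  have hηζ : η < ζ := by linarith
  have hr : 1 < r := by rw [hr']; linarith [h.hR]
  have hrR : r < R := by rw [hr']; linarith [h.hR]
  have hcg : Good (fcutC f e q η r) := h.fcut_good hg hη hηζ hr hrR
  obtain ⟨A, C, hA, hC, hD, hAC, hmA, hpC, hAc, hCc, hNA, hNC, hl1, hl2⟩ :=
    h.flat_topN hn hg hη hηζ hr hrR hc hc' hl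
  have hA0 := hAc.nonempty
  have hC0 := hCc.nonempty
  have hCA : C ∪ A = {x | fcutC f e q η r x ≤ 0} := (Set.union_comm _ _).trans hAC
  obtain ⟨GA, a1, a2, a3, a4⟩ :=
    stopN_one h hf hg hd hdζ hη hηd' hr hrR hA hC hD hA0 hC0 hAC
  obtain ⟨GC, c1, c2, c3, c4⟩ :=
    stopN_one h hf hg hd hdζ hη hηd' hr hrR hC hA hD.symm hC0 hA0 hCA
  have hsA : {x | partF (fcutC f e q η r) A C x ≤ 0} = A := by
    ext x
    exact partF_le hA hC hD hA0 hC0 hAC x
  have hsC : {x | partF (fcutC f e q η r) C A x ≤ 0} = C := by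
    ext x
    exact partF_le hC hA hD.symm hC0 hA0 hCA x
  have hdim2 : 2 ≤ Module.finrank ℝ V := by omega
  have hdim3 : 3 ≤ Module.finrank ℝ V := by omega
  -- the half cylinders
  have hseg : ∀ a b : ℝ, -ζ < a → a ≤ b → b < ζ → (∀ s ∈ Icc a b, η ≤ |s|) →
      cylS e q a b ⊆ A ∪ C := by
    intro a b ha hab hb hs x hx
    obtain ⟨x1, x2, x3⟩ := hx
    rw [hAC]
    have h1 : |⟪e, x - q⟫| < ζ := by
      rw [abs_lt]
      constructor <;> linarith
    change max (f x) (lamC e q η r x) ≤ 0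
    have h2 : lamC e q η r x ≤ η - |⟪e, x - q⟫| := min_le_left _ _
    refine max_le ?_ (h2.trans ?_)
    · rw [h.hf x h1 (by linarith [h.hR])]
      have := norm_nonneg (orth e (x - q))
      nlinarith
    · have := hs ⟪e, x - q⟫ ⟨x1, x2⟩
      linarith
  have hside : ∀ {W : Set V}, IsPreconnected W → W ⊆ A ∪ C → W ⊆ A ∨ W ⊆ C := by
    intro W hW hs
    refine isPreconnected_iff_subset_of_disjoint_closed.1 hW A C hA hC hs ?_
    rw [hD.inter_eq, inter_empty]
  have hpm : q + (-d) • e ∈ A := by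
    have h1 : cylS e q (-d) (-η) ⊆ A ∪ C := by
      refine hseg _ _ (by linarith) (by linarith) (by linarith) ?_
      intro s hs
      rw [abs_of_nonpos (by linarith [hs.2])]
      linarith [hs.2]
    rcases hside (cylS_convex e q _ _).isPreconnected h1 with h2 | h2
    · exact h2 (cylS_mem he q le_rfl (by linarith))
    · exfalso
      have h3 : q + (-η) • e ∈ C := h2 (cylS_mem he q (by linarith) le_rfl)
      exact hD.le_bot ⟨hmA (cylS_mem he q le_rfl le_rfl), h3⟩
  have hpp : q + d • e ∈ C := by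
    have h1 : cylS e q η d ⊆ A ∪ C := by
      refine hseg _ _ (by linarith) (by linarith) (by linarith) ?_
      intro s hs
      rw [abs_of_nonneg (by linarith [hs.1])]
      linarith [hs.1]
    rcases hside (cylS_convex e q _ _).isPreconnected h1 with h2 | h2
    · exfalso
      have h3 : q + η • e ∈ A := h2 (cylS_mem he q le_rfl (by linarith))
      exact hD.le_bot ⟨h3, hpC (cylS_mem he q le_rfl le_rfl)⟩
    · exact h2 (cylS_mem he q (by linarith) le_rfl)
  -- zeros of the parts
  have hz : ∀ (G : V → ℝ) (S T : Set V), IsClosed T → S ∪ T = {x | fcutC f e q η r x ≤ 0} →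
      Disjoint S T → T.Nonempty → Continuous G →
      (∀ x, G x ≤ 0 ↔ x ∈ S ∧ scut f e q d R x ≤ 0) → Good (scut f e q d R) →
      ∀ x ∈ S, scut f e q d R x = 0 → G x = 0 := by
    intro G S T hT hST hdis hT0 hGc hle hsg x hxS hx0
    have h1 : G x ≤ 0 := (hle x).2 ⟨hxS, hx0.le⟩
    refine le_antisymm h1 ?_
    have h2 := hsg.zero_closure hx0
    have h3 : ∀ᶠ y in 𝓝 x, y ∉ T := by
      have h4 : x ∉ T := fun h5 => hdis.le_bot ⟨hxS, h5⟩
      exact hT.isOpen_compl.mem_nhds h4
    by_contra h4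
    have h5 : G x < 0 := not_le.1 h4
    have h6 : ∀ᶠ y in 𝓝 x, G y < 0 := hGc.continuousAt.eventually_lt_const h5
    rw [mem_closure_iff_frequently] at h2
    obtain ⟨y, hy1, hy2⟩ := (h2.and_eventually h6).exists
    have h7 := ((hle y).1 hy2.le).2
    have hy1' : 0 < scut f e q d R y := hy1
    linarith
  have hsg : Good (scut f e q d R) := by
    refine ⟨(scut_smooth hf e q d R).continuous, ?_, ?_⟩
    · have hbA := a2.good_right.bdd
      have hbC := c2.good_right.bdd
      obtain ⟨R0, hR0⟩ := hg.bdd.exists_norm_le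
      refine (Metric.isBounded_closedBall (x := (0 : V)) (r := max R0 (‖q‖ + (ζ + 1)))).subset ?_
      intro x hx
      rw [mem_closedBall_zero_iff]
      rcases h.scut_zero hd hdζ hx with ⟨-, h2, -⟩ | ⟨h1, h2, -⟩
      · exact (hR0 x h2).trans (le_max_left _ _)
      · refine le_trans ?_ (le_max_right _ _)
        have h3 : x = q + (⟪e, x - q⟫ • e + orth e (x - q)) := by
          unfold orth
          abel
        calc ‖x‖ = ‖q + (⟪e, x - q⟫ • e + orth e (x - q))‖ := by rw [← h3]
          _ ≤ ‖q‖ + (‖⟪e, x - q⟫ • e‖ + ‖orth e (x - q)‖) :=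
              (norm_add_le _ _).trans (add_le_add le_rfl (norm_add_le _ _))
          _ ≤ ‖q‖ + (ζ + 1) := by
              rw [norm_smul, he, mul_one, Real.norm_eq_abs]
              linarith
    · intro x hx
      have h1 : x ∈ A ∪ C := by
        rw [hAC]
        exact max_le ((scut_ge f e q d R x).trans hx.le) (h.scut_lam hd hηd' hηζ hrR hx.le).le
      rcases h.scut_zero hd hdζ hx with ⟨-, h2, h3⟩ | ⟨h4, h5, -⟩
      · obtain ⟨v, hv⟩ := hg.desc x h2
        exact ⟨v, hv.congr (h3.mono fun y hy => hy.symm)⟩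
      · refine ⟨_, h.scut_desc hd h4 h5 ?_⟩
        by_cases h6 : orth e (x - q) = 0
        · right
          have h7 := (h.scut_in (d := d) h4 h5).self_of_nhds
          rw [hx] at h7
          unfold scutM at h7
          rw [h6, norm_zero] at h7
          have h8 : wb d ⟪e, x - q⟫ = 1 := by linarith
          rcases wb_eq_one hd h8 with h9 | h9
          · rw [h9]
            exact ⟨hd.ne', by nlinarith⟩
          · rw [h9]
            exact ⟨neg_ne_zero.2 hd.ne', by nlinarith⟩
        · exact Or.inl h6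
  refine ⟨GA, GC, a1, c1, a4, c4, ?_, ?_, ?_, ?_, ?_, ?_, ?_, ?_, ?_, ?_, ?_, ?_, ?_⟩
  · intro x
    rw [a3, c3]
    constructor
    · intro h1
      have h2 : x ∈ A ∪ C := by
        rw [hAC]
        exact max_le ((scut_ge f e q d R x).trans h1) (h.scut_lam hd hηd' hηζ hrR h1).le
      rcases h2 with h2 | h2
      · exact Or.inl ⟨h2, h1⟩
      · exact Or.inr ⟨h2, h1⟩
    · rintro (h1 | h1)
      · exact h1.2
      · exact h1.2
  · intro x hx
    by_contra h1
    exact hD.le_bot ⟨((a3 x).1 hx).1, ((c3 x).1 (not_lt.1 h1)).1⟩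
  · exact hz GA A C hC hAC hD hC0 a1.continuous a3 hsg _ hpm
      (h.scut_pole hd hdζ (Or.inr rfl))
  · exact hz GC C A hA hCA hD.symm hA0 c1.continuous c3 hsg _ hpp
      (h.scut_pole hd hdζ (Or.inl rfl))
  · exact a2.nonpos_conn hdim2 (by rw [hsA]; exact hAc)
  · exact a2.nonneg_conn hdim2 hNA
  · exact c2.nonpos_conn hdim2 (by rw [hsC]; exact hCc)
  · exact c2.nonneg_conn hdim2 hNC
  · exact a2.nonpos_lift hdim3 (by rw [hsA]; exact (hl1 hl).1)
  · exact a2.nonneg_lift hdim3 (hl2 hl').1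
  · exact c2.nonpos_lift hdim3 (by rw [hsC]; exact (hl1 hl).2)
  · exact c2.nonneg_lift hdim3 (hl2 hl').2
  · intro hRA hRC
    -- from the parts to the function
    have step : ∀ {k m : V → ℝ}, Hom k m → IsBall m ∨ IsBall (fun x => -m x) →
        IsBall k ∨ IsBall (fun x => -k x) := by
      intro k m hkm hm
      rcases hm with hm | hm
      · exact Or.inl (hkm.trans hm)
      · exact Or.inr (hkm.neg.trans hm)
    rcases hRA with hRA | hRA
    · have h1 : IsBall (partF (fcutC f e q η r) A C) := a2.trans hRA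
      have h2 := h.flat_glue hg hη hηζ hr hrR hA hC hD hAC hmA hpC h1
      exact step (h2.trans c2) hRC
    rcases hRC with hRC | hRC
    · have h1 : IsBall (partF (fcutC f e q η r) C A) := c2.trans hRC
      have h2 := h.flat_glue' hg hη hηζ hr hrR hA hC hD hAC hmA hpC h1
      exact step (h2.trans a2) (Or.inr hRA)
    · exfalso
      have hbb : ∀ k : V → ℝ, IsBall (fun x => -k x) → Bornology.IsBounded {x | 0 ≤ k x} := by
        intro k hk
        have h1 : Bornology.IsBounded {x : V | ‖x‖ ^ 2 - 1 ≤ 0} := by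
          refine (Metric.isBounded_closedBall (x := (0 : V)) (r := 1)).subset fun x hx => ?_
          rw [mem_closedBall_zero_iff]
          have hx' : ‖x‖ ^ 2 - 1 ≤ 0 := hx
          have := norm_nonneg x
          nlinarith
        have h2 := Hom.bdd (Hom.symm hk) h1
        refine h2.subset fun x hx => ?_
        have hx' : 0 ≤ k x := hx
        change -k x ≤ 0
        linarith
      have h1 := (hbb GA hRA).union (hbb GC hRC)
      have h2 : {x | 0 ≤ GA x} ∪ {x | 0 ≤ GC x} = univ := by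
        refine eq_univ_of_forall fun x => ?_
        by_cases h3 : 0 ≤ GA x
        · exact Or.inl h3
        · right
          have h4 : GA x ≤ 0 := (not_le.1 h3).le
          change 0 ≤ GC x
          by_contra h5
          exact hD.le_bot ⟨((a3 x).1 h4).1, ((c3 x).1 (not_le.1 h5).le).1⟩
      rw [h2] at h1
      have hnt : Nontrivial V := Module.nontrivial_of_finrank_pos (R := ℝ) (by omega)
      obtain ⟨R0, hR0⟩ := h1.exists_norm_le
      obtain ⟨w, hw⟩ := exists_norm_eq V (show (0 : ℝ) ≤ max R0 0 + 1 by positivity)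
      have h3 := hR0 w (mem_univ w)
      rw [hw] at h3
      linarith [le_max_left R0 0]

end Pool.Schoen
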