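import Pool.Agent.H.MP_6c077c_gt.F2.K2
import Pool.Agent.H.MP_6c077c_gt.F2.StopN
import Pool.Agent.H.MP_6c077c_gt.F2.SliceP
import Pool.Agent.H.MP_6c077c_gt.F2.BaseN
import Pool.Agent.H.MP_6c077c_gt.Al.PieceC
import Pool.Agent.H.MP_6c077c_gt.Al.StepN

/-! Level cuts in dimension four: the pieces of the cut are in the class. -/

set_option autoImplicit false

namespace Pool.Schoen

open Filter Set
open scoped Topology RealInnerProductSpace ContDiff

variable {V : Type*} [NormedAddCommGroup V] [InnerProductSpace ℝ V] [FiniteDimensional ℝ V]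
variable {f : V → ℝ} {e : V} {c ζ R d : ℝ} {S : Finset V} {A C : V → ℝ}

/-- The piece of a cut is in the class, with fewer markers. -/
theorem k2_piece (hn : 4 ≤ Module.finrank ℝ V) (h : K2 f e c S) {s : ℝ} (hs : s = 1 ∨ s = -1)
    (hcy : CylN (fun x => s * f x) e (c • e) ζ R) (hd : 0 < d) (hdζ : 2 * d ≤ ζ)
    (hA : ContDiff ℝ ∞ A) (hC : Continuous C)
    (hAs : ∀ x, A x = 0 → A =ᶠ[𝓝 x] scut (fun x => s * f x) e (c • e) d R)
    (hun : ∀ x, scut (fun x => s * f x) e (c • e) d R x ≤ 0 ↔ A x ≤ 0 ∨ C x ≤ 0)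
    (hdis : ∀ x, A x ≤ 0 → 0 < C x) (hcA : IsConnected {x | A x ≤ 0})
    (hcA' : IsConnected {x | 0 ≤ A x}) (hlA : LiftS {x | A x = 0}) :
    ∃ S' : Finset V, S'.card < S.card ∧ K2 (fun x => s * A x) e c S' := by
  classical
  have he := hcy.he
  have hR := hcy.hR
  have hss : s * s = 1 := by rcases hs with rfl | rfl <;> norm_num
  have hs0 : s ≠ 0 := by rcases hs with rfl | rfl <;> norm_num
  have hfs : ContDiff ℝ ∞ fun x => s * f x := contDiff_const.mul h.mo.smooth
  have hgr : ∀ {g : V → ℝ} (_ : ContDiff ℝ ∞ g) (x : V),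
      gradient (fun y => s * g y) x = s • gradient g x := by
    intro g hg x
    unfold gradient
    rw [fderiv_const_mul ((hg.differentiable (by simp)) x), map_smul]
  have hfreg : ∀ x, s * f x = 0 → gradient (fun y => s * f y) x ≠ 0 := by
    intro x hx
    rw [hgr h.mo.smooth]
    exact smul_ne_zero hs0 (h.mo.reg x ((mul_eq_zero.1 hx).resolve_left hs0))
  have hz : ∀ x, A x = 0 → scut (fun x => s * f x) e (c • e) d R x = 0 := fun x hx => by
    rw [← (hAs x hx).self_of_nhds, hx]
  have hGz : ∀ x, s * A x = 0 ↔ A x = 0 := fun x => by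
    rw [mul_eq_zero]
    exact or_iff_right hs0
  have hcrA : ∀ x, Crit (fun y => s * A y) e x → Crit A e x := by
    intro x hx
    rcases hs with rfl | rfl
    · simpa using hx
    · have h1 : (fun y => (-1 : ℝ) * A y) = fun y => -A y := by
        funext y
        ring
      rw [h1] at hx
      exact crit_neg.1 hx
  have hce : ⟪e, c • e⟫ = c := by
    rw [real_inner_smul_right, real_inner_self_eq_norm_sq, he]
    ring
  -- the critical zeros
  have hcr : ∀ x, Crit (fun y => s * A y) e x →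
      (Crit f e x ∧ (fun y => s * A y) =ᶠ[𝓝 x] f) ∨
        (⟪e, x⟫ ≠ c ∧ ∃ k, k ≠ 2 ∧ Idx (fun y => s * A y) e x k) := by
    intro x hx
    have h1 := hcrA x hx
    have h2 := hAs x h1.1
    rcases hcy.scut_crit hd hdζ hfreg (h1.congr h2) with ⟨h3, h4⟩ | ⟨h3, h4⟩
    · left
      have h5 : (fun y => s * A y) =ᶠ[𝓝 x] f := by
        filter_upwards [h2, h4] with y hy1 hy2
        rw [hy1, hy2, ← mul_assoc, hss, one_mul]
      exact ⟨hx.congr h5, h5⟩
    · right
      refine ⟨?_, ?_⟩
      · rw [hce] at h3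
        rcases h3 with h3 | h3 <;> rw [h3] <;> linarith
      · have h5 : Idx A e x 0 := h4.congr' h2.symm
        rcases hs with rfl | rfl
        · refine ⟨0, by norm_num, ?_⟩
          simpa using h5
        · obtain ⟨j, hj, h6⟩ := BaseN_idx_neg hA he h5
          refine ⟨j, by omega, ?_⟩
          have h7 : (fun y => (-1 : ℝ) * A y) = fun y => -A y := by
            funext y
            ring
          rw [h7]
          exact h6
  have hmo : Mo (fun y => s * A y) e := by
    refine ⟨contDiff_const.mul hA, ?_, ?_, ?_⟩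
    · refine (h.mo.bdd.union (cylS_compact he (c • e) (-ζ) ζ).isBounded).subset ?_
      intro x hx
      rcases hcy.scut_zero hd hdζ (hz x ((hGz x).1 hx)) with ⟨-, h2, -⟩ | ⟨h1, h2, -⟩
      · exact Or.inl ((mul_eq_zero.1 h2).resolve_left hs0)
      · have h3 := abs_lt.1 h1
        exact Or.inr ⟨h3.1.le, h3.2.le, h2⟩
    · intro x hx
      have hx' := (hGz x).1 hx
      rw [hgr hA]
      refine smul_ne_zero hs0 ?_
      have h1 : gradient A x = gradient (scut (fun x => s * f x) e (c • e) d R) x := by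
        unfold gradient
        rw [(hAs x hx').fderiv_eq]
      rw [h1]
      exact hcy.scut_reg hd hdζ hfreg x (hz x hx')
    · intro x hx
      rcases hcr x hx with ⟨h1, h2⟩ | ⟨-, k, -, h2⟩
      · obtain ⟨k, hk⟩ := h.mo.nd x h1
        exact ⟨k, hk.congr' h2.symm⟩
      · exact ⟨k, h2⟩
  have hcc : ∀ w : (ℝ ∙ e)ᗮ, ⟪e, (w : V) + c • e⟫ = c := fun w => (slice_coords he c w).2.2
  refine ⟨S.filter fun x => s * A x = 0, ?_, hmo, ?_, ?_, ?_, ?_, ?_, ?_, ?_, ?_⟩
  · -- the lost marker
    have hcont1 : Continuous fun x : V => ⟪e, x - c • e⟫ := by fun_prop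
    have hcont2 : Continuous fun x : V => ‖orth e (x - c • e)‖ := by
      unfold orth
      fun_prop
    refine h.mark.card_lt (mem_singleton c) (K := rimS e (c • e) 0) ?_ ?_ ?_ ?_ ?_
    · have hr := cap_rank he
      have : Nontrivial (ℝ ∙ e)ᗮ := Module.nontrivial_of_finrank_pos (R := ℝ) (by omega)
      obtain ⟨u, hu⟩ := exists_norm_eq (ℝ ∙ e)ᗮ zero_le_one
      obtain ⟨e1, e2, -⟩ := slice_coords he c u
      exact ⟨(u : V) + c • e, e1, by rw [e2]; exact hu⟩
    · exact (isClosed_eq hcont1 continuous_const).inter (isClosed_eq hcont2 continuous_const)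
    · rintro x ⟨h1, h2⟩
      refine ⟨?_, ?_⟩
      · have h3 := hcy.hf x (by rw [h1, abs_zero]; exact hcy.hζ) (by rw [h2]; exact hR)
        rw [h2] at h3
        have h4 : s * f x = 0 := by
          rw [h3]
          norm_num
        exact (mul_eq_zero.1 h4).resolve_left hs0
      · rw [inner_sub_right, hce] at h1
        linarith
    · refine ⟨{x | |⟪e, x - c • e⟫| < ζ} ∩ {x | ‖orth e (x - c • e)‖ < R},
        (isOpen_lt hcont1.abs continuous_const).inter (isOpen_lt hcont2 continuous_const), ?_, ?_⟩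
      · rintro x ⟨h1, h2⟩
        refine ⟨?_, ?_⟩
        · show |⟪e, x - c • e⟫| < ζ
          rw [h1, abs_zero]
          exact hcy.hζ
        · show ‖orth e (x - c • e)‖ < R
          rw [h2]
          exact hR
      · rintro x ⟨h1, h2⟩ h3 h4
        refine ⟨?_, ?_⟩
        · rw [inner_sub_right, h4, hce, sub_self]
        · have h5 := hcy.hf x h1 h2
          rw [h3, mul_zero] at h5
          have h6 := norm_nonneg (orth e (x - c • e))
          nlinarith
    · rintro x ⟨h1, h2⟩ h3
      have h4 := hcy.scut_mid (d := d) h1 (by rw [h2]; exact hR)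
      have h5 := hz x ((hGz x).1 h3)
      linarith
  · intro x hx
    rcases hcr x hx with ⟨h1, -⟩ | ⟨h1, -⟩
    · exact h.reg x h1
    · exact h1
  · rcases hs with rfl | rfl
    · simpa using hcA
    · have h1 : {x | (-1 : ℝ) * A x ≤ 0} = {x | 0 ≤ A x} := by
        ext x
        show (-1 : ℝ) * A x ≤ 0 ↔ 0 ≤ A x
        constructor <;> intro h2 <;> linarith
      rw [h1]
      exact hcA'
  · rcases hs with rfl | rfl
    · simpa using hcA'
    · have h1 : {x | 0 ≤ (-1 : ℝ) * A x} = {x | A x ≤ 0} := by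
        ext x
        show 0 ≤ (-1 : ℝ) * A x ↔ A x ≤ 0
        constructor <;> intro h2 <;> linarith
      rw [h1]
      exact hcA
  · have h1 : {x | s * A x = 0} = {x | A x = 0} := by
      ext x
      exact hGz x
    rw [h1]
    exact hlA
  · -- the slice
    rcases hs with rfl | rfl
    · have h1 := hcy.slice_neg hd hdζ hA.continuous hC hun hdis (by
        have h2 := h.sl
        simpa using h2)
      simpa using h1
    · have h1 := hcy.slice_pos hfs hfreg hd hdζ hA.continuous hC hAs hun hdis (by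
        have h2 := h.sl
        have h3 : {w : (ℝ ∙ e)ᗮ | 0 ≤ (-1 : ℝ) * f ((w : V) + c • e)} =
            {w : (ℝ ∙ e)ᗮ | f ((w : V) + c • e) ≤ 0} := by
          ext w
          show 0 ≤ (-1 : ℝ) * f ((w : V) + c • e) ↔ f ((w : V) + c • e) ≤ 0
          constructor <;> intro h4 <;> linarith
        rw [h3]
        exact h2)
      have h3 : {w : (ℝ ∙ e)ᗮ | (-1 : ℝ) * A ((w : V) + c • e) ≤ 0} =
          {w : (ℝ ∙ e)ᗮ | 0 ≤ A ((w : V) + c • e)} := by
        ext w
        show (-1 : ℝ) * A ((w : V) + c • e) ≤ 0 ↔ 0 ≤ A ((w : V) + c • e)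
        constructor <;> intro h4 <;> linarith
      rw [h3]
      exact h1
  · intro x hx hi
    rcases hcr x (hx.crit he) with ⟨-, h2⟩ | ⟨-, k, hk, h2⟩
    · exact h.up x (hx.congr' h2) (hi.congr' h2)
    · exact absurd (Cy.Idx.unique h2 hi) hk
  · intro x hx hi
    rcases hcr x (hx.crit_neg he) with ⟨-, h2⟩ | ⟨-, k, hk, h2⟩
    · exact h.dn x (hx.congr' h2) (hi.congr' h2)
    · exact absurd (Cy.Idx.unique h2 hi) hk
  · -- markers
    refine h.mark.part fun x hxL hx => ?_
    have hxc : ⟪e, x⟫ = c := hxL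
    have hx' := (hGz x).1 hx
    obtain ⟨h1, h2⟩ := hcy.scut_level hd hdζ (fun h4 => absurd (hxc.trans hce.symm) h4) (hz x hx')
    have h3 : A =ᶠ[𝓝 x] fun y => s * f y := (hAs x hx').trans h2
    obtain ⟨O, hO1, hO2, hO3⟩ := mem_nhds_iff.1 h3
    refine ⟨O, hO2, hO3, fun y hy _ => ?_⟩
    have h4 : A y = s * f y := hO1 hy
    rw [hGz, h4, mul_eq_zero]
    exact or_iff_right hs0

/-- The cut: two pieces in the class with fewer markers; if both are round, so is the function. -/
theorem k2_pieces (hV : Module.finrank ℝ V = 4) (h : K2 f e c S) {s : ℝ} (hs : s = 1 ∨ s = -1)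
    (hcy : CylN (fun x => s * f x) e (c • e) ζ R) :
    ∃ (gA gC : V → ℝ) (SA SC : Finset V), SA.card < S.card ∧ SC.card < S.card ∧
      K2 gA e c SA ∧ K2 gC e c SC ∧ (Rd gA → Rd gC → Rd f) := by
  have hn4 : 4 ≤ Module.finrank ℝ V := hV.ge
  have hs0 : s ≠ 0 := by rcases hs with rfl | rfl <;> norm_num
  have hfs : ContDiff ℝ ∞ fun x => s * f x := contDiff_const.mul h.mo.smooth
  have hd : 0 < ζ / 2 := by have := hcy.hζ; positivity
  have hdζ : 2 * (ζ / 2) ≤ ζ := by linarith
  -- the two signs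
  have hRs : ∀ g : V → ℝ, Rd (fun x => s * g x) ↔ Rd g := by
    intro g
    rcases hs with rfl | rfl
    · simp
    · have h1 : (fun y => (-1 : ℝ) * g y) = fun y => -g y := by
        funext y
        ring
      rw [h1]
      constructor
      · intro h2
        have h3 := h2.neg
        simpa using h3
      · exact fun h2 => h2.neg
  have hc0 : IsConnected {x | s * f x ≤ 0} ∧ IsConnected {x | 0 ≤ s * f x} ∧
      LiftS {x | s * f x ≤ 0} ∧ LiftS {x | 0 ≤ s * f x} := by
    obtain ⟨l1, l2⟩ := h.lift_sides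
    rcases hs with rfl | rfl
    · simp only [one_mul]
      exact ⟨h.conn, h.out, l1, l2⟩
    · have h1 : {x | (-1 : ℝ) * f x ≤ 0} = {x | 0 ≤ f x} := by
        ext x
        show (-1 : ℝ) * f x ≤ 0 ↔ 0 ≤ f x
        constructor <;> intro h2 <;> linarith
      have h2 : {x | 0 ≤ (-1 : ℝ) * f x} = {x | f x ≤ 0} := by
        ext x
        show 0 ≤ (-1 : ℝ) * f x ↔ f x ≤ 0
        constructor <;> intro h2 <;> linarith
      rw [h1, h2]
      exact ⟨h.out, h.conn, l2, l1⟩
  obtain ⟨c1, c2, l1, l2⟩ := hc0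
  have hfreg : ∀ x, s * f x = 0 → gradient (fun y => s * f y) x ≠ 0 := by
    intro x hx
    have hgr : gradient (fun y => s * f y) x = s • gradient f x := by
      unfold gradient
      rw [fderiv_const_mul ((h.mo.smooth.differentiable (by simp)) x), map_smul]
    rw [hgr]
    exact smul_ne_zero hs0 (h.mo.reg x ((mul_eq_zero.1 hx).resolve_left hs0))
  have hzs : {x | s * f x = 0} = {x | f x = 0} := by
    ext x
    show s * f x = 0 ↔ f x = 0
    rw [mul_eq_zero]
    exact or_iff_right hs0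
  have hg : Good fun x => s * f x := by
    refine good_of_regular hfs (by rw [hzs]; exact h.mo.bdd) fun x hx h1 => hfreg x hx ?_
    rw [gradient, h1, map_zero]
  obtain ⟨A, C, hA, hC, hAs, hCs, hun, hdis, hpA, hpC, a1, a2, b1, b2, -, -, -, -, hR⟩ :=
    hcy.stopN (by omega) hfs hg c1 c2 l1 l2 hd hdζ
  have hlz : LiftS {x | s * f x = 0} := by
    rw [hzs]
    exact h.lift
  have lA : LiftS {x | A x = 0} := hcy.zero_lift hn4 hfs hfreg hlz hd hdζ hA.continuous
    hC.continuous hAs hCs hun hdis hpA hpC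
  have lC : LiftS {x | C x = 0} := hcy.zero_lift' hn4 hfs hfreg hlz hd hdζ hA.continuous
    hC.continuous hAs hCs hun hdis hpA hpC
  have hun' : ∀ x, scut (fun x => s * f x) e (c • e) (ζ / 2) R x ≤ 0 ↔ C x ≤ 0 ∨ A x ≤ 0 :=
    fun x => (hun x).trans or_comm
  have hdis' : ∀ x, C x ≤ 0 → 0 < A x := by
    intro x hx
    by_contra h1
    exact absurd (hdis x (not_lt.1 h1)) (not_lt.2 hx)
  obtain ⟨SA, hSA, kA⟩ := k2_piece hn4 h hs hcy hd hdζ hA hC.continuous hAs hun hdis a1 a2 lA
  obtain ⟨SC, hSC, kC⟩ := k2_piece hn4 h hs hcy hd hdζ hC hA.continuous hCs hun' hdis' b1 b2 lC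
  refine ⟨_, _, SA, SC, hSA, hSC, kA, kC, fun r1 r2 => ?_⟩
  exact (hRs f).1 (hR ((hRs A).1 r1) ((hRs C).1 r2))

end Pool.Schoen
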