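import Pool.Agent.H.MP_6c077c_gt.F2.StepM
import Pool.Agent.H.MP_6c077c_gt.F2.BaseN
import Pool.Agent.H.MP_6c077c_gt.Al.InnS
import Pool.Agent.H.MP_6c077c_gt.F2.StartK
import Pool.Agent.H.MP_6c077c_gt.F2.LeafB
import Pool.Agent.H.MP_6c077c_gt.F2.StepP

/-! Level cuts in dimension four: the induction. -/

set_option autoImplicit false

namespace Pool.Schoen

open Filter Set
open scoped Topology RealInnerProductSpace ContDiff

variable {V : Type*} [NormedAddCommGroup V] [InnerProductSpace ℝ V] [FiniteDimensional ℝ V]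

/-- Induction on the number of markers. -/
theorem k2_rd (hV : Module.finrank ℝ V = 4) {e : V} (he : ‖e‖ = 1) (c : ℝ) :
    ∀ (n : ℕ) (S : Finset V) (f : V → ℝ), S.card = n → K2 f e c S → Rd f := by
  have he0 : e ≠ 0 := by
    intro h0
    rw [h0, norm_zero] at he
    exact zero_ne_one he
  have : Fact (Module.finrank ℝ V = 3 + 1) := ⟨hV⟩
  have hfr : Module.finrank ℝ (ℝ ∙ e)ᗮ = 3 := Submodule.finrank_orthogonal_span_singleton he0
  intro n
  induction n using Nat.strong_induction_on with
  | _ n ih =>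
    intro S f hn h
    by_cases hne : ∃ x, f x = 0 ∧ ⟪e, x⟫ = c
    · obtain ⟨x, hx, hxc⟩ := hne
      obtain ⟨h1, h2, h3⟩ := slice_reg he h.mo h.reg
      obtain ⟨s, hs, k, hk, hkb, hk1, hk2, -, -⟩ := leaf_ball hfr h1 h2 h3 (by
        refine ⟨hpr e x, ?_⟩
        have h4 : (hpr e x : V) + c • e = x := by
          rw [← hxc]
          exact hpr_add he x
        rw [h4, hx]) h.sl
      obtain ⟨G, ζ, R, S', hR, hS', hG, hcy⟩ := step_m he h hs hk hkb hk1 hk2
      obtain ⟨gA, gC, SA, SC, hSA, hSC, hA, hC, hRR⟩ := k2_pieces hV hG hs hcy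
      exact hR (hRR (ih SA.card (by omega) SA gA rfl hA) (ih SC.card (by omega) SC gC rfl hC))
    · push Not at hne
      exact f2_base hV he h.mo h.conn h.out h.lift hne h.up h.dn

/-- **Level cuts.** A hypersurface of four-dimensional space, connected and with the lifting property,
bounds a ball if for one regular direction `e` there is a regular level `c` such that all points
with normal `-e` and exactly two negative curvatures are below the level and all points with
normal `e` and exactly two negative curvatures are above it. -/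
theorem f2_dir (hV : Module.finrank ℝ V = 4) {f : V → ℝ} (hf : ContDiff ℝ ∞ f)
    (hb : Bornology.IsBounded {x | f x = 0}) (hreg : ∀ x, f x = 0 → gradient f x ≠ 0)
    (hMc : IsConnected {x | f x = 0}) (hMl : LiftS {x | f x = 0}) {e : V} (he : ‖e‖ = 1)
    {c : ℝ} (hnd : ∀ x, Crit f e x → ∃ k, Idx f e x k) (hlev : ∀ x, Crit f e x → ⟪e, x⟫ ≠ c)
    (hlo : ∀ x, Inward f e x → Idx f e x 2 → ⟪e, x⟫ < c)
    (hhi : ∀ x, Inward f (-e) x → Idx f e x 2 → c < ⟪e, x⟫) : Rd f := by
  obtain ⟨S, hS⟩ := k2_start hf hb hreg hMc hMl he hnd hlev hlo hhi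
  exact k2_rd hV he c _ S f rfl hS

end Pool.Schoen
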