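import Pool.Agent.H.MP_6c077c_gt.F2.Defs
import Pool.Agent.H.MP_6c077c_gt.Gd.Par
import Pool.Agent.H.MP_6c077c_gt.Gd.Outer

/-! Theorem F2: parallel hypersurfaces on both sides; signs of the principal curvatures. -/

set_option autoImplicit false

namespace Pool.Schoen

open Filter Set Metric
open scoped RealInnerProductSpace ContDiff Topology

variable {V : Type*} [NormedAddCommGroup V] [InnerProductSpace ℝ V] [FiniteDimensional ℝ V]

private theorem ParB_grad (F : V → ℝ) (x a : V) : fderiv ℝ F x a = ⟪gradient F x, a⟫ :=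
  (InnerProductSpace.toDual_symm_apply (𝕜 := ℝ)).symm

private theorem ParB_gradient_contDiff (f : V → ℝ) (hf : ContDiff ℝ ∞ f) :
    ContDiff ℝ ∞ (gradient f) := by
  have h1 : ContDiff ℝ ∞ (fderiv ℝ f) := hf.fderiv_right (by simp)
  have h2 : gradient f = fun x => (InnerProductSpace.toDual ℝ V).symm (fderiv ℝ f x) := rfl
  rw [h2]
  exact (InnerProductSpace.toDual ℝ V).symm.contDiff.comp h1

/-- First and second order comparison of `F'` and `F` when `F' (x + δ X x) = F x` and `X` is the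
unit normal near `x`. -/
private theorem ParB_second {F F' : V → ℝ} (hF : ContDiff ℝ ∞ F) (hF' : ContDiff ℝ ∞ F')
    {X φ : V → V} (hX : ContDiff ℝ ∞ X) (hφ : ContDiff ℝ ∞ φ) {δ : ℝ} (hδ : 0 < δ)
    (h1 : ∀ x, φ (x + δ • X x) = x) (h2 : ∀ y, φ y + δ • X (φ y) = y)
    (h3 : ∀ y, F' y = F (φ y)) {x : V} (hg : gradient F x ≠ 0) (hXn : X =ᶠ[𝓝 x] nrm F)
    {C : ℝ} (hC : ‖fderiv ℝ X x‖ ≤ C) (hδC : δ * C ≤ 1) :
    gradient F' (x + δ • X x) = gradient F x ∧
    ((∃ v, ⟪v, nrm F x⟫ = 0 ∧ 0 < fderiv ℝ (fderiv ℝ F') (x + δ • X x) v v) →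
      ∃ w, ⟪w, nrm F x⟫ = 0 ∧ 0 < fderiv ℝ (fderiv ℝ F) x w w) ∧
    ∀ N' : Submodule ℝ V, (∀ a ∈ N', ⟪a, nrm F x⟫ = 0) →
      (∀ a ∈ N', a ≠ 0 → fderiv ℝ (fderiv ℝ F') (x + δ • X x) a a < 0) →
      ∃ N'' : Submodule ℝ V, Module.finrank ℝ N'' = Module.finrank ℝ N' ∧
        (∀ a ∈ N'', ⟪a, nrm F x⟫ = 0) ∧ ∀ a ∈ N'', a ≠ 0 → fderiv ℝ (fderiv ℝ F) x a a < 0 := by
  obtain ⟨y, hy⟩ : ∃ y, y = x + δ • X x := ⟨_, rfl⟩
  rw [← hy]
  have hXd : ∀ z, HasFDerivAt X (fderiv ℝ X z) z := fun z =>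
    (hX.differentiable (by simp) z).hasFDerivAt
  have hX2 : ContDiff ℝ ∞ (fderiv ℝ X) := hX.fderiv_right (by simp)
  have hFd2 : ContDiff ℝ ∞ (fderiv ℝ F) := hF.fderiv_right (by simp)
  have hFd2' : ContDiff ℝ ∞ (fderiv ℝ F') := hF'.fderiv_right (by simp)
  have hline : ∀ (w : V) (t : ℝ), HasDerivAt (fun t : ℝ => x + t • w) w t := fun w t => by
    simpa using ((hasDerivAt_id t).smul_const w).const_add x
  -- along a line
  have hc : ∀ (w : V) (t : ℝ), HasDerivAt (fun t : ℝ => X (x + t • w))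
      (fderiv ℝ X (x + t • w) w) t := fun w t => (hXd _).comp_hasDerivAt t (hline w t)
  have hc2 : ∀ w : V, HasDerivAt (fun t : ℝ => fderiv ℝ X (x + t • w) w)
      (fderiv ℝ (fderiv ℝ X) x w w) 0 := fun w => by
    have e1 : HasFDerivAt (fderiv ℝ X) (fderiv ℝ (fderiv ℝ X) x) (x + (0 : ℝ) • w) := by
      rw [zero_smul, add_zero]
      exact (hX2.differentiable (by simp) x).hasFDerivAt
    have e2 := e1.comp_hasDerivAt (0 : ℝ) (hline w 0)
    have e3 := e2.clm_apply (hasDerivAt_const (0 : ℝ) w)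
    simpa using e3
  have hγ : ∀ (w : V) (t : ℝ), HasDerivAt (fun t : ℝ => x + t • w + δ • X (x + t • w))
      (w + δ • fderiv ℝ X (x + t • w) w) t := fun w t => (hline w t).add ((hc w t).const_smul δ)
  have hγ2 : ∀ w : V, HasDerivAt (fun t : ℝ => w + δ • fderiv ℝ X (x + t • w) w)
      (δ • fderiv ℝ (fderiv ℝ X) x w w) 0 := fun w => ((hc2 w).const_smul δ).const_add w
  have hid : ∀ (w : V) (t : ℝ), F' (x + t • w + δ • X (x + t • w)) = F (x + t • w) :=
    fun w t => by rw [h3, h1]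
  have hfirst : ∀ (w : V) (t : ℝ),
      fderiv ℝ F' (x + t • w + δ • X (x + t • w)) (w + δ • fderiv ℝ X (x + t • w) w) =
        fderiv ℝ F (x + t • w) w := by
    intro w t
    have e1 := ((hF'.differentiable (by simp) _).hasFDerivAt).comp_hasDerivAt t (hγ w t)
    have e2 := ((hF.differentiable (by simp) _).hasFDerivAt).comp_hasDerivAt t (hline w t)
    have e3 : (F' ∘ fun t : ℝ => x + t • w + δ • X (x + t • w)) = F ∘ fun t : ℝ => x + t • w :=
      funext fun t => hid w t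
    rw [e3] at e1
    exact e1.unique e2
  have hsecond : ∀ w : V, fderiv ℝ (fderiv ℝ F') y (w + δ • fderiv ℝ X x w)
      (w + δ • fderiv ℝ X x w) + fderiv ℝ F' y (δ • fderiv ℝ (fderiv ℝ X) x w w) =
        fderiv ℝ (fderiv ℝ F) x w w := by
    intro w
    have e0 : y = x + (0 : ℝ) • w + δ • X (x + (0 : ℝ) • w) := by
      rw [zero_smul, add_zero, ← hy]
    have e1 : HasDerivAt (fun t : ℝ => fderiv ℝ F' (x + t • w + δ • X (x + t • w)))
        (fderiv ℝ (fderiv ℝ F') y (w + δ • fderiv ℝ X (x + (0 : ℝ) • w) w)) 0 :=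
      ((hFd2'.differentiable (by simp) y).hasFDerivAt).comp_hasDerivAt_of_eq (0 : ℝ) (hγ w 0) e0
    have e2 := e1.clm_apply (hγ2 w)
    have e3 : HasDerivAt (fun t : ℝ => fderiv ℝ F (x + t • w))
        (fderiv ℝ (fderiv ℝ F) x w) 0 :=
      ((hFd2.differentiable (by simp) x).hasFDerivAt).comp_hasDerivAt_of_eq (0 : ℝ) (hline w 0)
        (by rw [zero_smul, add_zero])
    have e4 := e3.clm_apply (hasDerivAt_const (0 : ℝ) w)
    have e5 : (fun t : ℝ => fderiv ℝ F' (x + t • w + δ • X (x + t • w))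
        (w + δ • fderiv ℝ X (x + t • w) w)) = fun t : ℝ => fderiv ℝ F (x + t • w) w :=
      funext fun t => hfirst w t
    rw [e5] at e2
    have e7 := e2.unique e4
    rw [zero_smul, add_zero, ← hy, map_zero, add_zero] at e7
    exact e7
  -- the unit normal
  obtain ⟨N, hN⟩ : ∃ N, N = nrm F x := ⟨_, rfl⟩
  have hXx : X x = N := by rw [hN]; exact hXn.self_of_nhds
  have hgn : 0 < ‖gradient F x‖ := norm_pos_iff.2 hg
  have hgN : gradient F x = ‖gradient F x‖ • N := by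
    rw [hN, nrm, smul_smul, mul_inv_cancel₀ hgn.ne', one_smul]
  have hunit : ∀ᶠ z in 𝓝 x, ⟪X z, X z⟫ = 1 := by
    have hgc : ContinuousAt (gradient F) x := (ParB_gradient_contDiff F hF).continuous.continuousAt
    filter_upwards [hXn, hgc.eventually_ne hg] with z hz hz'
    have : ‖gradient F z‖ ≠ 0 := norm_ne_zero_iff.2 hz'
    rw [hz, nrm, real_inner_smul_left, real_inner_smul_right, real_inner_self_eq_norm_sq]
    field_simp
  have horth : ∀ᶠ z in 𝓝 x, ∀ w, ⟪X z, fderiv ℝ X z w⟫ = 0 := by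
    filter_upwards [hunit.eventually_nhds] with z hz w
    have e1 := (hXd z).inner ℝ (hXd z)
    have e2 : HasFDerivAt (fun z => ⟪X z, X z⟫) (0 : V →L[ℝ] ℝ) z :=
      (hasFDerivAt_const (1 : ℝ) z).congr_of_eventuallyEq hz
    have e3 := congrArg (fun L : V →L[ℝ] ℝ => L w) (e1.unique e2)
    simp only [ContinuousLinearMap.comp_apply, ContinuousLinearMap.prod_apply,
      fderivInnerCLM_apply, zero_apply] at e3
    rw [real_inner_comm (X z) (fderiv ℝ X z w)] at e3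
    linarith
  have horth0 : ∀ w, ⟪N, fderiv ℝ X x w⟫ = 0 := fun w => by
    rw [← hXx]
    exact horth.self_of_nhds w
  have horth2 : ∀ w, ⟪N, fderiv ℝ (fderiv ℝ X) x w w⟫ = -‖fderiv ℝ X x w‖ ^ 2 := by
    intro w
    have e1 : HasDerivAt (fun t : ℝ => ⟪X (x + t • w), fderiv ℝ X (x + t • w) w⟫) 0 0 := by
      have e2 : Tendsto (fun t : ℝ => x + t • w) (𝓝 0) (𝓝 x) := by
        have := (hline w 0).continuousAt.tendsto
        simpa using this
      have e3 : (fun t : ℝ => ⟪X (x + t • w), fderiv ℝ X (x + t • w) w⟫) =ᶠ[𝓝 0]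
          fun _ => (0 : ℝ) := by
        filter_upwards [e2.eventually horth] with t ht
        exact ht w
      exact (hasDerivAt_const (0 : ℝ) (0 : ℝ)).congr_of_eventuallyEq e3
    have e4 := (hc w 0).inner ℝ (hc2 w)
    have e5 := e4.unique e1
    simp only [zero_smul, add_zero] at e5
    rw [real_inner_self_eq_norm_sq, hXx] at e5
    linarith
  -- surjectivity
  have hsurj : ∀ v : V, v = fderiv ℝ φ y v + δ • fderiv ℝ X x (fderiv ℝ φ y v) := by
    intro v
    have hφy : φ y = x := by rw [hy, h1]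
    have e1 : HasFDerivAt φ (fderiv ℝ φ y) y := (hφ.differentiable (by simp) y).hasFDerivAt
    have e2 : HasFDerivAt X (fderiv ℝ X x) (φ y) := by rw [hφy]; exact hXd x
    have e3 := e1.add ((e2.comp y e1).const_smul δ)
    have e4 : (fun z => φ z + δ • X (φ z)) = fun z => z := funext h2
    have e5 : HasFDerivAt (fun z => φ z + δ • X (φ z)) (ContinuousLinearMap.id ℝ V) y := by
      rw [e4]
      exact hasFDerivAt_id y
    have e6 := congrArg (fun L : V →L[ℝ] V => L v) (e5.unique e3)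
    simpa using e6
  have hgrad : ∀ v, fderiv ℝ F' y v = ‖gradient F x‖ * ⟪N, v⟫ := by
    intro v
    obtain ⟨w, hw⟩ : ∃ w, w = fderiv ℝ φ y v := ⟨_, rfl⟩
    have e1 := hsurj v
    rw [← hw] at e1
    have e2 := hfirst w 0
    simp only [zero_smul, add_zero] at e2
    rw [← hy, ← e1] at e2
    rw [e2, ParB_grad, hgN, real_inner_smul_left, norm_smul, norm_norm]
    have e3 : ⟪N, v⟫ = ⟪N, w⟫ := by
      rw [e1, inner_add_right, real_inner_smul_right, horth0, mul_zero, add_zero]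
    have e4 : ‖N‖ = 1 := by
      rw [hN, nrm, norm_smul, norm_inv, norm_norm, inv_mul_cancel₀ hgn.ne']
    rw [e3, e4, mul_one]
  have hN1 : ‖N‖ = 1 := by
    rw [hN, nrm, norm_smul, norm_inv, norm_norm, inv_mul_cancel₀ hgn.ne']
  -- the second derivative is the shape operator
  have hshape : ∀ w u : V, ⟪N, u⟫ = 0 →
      fderiv ℝ (fderiv ℝ F) x w u = ‖gradient F x‖ * ⟪fderiv ℝ X x w, u⟫ := by
    intro w u hu
    have hgc : ContDiff ℝ ∞ (gradient F) := ParB_gradient_contDiff F hF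
    have e0 : HasDerivAt (fun t : ℝ => fderiv ℝ F (x + t • w) u)
        (fderiv ℝ (fderiv ℝ F) x w u) 0 := by
      have a1 : HasDerivAt (fun t : ℝ => fderiv ℝ F (x + t • w))
          (fderiv ℝ (fderiv ℝ F) x w) 0 :=
        ((hFd2.differentiable (by simp) x).hasFDerivAt).comp_hasDerivAt_of_eq (0 : ℝ) (hline w 0)
          (by rw [zero_smul, add_zero])
      have a2 := a1.clm_apply (hasDerivAt_const (0 : ℝ) u)
      simpa using a2
    have e1 : DifferentiableAt ℝ (fun t : ℝ => ‖gradient F (x + t • w)‖) 0 := by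
      have a1 : DifferentiableAt ℝ (fun t : ℝ => gradient F (x + t • w)) 0 := by
        have a2 : Differentiable ℝ (fun t : ℝ => gradient F (x + t • w)) :=
          (hgc.differentiable (by simp)).comp fun t => (hline w t).differentiableAt
        exact a2 0
      exact a1.norm ℝ (by rw [zero_smul, add_zero]; exact hg)
    have e2 : HasDerivAt (fun t : ℝ => ‖gradient F (x + t • w)‖ * ⟪X (x + t • w), u⟫)
        (deriv (fun t : ℝ => ‖gradient F (x + t • w)‖) 0 * ⟪X (x + (0 : ℝ) • w), u⟫ +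
          ‖gradient F (x + (0 : ℝ) • w)‖ * ⟪fderiv ℝ X (x + (0 : ℝ) • w) w, u⟫) 0 := by
      have a1 := (hc w 0).inner ℝ (hasDerivAt_const (0 : ℝ) u)
      rw [inner_zero_right, zero_add] at a1
      exact e1.hasDerivAt.mul a1
    have e3 : (fun t : ℝ => fderiv ℝ F (x + t • w) u) =ᶠ[𝓝 0]
        fun t : ℝ => ‖gradient F (x + t • w)‖ * ⟪X (x + t • w), u⟫ := by
      have a1 : Tendsto (fun t : ℝ => x + t • w) (𝓝 0) (𝓝 x) := by
        have := (hline w 0).continuousAt.tendsto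
        simpa using this
      filter_upwards [a1.eventually hXn, a1.eventually (hgc.continuous.continuousAt.eventually_ne hg)]
        with t ht ht'
      rw [ParB_grad, ht, nrm, real_inner_smul_left]
      have : ‖gradient F (x + t • w)‖ ≠ 0 := norm_ne_zero_iff.2 ht'
      field_simp
    have e4 := e0.unique (e2.congr_of_eventuallyEq e3)
    rw [e4, zero_smul, add_zero, hXx, hu, mul_zero, zero_add]
  refine ⟨?_, ?_, ?_⟩
  · refine ext_inner_right ℝ fun v => ?_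
    rw [← ParB_grad, hgrad, hgN, real_inner_smul_left, norm_smul, norm_norm]
    rw [hN1, mul_one]
  · rintro ⟨v, hv, hpos⟩
    rw [← hN] at hv ⊢
    by_contra hcon
    push Not at hcon
    obtain ⟨w, hw⟩ : ∃ w, w = fderiv ℝ φ y v := ⟨_, rfl⟩
    obtain ⟨u, hu⟩ : ∃ u, u = fderiv ℝ X x w := ⟨_, rfl⟩
    have hvw : v = w + δ • u := by rw [hu, hw]; exact hsurj v
    have huN : ⟪u, N⟫ = 0 := by rw [hu, real_inner_comm]; exact horth0 w
    have hwN : ⟪w, N⟫ = 0 := by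
      rw [hvw, inner_add_left, real_inner_smul_left, huN, mul_zero, add_zero] at hv
      exact hv
    have e1 := hsecond w
    rw [← hu, ← hvw, hgrad, real_inner_smul_right, horth2, ← hu] at e1
    have hsymm : ∀ a b : V, fderiv ℝ (fderiv ℝ F) x a b = fderiv ℝ (fderiv ℝ F) x b a := by
      intro a b
      have h2 : minSmoothness ℝ 2 ≤ (∞ : WithTop ℕ∞) := by
        rw [minSmoothness_of_isRCLikeNormedField]
        norm_cast
      exact (hF.contDiffAt.isSymmSndFDerivAt (x := x) h2) a b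
    have e2 : fderiv ℝ (fderiv ℝ F) x w u = ‖gradient F x‖ * ‖u‖ ^ 2 := by
      rw [hshape w u (by rw [real_inner_comm]; exact huN), ← hu, real_inner_self_eq_norm_sq]
    have e3 : -(‖gradient F x‖ * (C * ‖u‖ ^ 2)) ≤ fderiv ℝ (fderiv ℝ F) x u u := by
      rw [hshape u u (by rw [real_inner_comm]; exact huN)]
      have a1 : |⟪fderiv ℝ X x u, u⟫| ≤ C * ‖u‖ ^ 2 := by
        refine (abs_real_inner_le_norm _ _).trans ?_
        have a2 : ‖fderiv ℝ X x u‖ ≤ C * ‖u‖ :=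
          (ContinuousLinearMap.le_opNorm _ _).trans
            (mul_le_mul_of_nonneg_right hC (norm_nonneg _))
        calc ‖fderiv ℝ X x u‖ * ‖u‖ ≤ C * ‖u‖ * ‖u‖ :=
              mul_le_mul_of_nonneg_right a2 (norm_nonneg _)
          _ = C * ‖u‖ ^ 2 := by ring
      have a2 := (abs_le.1 a1).1
      nlinarith
    have hquad : ∀ t : ℝ, fderiv ℝ (fderiv ℝ F) x w w + 2 * t * (‖gradient F x‖ * ‖u‖ ^ 2) +
        t ^ 2 * fderiv ℝ (fderiv ℝ F) x u u ≤ 0 := by
      intro t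
      have a1 := hcon (w + t • u) (by
        rw [inner_add_left, real_inner_smul_left, huN, hwN, mul_zero, add_zero])
      have a2 : fderiv ℝ (fderiv ℝ F) x (w + t • u) (w + t • u) =
          fderiv ℝ (fderiv ℝ F) x w w + 2 * t * fderiv ℝ (fderiv ℝ F) x w u +
            t ^ 2 * fderiv ℝ (fderiv ℝ F) x u u := by
        simp only [map_add, map_smul, add_apply, smul_apply, smul_eq_mul]
        rw [hsymm u w]
        ring
      rw [a2, e2] at a1
      exact a1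
    have hq := hquad δ
    have a3 : δ ^ 2 * -(‖gradient F x‖ * (C * ‖u‖ ^ 2)) ≤
        δ ^ 2 * fderiv ℝ (fderiv ℝ F) x u u := mul_le_mul_of_nonneg_left e3 (by positivity)
    have a4 : δ ^ 2 * (‖gradient F x‖ * (C * ‖u‖ ^ 2)) ≤ δ * (‖gradient F x‖ * ‖u‖ ^ 2) := by
      have : δ * (‖gradient F x‖ * ‖u‖ ^ 2) * (δ * C) ≤ δ * (‖gradient F x‖ * ‖u‖ ^ 2) * 1 :=
        mul_le_mul_of_nonneg_left hδC (by positivity)
      nlinarith
    nlinarith
  · intro N' hN' hneg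
    rw [← hN] at hN' ⊢
    have hinj : Function.Injective (fderiv ℝ φ y) := by
      intro a b hab
      rw [hsurj a, hsurj b, hab]
    refine ⟨N'.map (fderiv ℝ φ y : V →ₗ[ℝ] V), ?_, ?_, ?_⟩
    · exact (Submodule.equivMapOfInjective (fderiv ℝ φ y : V →ₗ[ℝ] V) hinj N').finrank_eq.symm
    · rintro _ ⟨v, hv, rfl⟩
      have e1 := hN' v hv
      have e2 := hsurj v
      rw [e2, inner_add_left, real_inner_smul_left, real_inner_comm, real_inner_comm N, horth0,
        mul_zero, add_zero] at e1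
      rw [real_inner_comm]
      exact e1
    · rintro _ ⟨v, hv, rfl⟩ hne
      have hv0 : v ≠ 0 := by
        rintro rfl
        exact hne (map_zero _)
      obtain ⟨w, hw⟩ : ∃ w, w = fderiv ℝ φ y v := ⟨_, rfl⟩
      show fderiv ℝ (fderiv ℝ F) x (fderiv ℝ φ y v) (fderiv ℝ φ y v) < 0
      rw [← hw]
      have e1 := hsecond w
      have e2 : w + δ • fderiv ℝ X x w = v := by rw [hw]; exact (hsurj v).symm
      rw [e2, hgrad, real_inner_smul_right, horth2] at e1
      have e3 := hneg v hv hv0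
      have e4 : 0 ≤ ‖gradient F x‖ * (δ * ‖fderiv ℝ X x w‖ ^ 2) := by positivity
      rw [← e1]
      linarith

/-- **Parallel hypersurfaces.**  For small `δ > 0` there is a smooth `F'`, homotopic to `F`,
with `{F' = 0} = {x + δ N(x)}`, with the same normals, with at most as many negative directions
of the second derivative on the tangent space, and with a positive direction only if `F` has one.
Only the zero set is bounded, so this may be applied to `-F` too. -/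
theorem par_surface_signs (F : V → ℝ) (hF : ContDiff ℝ ∞ F) (hb : Bornology.IsBounded {x | F x = 0})
    (hreg : ∀ x, F x = 0 → gradient F x ≠ 0) :
    ∃ δ₀ : ℝ, 0 < δ₀ ∧ ∀ δ : ℝ, 0 < δ → δ ≤ δ₀ → ∃ F' : V → ℝ, ContDiff ℝ ∞ F' ∧
      Bornology.IsBounded {x | F' x = 0} ∧
      (Bornology.IsBounded {x | F x ≤ 0} → Bornology.IsBounded {x | F' x ≤ 0}) ∧
      (∀ x, F' x = 0 → gradient F' x ≠ 0) ∧ Hom F F' ∧
      (∀ x, F x = 0 → F' (x + δ • nrm F x) = 0) ∧
      ∀ y, F' y = 0 → ∃ x, F x = 0 ∧ y = x + δ • nrm F x ∧ gradient F' y = gradient F x ∧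
        nrm F' y = nrm F x ∧
        ((∃ v, ⟪v, nrm F x⟫ = 0 ∧ 0 < fderiv ℝ (fderiv ℝ F') y v v) →
          ∃ w, ⟪w, nrm F x⟫ = 0 ∧ 0 < fderiv ℝ (fderiv ℝ F) x w w) ∧
        ∀ N' : Submodule ℝ V, (∀ a ∈ N', ⟪a, nrm F x⟫ = 0) →
          (∀ a ∈ N', a ≠ 0 → fderiv ℝ (fderiv ℝ F') y a a < 0) →
          ∃ N'' : Submodule ℝ V, Module.finrank ℝ N'' = Module.finrank ℝ N' ∧
            (∀ a ∈ N'', ⟪a, nrm F x⟫ = 0) ∧
            ∀ a ∈ N'', a ≠ 0 → fderiv ℝ (fderiv ℝ F) x a a < 0 := by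
  have hK : IsCompact {x : V | F x = 0} :=
    Metric.isCompact_of_isClosed_isBounded (isClosed_eq hF.continuous continuous_const) hb
  obtain ⟨X, hX, hXc, hXn⟩ := par_field F hF hK hreg
  obtain ⟨δ₁, hδ₁, hflow⟩ := par_flow X hX hXc
  obtain ⟨C, hC⟩ := hXc.exists_bound_of_continuous hX.continuous
  have hC0 : 0 ≤ C := (norm_nonneg _).trans (hC 0)
  obtain ⟨C2, hC2⟩ := hXc.fderiv (𝕜 := ℝ) |>.exists_bound_of_continuous
    (hX.continuous_fderiv (by simp))
  have hC20 : 0 ≤ C2 := (norm_nonneg _).trans (hC2 0)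
  have hs1 : 0 < Real.sin 1 := Real.sin_pos_of_pos_of_lt_pi one_pos (by linarith [Real.pi_gt_three])
  refine ⟨min (δ₁ * Real.sin 1) (C2 + 1)⁻¹, lt_min (by positivity) (by positivity),
    fun δ hδ hδm => ?_⟩
  have hδ0 : δ ≤ δ₁ * Real.sin 1 := hδm.trans (min_le_left _ _)
  have hδC : δ * C2 ≤ 1 := by
    have h1 : δ ≤ (C2 + 1)⁻¹ := hδm.trans (min_le_right _ _)
    calc δ * C2 ≤ (C2 + 1)⁻¹ * C2 := mul_le_mul_of_nonneg_right h1 hC20
      _ ≤ 1 := by
        rw [inv_mul_le_iff₀ (by positivity)]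
        linarith
  obtain ⟨ψ, hψ, h1, h2⟩ := hflow (δ / Real.sin 1) (by positivity) (by
    rw [div_le_iff₀ hs1]
    exact hδ0)
  have hone : δ / Real.sin 1 * Real.sin 1 = δ := div_mul_cancel₀ _ hs1.ne'
  have hG : ContDiff ℝ ∞ fun p : ℝ × V => F (ψ p) := hF.comp hψ
  have hbound : ∀ {P : V → Prop} {R : ℝ}, (∀ x, P x → ‖x‖ ≤ R) → ∀ s y, P (ψ (s, y)) →
      ‖y‖ ≤ R + δ / Real.sin 1 * C := by
    intro P R hR s y hy
    have e1 := hR _ hy
    have e2 : ‖(δ / Real.sin 1 * Real.sin s) • X (ψ (s, y))‖ ≤ δ / Real.sin 1 * C := by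
      rw [norm_smul, Real.norm_eq_abs, abs_mul, abs_of_pos (by positivity : 0 < δ / Real.sin 1)]
      have e3 : |Real.sin s| * ‖X (ψ (s, y))‖ ≤ 1 * C :=
        mul_le_mul (Real.abs_sin_le_one _) (hC _) (norm_nonneg _) zero_le_one
      rw [one_mul] at e3
      rw [mul_assoc]
      exact mul_le_mul_of_nonneg_left e3 (by positivity)
    calc ‖y‖ = ‖ψ (s, y) + (δ / Real.sin 1 * Real.sin s) • X (ψ (s, y))‖ := by rw [h2]
      _ ≤ _ := (norm_add_le _ _).trans (add_le_add e1 e2)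
  obtain ⟨φ, hφdef⟩ : ∃ φ : V → V, φ = fun y => ψ (1, y) := ⟨_, rfl⟩
  have hφ : ContDiff ℝ ∞ φ := by
    rw [hφdef]
    exact hψ.comp (contDiff_const.prodMk contDiff_id)
  have h1' : ∀ x, φ (x + δ • X x) = x := fun x => by
    have := h1 1 x
    rw [hone] at this
    rw [hφdef]
    exact this
  have h2' : ∀ y, φ y + δ • X (φ y) = y := fun y => by
    have := h2 1 y
    rw [hone] at this
    rw [hφdef]
    exact this
  have hF' : ContDiff ℝ ∞ fun y => F (φ y) := hF.comp hφ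
  have hkey : ∀ y, F (φ y) = 0 → F (φ y) = 0 ∧ y = φ y + δ • nrm F (φ y) ∧
      gradient (fun y => F (φ y)) y = gradient F (φ y) ∧
      ((∃ v, ⟪v, nrm F (φ y)⟫ = 0 ∧ 0 < fderiv ℝ (fderiv ℝ fun y => F (φ y)) y v v) →
        ∃ w, ⟪w, nrm F (φ y)⟫ = 0 ∧ 0 < fderiv ℝ (fderiv ℝ F) (φ y) w w) ∧
      ∀ N' : Submodule ℝ V, (∀ a ∈ N', ⟪a, nrm F (φ y)⟫ = 0) →
        (∀ a ∈ N', a ≠ 0 → fderiv ℝ (fderiv ℝ fun y => F (φ y)) y a a < 0) →
        ∃ N'' : Submodule ℝ V, Module.finrank ℝ N'' = Module.finrank ℝ N' ∧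
          (∀ a ∈ N'', ⟪a, nrm F (φ y)⟫ = 0) ∧
          ∀ a ∈ N'', a ≠ 0 → fderiv ℝ (fderiv ℝ F) (φ y) a a < 0 := by
    intro y hy
    have e1 := ParB_second hF hF' hX hφ hδ h1' h2' (fun _ => rfl) (x := φ y) (hreg _ hy) (hXn _ hy)
      (hC2 _) hδC
    rw [h2'] at e1
    refine ⟨hy, ?_, e1.1, e1.2⟩
    rw [← (hXn _ hy).self_of_nhds, h2']
  obtain ⟨R, hR⟩ := hb.exists_norm_le
  refine ⟨fun y => F (φ y), hF', ?_, ?_, ?_, ?_, ?_, ?_⟩
  · refine isBounded_iff_forall_norm_le.2 ⟨_, fun y hy =>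
      hbound (P := fun x => F x = 0) (fun x hx => hR x hx) 1 y ?_⟩
    rw [hφdef] at hy
    exact hy
  · intro hb'
    obtain ⟨R', hR'⟩ := hb'.exists_norm_le
    refine isBounded_iff_forall_norm_le.2 ⟨_, fun y hy =>
      hbound (P := fun x => F x ≤ 0) (fun x hx => hR' x hx) 1 y ?_⟩
    rw [hφdef] at hy
    exact hy
  · intro y hy
    rw [(hkey y hy).2.2.1]
    exact hreg _ hy
  · have h0 : (fun y => F (ψ (0, y))) = F := by
      funext y
      have := h2 0 y
      rw [Real.sin_zero, mul_zero, zero_smul, add_zero] at this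
      rw [this]
    refine ⟨fun s y => F (ψ (s, y)), hG.continuous, h0, by rw [hφdef], ⟨_, fun s _ y hy =>
      hbound (P := fun x => F x = 0) (fun x hx => hR x hx) s y hy⟩, ?_⟩
    intro s _ y hy
    have hy : F (ψ (s, y)) = 0 := hy
    obtain ⟨x, hx⟩ : ∃ x, x = ψ (s, y) := ⟨_, rfl⟩
    obtain ⟨c, hc⟩ : ∃ c, c = δ / Real.sin 1 * Real.sin s := ⟨_, rfl⟩
    rw [← hx] at hy
    have hy' : y = x + c • X x := by rw [hc, hx]; exact (h2 s y).symm
    obtain ⟨w, hw⟩ : ∃ w, w = -gradient F x := ⟨_, rfl⟩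
    refine ⟨w + c • fderiv ℝ X x w, (desc_smooth (G := fun p : ℝ × V => F (ψ p))
      (hG.of_le (by norm_cast)).contDiffAt ?_).mono nhdsWithin_le_nhds⟩
    have e1 : HasDerivAt (fun t : ℝ => x + t • w) w 0 := by
      simpa using ((hasDerivAt_id (0 : ℝ)).smul_const w).const_add x
    have e2 : HasDerivAt (fun t : ℝ => X (x + t • w)) (fderiv ℝ X x w) 0 :=
      ((hX.differentiable (by simp) x).hasFDerivAt).comp_hasDerivAt_of_eq (0 : ℝ) e1
        (by rw [zero_smul, add_zero])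
    have e3 : HasDerivAt (fun t : ℝ => (s, x + t • w + c • X (x + t • w)))
        ((0 : ℝ), w + c • fderiv ℝ X x w) 0 :=
      (hasDerivAt_const (0 : ℝ) s).prodMk (e1.add (e2.const_smul c))
    have e4 : HasDerivAt (fun t : ℝ => F (ψ (s, x + t • w + c • X (x + t • w))))
        (fderiv ℝ (fun p : ℝ × V => F (ψ p)) (s, y) (0, w + c • fderiv ℝ X x w)) 0 :=
      ((hG.differentiable (by simp) (s, y)).hasFDerivAt).comp_hasDerivAt_of_eq (0 : ℝ) e3
        (by rw [zero_smul, add_zero, ← hy'])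
    have e5 : (fun t : ℝ => F (ψ (s, x + t • w + c • X (x + t • w)))) = fun t => F (x + t • w) := by
      funext t
      rw [hc, h1]
    have e6 : HasDerivAt (fun t : ℝ => F (x + t • w)) (fderiv ℝ F x w) 0 :=
      ((hF.differentiable (by simp) x).hasFDerivAt).comp_hasDerivAt_of_eq (0 : ℝ) e1
        (by rw [zero_smul, add_zero])
    rw [e5] at e4
    rw [e4.unique e6, ParB_grad, hw, inner_neg_right, real_inner_self_eq_norm_sq]
    have := norm_pos_iff.2 (hreg _ hy)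
    nlinarith
  · intro x hx
    show F (φ (x + δ • nrm F x)) = 0
    rw [← (hXn _ hx).self_of_nhds, h1']
    exact hx
  · intro y hy
    obtain ⟨e1, e2, e3, e4⟩ := hkey y hy
    exact ⟨φ y, e1, e2, e3, by rw [nrm, nrm, e3], e4⟩

/-- Parallel hypersurfaces and the classes `TwoNeg`, `OnePos`. -/
theorem par_surface2 (F : V → ℝ) (hF : ContDiff ℝ ∞ F) (hb : Bornology.IsBounded {x | F x = 0})
    (hreg : ∀ x, F x = 0 → gradient F x ≠ 0) :
    ∃ δ₀ : ℝ, 0 < δ₀ ∧ ∀ δ : ℝ, 0 < δ → δ ≤ δ₀ → ∃ F' : V → ℝ, ContDiff ℝ ∞ F' ∧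
      Bornology.IsBounded {x | F' x = 0} ∧ (∀ x, F' x = 0 → gradient F' x ≠ 0) ∧ Hom F F' ∧
      ∀ y, F' y = 0 → ∃ x, F x = 0 ∧ y = x + δ • nrm F x ∧ nrm F' y = nrm F x ∧
        (TwoNeg F' y → TwoNeg F x) ∧ (OnePos F' y → OnePos F x) := by
  obtain ⟨δ₀, hδ₀, h⟩ := par_surface_signs F hF hb hreg
  refine ⟨δ₀, hδ₀, fun δ hδ hδ' => ?_⟩
  obtain ⟨F', h1, h2, -, h3, h4, -, h5⟩ := h δ hδ hδ'
  refine ⟨F', h1, h2, h3, h4, fun y hy => ?_⟩
  obtain ⟨x, hx, hyx, hgr, hn, hpos, hneg⟩ := h5 y hy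
  have horth : ∀ a : V, fderiv ℝ F' y a = 0 → ⟪a, nrm F x⟫ = 0 := by
    intro a h1
    rw [ParB_grad, hgr] at h1
    rw [nrm, inner_smul_right, real_inner_comm, h1, mul_zero]
  have hback : ∀ a : V, ⟪a, nrm F x⟫ = 0 → fderiv ℝ F x a = 0 := by
    intro a h1
    rw [nrm, inner_smul_right, mul_eq_zero] at h1
    rcases h1 with h1 | h1
    · exact absurd h1 (inv_ne_zero (norm_ne_zero_iff.2 (hreg x hx)))
    · rw [ParB_grad, real_inner_comm, h1]
  refine ⟨x, hx, hyx, hn, ?_, ?_⟩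
  · rintro ⟨N', hN'2, hN'⟩
    obtain ⟨N'', h2, h3, h4⟩ := hneg N' (fun a ha => by
      by_cases h0 : a = 0
      · rw [h0, inner_zero_left]
      · exact horth a (hN' a ha h0).1) (fun a ha h0 => (hN' a ha h0).2)
    exact ⟨N'', h2.trans hN'2, fun u hu hu0 => ⟨hback u (h3 u hu), h4 u hu hu0⟩⟩
  · rintro ⟨u, -, hu1, hu2⟩
    obtain ⟨w, hw1, hw2⟩ := hpos ⟨u, horth u hu1, hu2⟩
    refine ⟨w, ?_, hback w hw1, hw2⟩
    rintro rfl
    simp at hw2

end Pool.Schoen
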