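import Pool.Agent.H.MP_6c077c_gt.F2.Face21
import Pool.Agent.H.MP_6c077c_gt.F2.Par2
import Pool.Agent.H.MP_6c077c_gt.F2.MainK

/-! Theorem F2: the closure form. -/

set_option autoImplicit false

namespace Pool.Schoen

open Filter Set Metric
open scoped Topology RealInnerProductSpace ContDiff

variable {V : Type*} [NormedAddCommGroup V] [InnerProductSpace ℝ V] [FiniteDimensional ℝ V]

/-- The closure form. -/
theorem f2_rd (hV : Module.finrank ℝ V = 4) {F : V → ℝ} (hF : ContDiff ℝ ∞ F)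
    (hb : Bornology.IsBounded {x | F x = 0}) (hreg : ∀ x, F x = 0 → gradient F x ≠ 0)
    (hMc : IsConnected {x | F x = 0}) (hMl : LiftS {x | F x = 0}) {e : V} (he : ‖e‖ = 1)
    (h : NoFace21 F e) : Rd F := by
  obtain ⟨δ, hδ, hpar⟩ := par_surface2 F hF hb hreg
  obtain ⟨G, hG, hGb, hGreg, hFG, hpt⟩ := hpar δ hδ le_rfl
  obtain ⟨hGc, hGl⟩ := zero_hom hFG hF hG hMc hMl
  obtain ⟨η, hη, hηp⟩ := noFace21_eps F hF hb hreg h (half_pos hδ)
  obtain ⟨R, hR⟩ := hb.exists_norm_le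
  haveI : ProperSpace V := FiniteDimensional.proper ℝ V
  have hGz : IsCompact {x | G x = 0} :=
    isCompact_of_isClosed_isBounded (isClosed_eq hG.continuous continuous_const) hGb
  obtain ⟨e', he', hee, hK⟩ := exists_regular_both 3 hV G hG hGreg hGz e he
    (min η (δ / (8 * (|R| + 1)))) (by positivity)
  have hne : ‖-e'‖ = 1 := by rwa [norm_neg]
  have hcr : ∀ x, Crit G e' x ↔ Inward G e' x ∨ Inward G (-e') x := crit_iff he' hGreg
  have hnd : ∀ x, Crit G e' x → ∃ k, Idx G e' x k := by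
    intro x hx
    rcases (hcr x).1 hx with h1 | h1
    · exact ⟨_, idx_of_gaussK 3 hV G hG e' he' x h1
        (hK x h1.1 (Or.inr (plane_nrm_of_inward he' h1)))⟩
    · refine ⟨_, idx_neg_dir.1 (idx_of_gaussK 3 hV G hG (-e') hne x h1 (hK x h1.1 (Or.inl ?_)))⟩
      rw [plane_nrm_of_inward hne h1, neg_neg]
  have hf1 : {x | Inward G e' x}.Finite :=
    inward_finite hG hGb hGreg he' fun x hx => hnd x ((hcr x).2 (Or.inl hx))
  have hf2 : {x | Inward G (-e') x}.Finite :=
    inward_finite hG hGb hGreg hne fun x hx => by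
      obtain ⟨k, hk⟩ := hnd x ((hcr x).2 (Or.inr hx))
      exact ⟨k, idx_neg_dir.2 hk⟩
  have hM2 : ∀ x, Crit G e' x → Idx G e' x 2 → ∃ x0 ∈ M21 F, x = x0 + δ • nrm F x0 ∧
      nrm G x = nrm F x0 := by
    intro y hy hi
    obtain ⟨h1, h2, h3⟩ := m21_of_idx hV he' hy hi
    obtain ⟨x, hx, hyx, hn, ht, hp⟩ := hpt y h1
    exact ⟨x, ⟨hx, ht h2, hp h3⟩, hyx, hn⟩
  have heη : ‖e' - e‖ < η := hee.trans_le (min_le_left _ _)
  have heR : ‖e' - e‖ * (|R| + 1) ≤ δ / 8 := by
    have h1 : ‖e' - e‖ ≤ δ / (8 * (|R| + 1)) := hee.le.trans (min_le_right _ _)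
    have h2 : 0 < |R| + 1 := by positivity
    rw [le_div_iff₀ (by positivity)] at h1
    linarith
  have hht : ∀ x, F x = 0 → |⟪e', x⟫ - ⟪e, x⟫| ≤ δ / 8 := by
    intro x hx
    rw [← inner_sub_left]
    refine (abs_real_inner_le_norm _ _).trans (le_trans ?_ heR)
    refine mul_le_mul_of_nonneg_left ?_ (norm_nonneg _)
    have := hR x hx
    have := le_abs_self R
    linarith
  have hkey : ∀ x y : V, Inward G e' x → Idx G e' x 2 → Inward G (-e') y → Idx G e' y 2 →
      ⟪e', x⟫ < ⟪e', y⟫ := by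
    intro x y hx hx2 hy hy2
    obtain ⟨x0, hx0, hxx, hxn⟩ := hM2 x ((hcr x).2 (Or.inl hx)) hx2
    obtain ⟨y0, hy0, hyy, hyn⟩ := hM2 y ((hcr y).2 (Or.inr hy)) hy2
    rw [plane_nrm_of_inward he' hx] at hxn
    rw [plane_nrm_of_inward hne hy, neg_neg] at hyn
    have h1 := hηp x0 hx0 y0 hy0 (by
      rw [← hxn, neg_add_eq_sub, norm_sub_rev]
      exact heη) (by
      rw [← hyn]
      exact heη)
    have h2 := (abs_le.1 (hht x0 hx0.1)).2
    have h3 := (abs_le.1 (hht y0 hy0.1)).1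
    rw [hxx, hyy, ← hxn, ← hyn, inner_add_right, inner_add_right, inner_smul_right,
      inner_smul_right, inner_neg_right, real_inner_self_eq_norm_sq, he']
    linarith
  set hgt : V → ℝ := fun x => ⟪e', x⟫ with hhgt
  obtain ⟨a, b, c, h1, h2, hAa, hBb, hSab⟩ := facing_level
    (A := hgt '' {x | Inward G e' x ∧ Idx G e' x 2})
    (B := hgt '' {x | Inward G (-e') x ∧ Idx G e' x 2})
    (S := hgt '' ({x | Inward G e' x} ∪ {x | Inward G (-e') x}))
    ((hf1.subset fun x hx => hx.1).image _) ((hf2.subset fun x hx => hx.1).image _)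
    ((hf1.union hf2).image _) (by
      rintro _ ⟨x, ⟨hx, hx2⟩, rfl⟩ _ ⟨y, ⟨hy, hy2⟩, rfl⟩
      exact hkey x y hx hx2 hy hy2)
  have hrd : Rd G := by
    refine f2_dir hV hG hGb hGreg hGc hGl he' hnd (c := c) (fun x hx hxc => ?_)
      (fun x hx hx2 => ?_) (fun x hx hx2 => ?_)
    · refine hSab (hgt x) ⟨x, (hcr x).1 hx, rfl⟩ ?_
      simp only [hhgt]
      rw [hxc]
      exact ⟨h1.le, h2.le⟩
    · exact (hAa (hgt x) ⟨x, ⟨hx, hx2⟩, rfl⟩).trans h1
    · exact h2.trans (hBb (hgt x) ⟨x, ⟨hx, hx2⟩, rfl⟩)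
  exact Rd.of_hom hFG hrd

/-- **Theorem F2.** -/
theorem f2_carries (hV : Module.finrank ℝ V = 4) (F : V → ℝ) (hF : ContDiff ℝ ∞ F)
    (hb : Bornology.IsBounded {x | F x ≤ 0}) (hreg : ∀ x, F x = 0 → gradient F x ≠ 0)
    (hMc : IsConnected {x | F x = 0}) (hMl : LiftS {x | F x = 0}) (e : V) (he : ‖e‖ = 1)
    (h : NoFace21 F e ∨ NoFace21 (fun x => -F x) e) :
    Carries {x : V | F x = 0} (Metric.sphere (0 : V) 1) := by
  have hnt : Nontrivial V := Module.nontrivial_of_finrank_pos (R := ℝ) (by omega)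
  have hbz : Bornology.IsBounded {x | F x = 0} := hb.subset fun x hx => le_of_eq hx
  have hR : Rd F := by
    rcases h with h | h
    · exact f2_rd hV hF hbz hreg hMc hMl he h
    · have hz : {x | -F x = 0} = {x | F x = 0} := by
        ext x
        exact neg_eq_zero (a := F x)
      have h1 : Rd fun x => -F x := by
        refine f2_rd hV hF.neg (by rw [hz]; exact hbz) (fun x hx hg => ?_) (by rw [hz]; exact hMc)
          (by rw [hz]; exact hMl) he h
        refine hreg x (neg_eq_zero.1 hx) ?_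
        have h2 : gradient (fun y => -F y) x = -gradient F x := by
          unfold gradient
          rw [fderiv_fun_neg, map_neg]
        rw [h2, neg_eq_zero] at hg
        exact hg
      simpa only [neg_neg] using h1.neg
  exact carries_of_isBall F hF (hR.isBall hb)

end Pool.Schoen
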