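import Pool.Agent.H.MP_6c077c_gt.F2.Conf2
import Pool.Agent.H.MP_6c077c_gt.F2.Cor
import Pool.Agent.H.MP_6c077c_gt.F2.FinalC
import Pool.Agent.H.MP_6c077c_gt.Hy.Cut

/-! Conformal form of the facing pair theorem. -/

set_option autoImplicit false

namespace Pool.Schoen

open Filter Set
open scoped Topology RealInnerProductSpace ContDiff

variable {V : Type*} [NormedAddCommGroup V] [InnerProductSpace ℝ V] [FiniteDimensional ℝ V]

/-- The function on the other side of the inversion. -/
theorem conf_exists {F : V → ℝ} (hF : ContDiff ℝ ∞ F) (hb : Bornology.IsBounded {x | F x ≤ 0})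
    {w : V} (hw : F w ≠ 0) :
    ∃ G : V → ℝ, ContDiff ℝ ∞ G ∧ Bornology.IsBounded {x | G x = 0} ∧
      {y | G y = 0} = inv1 w '' {x | F x = 0} ∧
      ∀ y, G y = 0 → y ≠ w ∧ F (inv1 w y) = 0 ∧ G =ᶠ[𝓝 y] fun z => F (inv1 w z) := by
  classical
  obtain ⟨R, hR⟩ := hb.exists_norm_le
  obtain ⟨F1, hF1, hF1a, -, hF1z, -, hF1g⟩ := exists_cut F hF (max R 0) (le_max_right _ _)
    (fun x hx => (hR x hx).trans (le_max_left _ _))
  have hz1 : ∀ x, F1 x = 0 ↔ F x = 0 := fun x => by
    have := congrArg (fun S : Set V => x ∈ S) hF1z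
    simpa using this
  have hgerm : ∀ x, F x = 0 → F1 =ᶠ[𝓝 x] F := fun x hx =>
    hF1g x ((hR x hx.le).trans (le_max_left _ _))
  obtain ⟨G, hGdef⟩ : ∃ G : V → ℝ, G = fun y => if y = w then 1 else F1 (inv1 w y) := ⟨_, rfl⟩
  have hGne : ∀ y, y ≠ w → G y = F1 (inv1 w y) := fun y hy => by
    rw [hGdef]
    exact if_neg hy
  have hGw : G w = 1 := by
    rw [hGdef]
    exact if_pos rfl
  have hGnear : ∀ y, y ≠ w → G =ᶠ[𝓝 y] fun z => F1 (inv1 w z) := fun y hy => by
    filter_upwards [isOpen_ne.mem_nhds hy] with z hz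
    exact hGne z hz
  have hGz : ∀ y, G y = 0 ↔ F (inv1 w y) = 0 := by
    intro y
    by_cases hy : y = w
    · subst hy
      rw [hGw, inv1_self]
      exact iff_of_false one_ne_zero hw
    · rw [hGne y hy, hz1]
  have hzw : ∀ y, G y = 0 → y ≠ w := by
    rintro y hy rfl
    rw [hGw] at hy
    exact one_ne_zero hy
  refine ⟨G, ?_, ?_, ?_, ?_⟩
  · rw [contDiff_iff_contDiffAt]
    intro y
    by_cases hy : y = w
    · subst hy
      have h1 : G =ᶠ[𝓝 y] fun _ => (1 : ℝ) := by
        have hpos : 0 < (max R 0 + 2 + ‖y‖)⁻¹ := by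
          have : 0 ≤ max R 0 := le_max_right _ _
          positivity
        filter_upwards [Metric.ball_mem_nhds y hpos] with z hz
        by_cases hzy : z = y
        · rw [hzy, hGw]
        · rw [hGne z hzy]
          refine hF1a _ ?_
          rw [Metric.mem_ball, dist_eq_norm] at hz
          have hu : 0 < ‖z - y‖ := norm_pos_iff.2 (sub_ne_zero.2 hzy)
          have h2 : ‖inv1 y z - y‖ = ‖z - y‖⁻¹ := by
            rw [inv1_sub, norm_smul, norm_inv, norm_pow, norm_norm]
            field_simp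
          have h3 : max R 0 + 2 + ‖y‖ < ‖z - y‖⁻¹ := by
            have h0 : 0 ≤ max R 0 := le_max_right _ _
            rw [lt_inv_comm₀ (by positivity) hu]
            exact hz
          have h4 := norm_sub_le (inv1 y z) y
          linarith
      exact contDiffAt_const.congr_of_eventuallyEq h1
    · exact (ContDiffAt.comp (g := F1) y hF1.contDiffAt (inv1_contDiffAt hy)).congr_of_eventuallyEq
        (hGnear y hy)
  · have h1 : F1 w ≠ 0 := fun h => hw ((hz1 w).1 h)
    obtain ⟨c, hc, hball⟩ := Metric.isOpen_iff.1 (isOpen_ne_fun hF1.continuous continuous_const) w h1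
    refine isBounded_iff_forall_norm_le.2 ⟨‖w‖ + c⁻¹, fun y hy => ?_⟩
    have hy : G y = 0 := hy
    have hyw := hzw y hy
    have hu : 0 < ‖y - w‖ := norm_pos_iff.2 (sub_ne_zero.2 hyw)
    have h2 : c ≤ ‖inv1 w y - w‖ := by
      by_contra h3
      have h4 : inv1 w y ∈ Metric.ball w c := by
        rw [Metric.mem_ball, dist_eq_norm]
        exact not_le.1 h3
      exact hball h4 ((hz1 _).2 ((hGz y).1 hy))
    have h3 : ‖inv1 w y - w‖ = ‖y - w‖⁻¹ := by
      rw [inv1_sub, norm_smul, norm_inv, norm_pow, norm_norm]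
      field_simp
    rw [h3, le_inv_comm₀ hc hu] at h2
    have h4 := norm_add_le (y - w) w
    rw [sub_add_cancel] at h4
    linarith
  · ext y
    constructor
    · intro hy
      exact ⟨inv1 w y, (hGz y).1 hy, inv1_inv1 w y⟩
    · rintro ⟨x, hx, rfl⟩
      show G (inv1 w x) = 0
      rw [hGz, inv1_inv1]
      exact hx
  · intro y hy
    refine ⟨hzw y hy, (hGz y).1 hy, ?_⟩
    have h1 : ContinuousAt (inv1 w) y := (inv1_contDiffAt (hzw y hy)).continuousAt
    have h2 := h1.eventually (hgerm _ ((hGz y).1 hy))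
    filter_upwards [hGnear y (hzw y hy), h2] with z hz1 hz2
    rw [hz1]
    exact hz2

/-- **Facing pairs, conformal form.** -/
theorem conf_isBall (hV : Module.finrank ℝ V = 4) (F : V → ℝ) (hF : ContDiff ℝ ∞ F)
    (hb : Bornology.IsBounded {x | F x ≤ 0}) (hreg : ∀ x, F x = 0 → gradient F x ≠ 0)
    (hMc : IsConnected {x | F x = 0}) (hMl : LiftS {x | F x = 0}) (w a : V) (hw : F w ≠ 0)
    (ha : ‖a‖ = 1) (h : NoFaceC F w a ∨ NoFaceC (fun x => -F x) w a) : IsBall F := by
  obtain ⟨G, hG, hGb, hGim, hGz⟩ := conf_exists hF hb hw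
  have ha0 : a ≠ 0 := by
    intro h0
    rw [h0, norm_zero] at ha
    exact zero_ne_one ha
  have hGreg : ∀ y, G y = 0 → gradient G y ≠ 0 := by
    intro y hy
    obtain ⟨h1, h2, h3⟩ := hGz y hy
    rw [conf_gradient hF hG h1 h3]
    exact invD_ne (sub_ne_zero.2 h1) (hreg _ h2)
  have hinv : ∀ x, F x = 0 → ContinuousWithinAt (inv1 w) {x | F x = 0} x := by
    intro x hx
    refine (inv1_contDiffAt ?_).continuousAt.continuousWithinAt
    rintro rfl
    exact hw hx
  have hinvG : ∀ y, G y = 0 → ContinuousWithinAt (inv1 w) {y | G y = 0} y := fun y hy =>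
    (inv1_contDiffAt (hGz y hy).1).continuousAt.continuousWithinAt
  have hGc : IsConnected {y | G y = 0} := by
    rw [hGim]
    exact hMc.image _ fun x hx => hinv x hx
  have hGl : LiftS {y | G y = 0} := by
    intro u hu hu1
    have hmaps : ∀ x ∈ {x | F x = 0}, inv1 w x ∈ {y | G y = 0} := fun x hx => by
      rw [hGim]
      exact mem_image_of_mem _ hx
    obtain ⟨v, hv, hv1⟩ := hMl (fun x => u (inv1 w x))
      (hu.comp (fun x hx => hinv x hx) hmaps) (fun x hx => hu1 _ (hmaps x hx))
    refine ⟨fun y => v (inv1 w y), hv.comp (fun y hy => hinvG y hy)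
      (fun y hy => (hGz y hy).2.1), fun y hy => ?_⟩
    have := hv1 _ (hGz y hy).2.1
    rwa [inv1_inv1] at this
  have hneg : ContDiff ℝ ∞ fun x => -F x := hF.neg
  have hGneg : ContDiff ℝ ∞ fun x => -G x := hG.neg
  have hRd : Carries {y | G y = 0} (Metric.sphere (0 : V) 1) := by
    have key : Rd G := by
      rcases h with h | h
      · exact f2_rd hV hG hGb hGreg hGc hGl ha (noFace21_of_conf hF hG hGz h)
      · have hset : {x | -G x = 0} = {x | G x = 0} := by
          ext x
          simp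
        have h1 : NoFace21 (fun x => -G x) a := by
          refine noFace21_of_conf hneg hGneg (fun y hy => ?_) h
          obtain ⟨e1, e2, e3⟩ := hGz y (neg_eq_zero.1 hy)
          refine ⟨e1, neg_eq_zero.2 e2, ?_⟩
          filter_upwards [e3] with z hz
          rw [hz]
        have h2 := f2_rd hV hGneg (by rw [hset]; exact hGb) (fun x hx h0 => by
          refine hGreg x (neg_eq_zero.1 hx) ?_
          rw [gradient_neg_fun, neg_eq_zero] at h0
          exact h0) (by rw [hset]; exact hGc) (by rw [hset]; exact hGl) ha h1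
        rcases h2 with h2 | h2
        · exact Or.inr h2
        · refine Or.inl ?_
          simpa only [neg_neg] using h2
    rcases key with h1 | h1
    · exact carries_of_isBall G hG h1
    · have h2 := carries_of_isBall (fun x => -G x) hGneg h1
      have hset : {x | -G x = 0} = {x | G x = 0} := by
        ext x
        simp
      rwa [hset] at h2
  rw [hGim] at hRd
  exact isBall_of_inv1 hF hb hreg ⟨a, ha0⟩ hw hRd

theorem conf_carries (hV : Module.finrank ℝ V = 4) (F : V → ℝ) (hF : ContDiff ℝ ∞ F)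
    (hb : Bornology.IsBounded {x | F x ≤ 0}) (hreg : ∀ x, F x = 0 → gradient F x ≠ 0)
    (hMc : IsConnected {x | F x = 0}) (hMl : LiftS {x | F x = 0}) (w a : V) (hw : F w ≠ 0)
    (ha : ‖a‖ = 1) (h : NoFaceC F w a ∨ NoFaceC (fun x => -F x) w a) :
    Carries {x : V | F x = 0} (Metric.sphere (0 : V) 1) :=
  carries_of_isBall F hF (conf_isBall hV F hF hb hreg hMc hMl w a hw ha h)

end Pool.Schoen
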