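import Pool.Agent.H.MP_6c077c_gt.Al.Main
import Pool.Agent.H.MP_6c077c_gt.Gd.FaceDefs

/-! Theorem F2: definitions. -/

set_option autoImplicit false

namespace Pool.Schoen

open Filter Set
open scoped Topology RealInnerProductSpace ContDiff

variable {V : Type*} [NormedAddCommGroup V] [InnerProductSpace ℝ V] [FiniteDimensional ℝ V]

/-- There is a tangent vector on which the second derivative is positive: at least one positive
principal curvature. -/
def OnePos (F : V → ℝ) (x : V) : Prop :=
  ∃ u : V, u ≠ 0 ∧ fderiv ℝ F x u = 0 ∧ 0 < fderiv ℝ (fderiv ℝ F) x u u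

/-- The points with at least two negative and at least one positive principal curvature; in
dimension four: exactly two negative and one positive. -/
def M21 (F : V → ℝ) : Set V := {x | F x = 0 ∧ TwoNeg F x ∧ OnePos F x}

/-- There is no facing pair in the direction `e` in the closure of `M21`. -/
def NoFace21 (F : V → ℝ) (e : V) : Prop :=
  ∀ x ∈ closure (M21 F), ∀ y ∈ closure (M21 F), nrm F x = -e → nrm F y = e → ⟪e, x⟫ ≤ ⟪e, y⟫

end Pool.Schoen
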