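import Pool.Agent.H.MP_6c077c_gt.F2.Conf1
import Pool.Agent.H.MP_6c077c_gt.F2.Defs

/-! Conformal form of the facing pair theorem: definitions. The hyperplanes orthogonal to a unit
vector are replaced by the spheres which are tangent at a point `w` to the hyperplane orthogonal to
the unit vector `a`. -/

set_option autoImplicit false

namespace Pool.Schoen

open Filter Set
open scoped Topology RealInnerProductSpace ContDiff

variable {V : Type*} [NormedAddCommGroup V] [InnerProductSpace ℝ V] [FiniteDimensional ℝ V]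

/-- The normal reflected in the direction of `x - w`: it is `a` or `-a` iff the sphere through `x`
which is tangent at `w` to the hyperplane orthogonal to `a` is tangent to `{F = 0}` at `x`. -/
noncomputable def cNrm (F : V → ℝ) (w x : V) : V :=
  nrm F x - (2 * ⟪nrm F x, x - w⟫ / ‖x - w‖ ^ 2) • (x - w)

/-- Half the signed curvature of the sphere through `x` which is tangent at `w` to the hyperplane
orthogonal to `a`. -/
noncomputable def cHt (w a x : V) : ℝ := ⟪a, x - w⟫ / ‖x - w‖ ^ 2

/-- At least two principal curvatures of `{F = 0}` at `x` are less than the curvature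
`2 ⟪x - w, N⟫ / ‖x - w‖ ^ 2` of the sphere through `w` which is tangent to `{F = 0}` at `x`. -/
def TwoLess (F : V → ℝ) (w x : V) : Prop :=
  ∃ N : Submodule ℝ V, Module.finrank ℝ N = 2 ∧ ∀ u ∈ N, u ≠ 0 → fderiv ℝ F x u = 0 ∧
    fderiv ℝ (fderiv ℝ F) x u u * ‖x - w‖ ^ 2 < 2 * fderiv ℝ F x (x - w) * ‖u‖ ^ 2

/-- At least one principal curvature is greater than the curvature of this sphere. -/
def OneMore (F : V → ℝ) (w x : V) : Prop :=
  ∃ u : V, u ≠ 0 ∧ fderiv ℝ F x u = 0 ∧
    2 * fderiv ℝ F x (x - w) * ‖u‖ ^ 2 < fderiv ℝ (fderiv ℝ F) x u u * ‖x - w‖ ^ 2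

/-- The conformal form of `M21`. -/
def C21 (F : V → ℝ) (w : V) : Set V := {x | F x = 0 ∧ TwoLess F w x ∧ OneMore F w x}

/-- No facing pair of the closure of `C21` for the pencil of spheres tangent at `w` to the
hyperplane orthogonal to `a`. -/
def NoFaceC (F : V → ℝ) (w a : V) : Prop :=
  ∀ x ∈ closure (C21 F w), ∀ y ∈ closure (C21 F w), cNrm F w x = -a → cNrm F w y = a →
    cHt w a x ≤ cHt w a y

end Pool.Schoen
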