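import Pool.Agent.H.MP_6c077c_gt.F2.ConfDef
import Pool.Agent.H.MP_6c077c_gt.Hy.Main
import Pool.Agent.H.MP_6c077c_gt.Gd.Facing

/-! Conformal form of the facing pair theorem: it contains the theorem on hypersurfaces of the
hyperbolic space with at most one principal curvature less than `-1` near a direction. -/

set_option autoImplicit false

namespace Pool.Schoen

open scoped ContDiff RealInnerProductSpace Topology
open Metric Set Filter

variable {V : Type*} [NormedAddCommGroup V] [InnerProductSpace ℝ V] [FiniteDimensional ℝ V]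

private theorem ConfHyp_grad (F : V → ℝ) (x a : V) : fderiv ℝ F x a = ⟪gradient F x, a⟫ :=
  (InnerProductSpace.toDual_symm_apply (𝕜 := ℝ)).symm

private theorem ConfHyp_nrm (F : V → ℝ) (x : V) (h : gradient F x ≠ 0) :
    gradient F x = ‖gradient F x‖ • nrm F x := by
  have h1 : ‖gradient F x‖ ≠ 0 := norm_ne_zero_iff.2 h
  rw [nrm, smul_smul, mul_inv_cancel₀ h1, one_smul]

/-- The reflected normal is a unit vector. -/
theorem norm_cNrm {F : V → ℝ} {w x : V} (hx : gradient F x ≠ 0) (hxw : x ≠ w) :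
    ‖cNrm F w x‖ = 1 := by
  have hN := norm_nrm F x hx
  have hr : 0 < ‖x - w‖ := norm_pos_iff.2 (sub_ne_zero.2 hxw)
  have h1 : ‖cNrm F w x‖ ^ 2 = 1 := by
    rw [cNrm, @norm_sub_sq_real, hN, real_inner_smul_right, norm_smul, mul_pow,
      Real.norm_eq_abs, sq_abs]
    field_simp
    ring
  have h2 : 0 ≤ ‖cNrm F w x‖ := norm_nonneg _
  nlinarith

/-- The reflected normal is continuous. -/
theorem cNrm_continuousOn {F : V → ℝ} (hF : ContDiff ℝ ∞ F)
    (hreg : ∀ x, F x = 0 → gradient F x ≠ 0) {w : V} (hw : F w ≠ 0) :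
    ContinuousOn (cNrm F w) {x | F x = 0} := by
  have hn := nrm_continuousOn hF hreg
  unfold cNrm
  refine hn.sub (ContinuousOn.smul (ContinuousOn.div ?_ ?_ ?_) ?_)
  · exact ContinuousOn.mul continuousOn_const (hn.inner (by fun_prop))
  · fun_prop
  · intro x hx
    have h1 : x ≠ w := by
      rintro rfl
      exact hw hx
    have : 0 < ‖x - w‖ := norm_pos_iff.2 (sub_ne_zero.2 h1)
    positivity
  · fun_prop

/-- Points with at most one hyperbolic principal curvature below `-1`: no point of `C21` for a pole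
`R' • w` near the ideal point `w` has reflected normal near `-w`. -/
theorem hyp_noC21 {n : ℕ} (hn : Module.finrank ℝ V = n + 1) (F : V → ℝ) (hF : ContDiff ℝ ∞ F)
    (hreg : ∀ x, F x = 0 → gradient F x ≠ 0) {R0 R' δ δ1 : ℝ} (hR0 : 0 ≤ R0) (h1 : R0 < R')
    (h2 : R' < 1) (hr : ∀ x, F x ≤ 0 → ‖x‖ ≤ R0) {w : V} (hw : ‖w‖ = 1) (hδ : 0 < δ)
    (hnum : ∀ (w x N ε : V) (T : ℝ), ‖w‖ = 1 → ‖x‖ ≤ R0 → ‖N‖ = 1 → ‖ε‖ = 1 →
      T • (R' • w - x) = N + ε → T * ‖R' • w - x‖ ^ 2 = 2 * ⟪N, R' • w - x⟫ → ‖ε - w‖ < δ1 →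
      0 < T ∧ 2 * (1 + ⟪x, N⟫) < T * (1 ^ 2 - ‖x‖ ^ 2))
    (hsmall : 4 * 1 * (1 - R') / ((1 - R0) * R') < δ ^ 2)
    (hcurv : ∀ x, F x = 0 → ‖hGau 1 (nrm F x) x - w‖ < δ →
      nlow F x (hRad 1 (nrm F x) x)⁻¹ ≤ 1) {x : V} (hx : F x = 0) (hC : TwoLess F (R' • w) x) :
    δ1 ≤ ‖cNrm F (R' • w) x + w‖ := by
  by_contra hcon
  have hcon := not_le.1 hcon
  have hR' : 0 < R' := hR0.trans_lt h1
  have hxR : ‖x‖ ≤ R0 := hr x (le_of_eq hx)
  have hxw : x ≠ R' • w := by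
    intro h
    rw [h, norm_smul, hw, mul_one, Real.norm_of_nonneg hR'.le] at hxR
    linarith
  have hgx := hreg x hx
  obtain ⟨g, hgd⟩ : ∃ g, g = ‖gradient F x‖ := ⟨_, rfl⟩
  have hg0 : 0 < g := by rw [hgd]; exact norm_pos_iff.2 hgx
  obtain ⟨N, hN⟩ : ∃ N, N = nrm F x := ⟨_, rfl⟩
  have hN1 : ‖N‖ = 1 := by rw [hN]; exact norm_nrm F x hgx
  have hgN : gradient F x = g • N := by rw [hgd, hN]; exact ConfHyp_nrm F x hgx
  have hF1 : ∀ a, fderiv ℝ F x a = g * ⟪N, a⟫ := fun a => by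
    rw [ConfHyp_grad, hgN, real_inner_smul_left]
  obtain ⟨q, hq⟩ : ∃ q, q = ‖x - R' • w‖ ^ 2 := ⟨_, rfl⟩
  have hq0 : 0 < q := by
    have : 0 < ‖x - R' • w‖ := norm_pos_iff.2 (sub_ne_zero.2 hxw)
    rw [hq]
    positivity
  obtain ⟨T, hT⟩ : ∃ T, T = -(2 * ⟪N, x - R' • w⟫ / q) := ⟨_, rfl⟩
  have hε : -cNrm F (R' • w) x = T • (R' • w - x) - N := by
    rw [cNrm, ← hN, ← hq, hT, ← neg_sub x (R' • w), smul_neg, neg_smul, neg_neg]
    abel
  have hT1 : T • (R' • w - x) = N + -cNrm F (R' • w) x := by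
    rw [hε]
    abel
  have hqs : ‖R' • w - x‖ ^ 2 = q := by rw [hq, norm_sub_rev]
  have hT2 : T * ‖R' • w - x‖ ^ 2 = 2 * ⟪N, R' • w - x⟫ := by
    rw [hqs, hT, ← neg_sub x (R' • w), inner_neg_right]
    field_simp
  have hεw : ‖-cNrm F (R' • w) x - w‖ < δ1 := by
    have : -cNrm F (R' • w) x - w = -(cNrm F (R' • w) x + w) := by abel
    rw [this, norm_neg]
    exact hcon
  have hε1 : ‖-cNrm F (R' • w) x‖ = 1 := by rw [norm_neg, norm_cNrm hgx hxw]
  obtain ⟨hT0, hT3⟩ := hnum w x N _ T hw hxR hN1 hε1 hT1 hT2 hεw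
  have hG := hGau_near hR0 h1 h2 hw hxR hN1 hε1 hT1 hT0 hT3
  have hG' : ‖hGau 1 (nrm F x) x - w‖ < δ := by
    rw [← hN]
    exact lt_of_pow_lt_pow_left₀ 2 hδ.le (hG.trans_lt hsmall)
  have hlow := hcurv x hx hG'
  rw [← hN] at hlow
  obtain ⟨-, h4, -, h6, -⟩ := hRad_facts (h1.trans h2) hN1 hxR
  have h3 : 0 < 1 + ⟪x, N⟫ := (hRad_facts (h1.trans h2) hN1 hxR).1
  have hρ : (hRad 1 N x)⁻¹ < T := by
    rw [inv_lt_iff_one_lt_mul₀ h4]
    have h8 : 2 * (1 + ⟪x, N⟫) < T * (2 * hRad 1 N x * (1 + ⟪x, N⟫)) := by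
      rw [h6]
      exact hT3
    have h9 : 2 * (1 + ⟪x, N⟫) * 1 < 2 * (1 + ⟪x, N⟫) * (T * hRad 1 N x) := by
      calc 2 * (1 + ⟪x, N⟫) * 1 = 2 * (1 + ⟪x, N⟫) := mul_one _
        _ < T * (2 * hRad 1 N x * (1 + ⟪x, N⟫)) := h8
        _ = 2 * (1 + ⟪x, N⟫) * (T * hRad 1 N x) := by ring
    exact lt_of_mul_lt_mul_left h9 (by linarith)
  obtain ⟨W, hW2, hW⟩ := hC
  have hle : Module.finrank ℝ W ≤ nlow F x (hRad 1 N x)⁻¹ := by
    refine Spec_le n hn F hF x hgx (hRad 1 N x)⁻¹ (inv_nonneg.2 h4.le) W ?_ ?_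
    · intro a ha
      by_cases ha0 : a = 0
      · rw [ha0, inner_zero_right]
      · have h10 := (hW a ha ha0).1
        rw [hF1] at h10
        rw [← hN]
        rcases mul_eq_zero.1 h10 with h | h
        · exact absurd h hg0.ne'
        · exact h
    · intro a ha ha0
      obtain ⟨h10, h11⟩ := hW a ha ha0
      have h12 : ⟪N, a⟫ = 0 := by
        rw [hF1] at h10
        rcases mul_eq_zero.1 h10 with h | h
        · exact absurd h hg0.ne'
        · exact h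
      rw [level_form F hF x _ (by rw [← hN, real_inner_comm]; exact h12), ← hgd]
      rw [hF1, ← hq] at h11
      have h13 : ⟪N, x - R' • w⟫ = -(T * q / 2) := by
        rw [hT]
        field_simp
        try ring
      rw [h13] at h11
      have h15 : 0 < ‖a‖ ^ 2 := by
        have := norm_pos_iff.2 ha0
        positivity
      have h16 : fderiv ℝ (fderiv ℝ F) x a a < -(g * T * ‖a‖ ^ 2) := by
        have : fderiv ℝ (fderiv ℝ F) x a a * q < -(g * T * ‖a‖ ^ 2) * q := by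
          calc fderiv ℝ (fderiv ℝ F) x a a * q < 2 * (g * -(T * q / 2)) * ‖a‖ ^ 2 := h11
            _ = -(g * T * ‖a‖ ^ 2) * q := by ring
        exact lt_of_mul_lt_mul_right this hq0.le
      have h17 : g⁻¹ * fderiv ℝ (fderiv ℝ F) x a a < -T * ‖a‖ ^ 2 := by
        rw [inv_mul_lt_iff₀ hg0]
        linarith
      refine h17.trans ?_
      have := mul_lt_mul_of_pos_right hρ h15
      linarith
  rw [hW2] at hle
  exact absurd (hle.trans hlow) (by norm_num)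

/-- The conformal form of the facing pair theorem contains the theorem on hypersurfaces with at
most one hyperbolic principal curvature less than `-1` near an ideal point. -/
theorem hyp_noFaceC {n : ℕ} (hn : Module.finrank ℝ V = n + 1) (F : V → ℝ) (hF : ContDiff ℝ ∞ F)
    (hb : ∀ x, F x ≤ 0 → ‖x‖ < 1) (hreg : ∀ x, F x = 0 → gradient F x ≠ 0) (w : V)
    (hw : ‖w‖ = 1) (δ : ℝ) (hδ : 0 < δ)
    (hcurv : ∀ x, F x = 0 → ‖hGau 1 (nrm F x) x - w‖ < δ →
      nlow F x (hRad 1 (nrm F x) x)⁻¹ ≤ 1) : ∃ w' : V, 0 < F w' ∧ NoFaceC F w' w := by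
  have hbd : Bornology.IsBounded {x : V | F x ≤ 0} :=
    isBounded_iff_forall_norm_le.2 ⟨1, fun x hx => (hb x hx).le⟩
  have hcp : IsCompact {x : V | F x ≤ 0} :=
    Metric.isCompact_of_isClosed_isBounded (isClosed_le hF.continuous continuous_const) hbd
  obtain ⟨R0, hR0, hR0R, hr⟩ : ∃ R0 : ℝ, 0 ≤ R0 ∧ R0 < 1 ∧ ∀ x, F x ≤ 0 → ‖x‖ ≤ R0 := by
    rcases Set.eq_empty_or_nonempty {x : V | F x ≤ 0} with he | hne
    · refine ⟨0, le_rfl, one_pos, fun x hx => ?_⟩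
      have : x ∈ {x : V | F x ≤ 0} := hx
      rw [he] at this
      exact absurd this (notMem_empty x)
    · obtain ⟨x0, hx0, hmax⟩ := hcp.exists_isMaxOn hne continuous_norm.continuousOn
      exact ⟨‖x0‖, norm_nonneg _, hb x0 hx0, fun x hx => hmax hx⟩
  obtain ⟨R', h1, h2, hsmall⟩ := hy_pole hR0 hR0R hδ
  have hR' : 0 < R' := hR0.trans_lt h1
  obtain ⟨δ1, hδ1, hnum⟩ := hNum (V := V) hR0 h1 h2
  have hFw : 0 < F (R' • w) := by
    by_contra h
    have h3 := hr _ (not_lt.1 h)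
    rw [norm_smul, hw, mul_one, Real.norm_of_nonneg hR'.le] at h3
    linarith
  refine ⟨R' • w, hFw, fun x hx y _ hxw _ => ?_⟩
  exfalso
  have hsub : C21 F (R' • w) ⊆ {x | F x = 0} := fun z hz => hz.1
  have hzc : IsClosed {x : V | F x = 0} := isClosed_eq hF.continuous continuous_const
  have hx0 : F x = 0 := closure_minimal hsub hzc hx
  have hcont : ContinuousWithinAt (cNrm F (R' • w)) (C21 F (R' • w)) x :=
    (cNrm_continuousOn hF hreg hFw.ne' x hx0).mono hsub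
  have hmem := hcont.mem_closure_image hx
  obtain ⟨_, ⟨z, hz, rfl⟩, hdist⟩ := Metric.mem_closure_iff.1 hmem δ1 hδ1
  have h3 := hyp_noC21 hn F hF hreg hR0 h1 h2 hr hw hδ hnum hsmall hcurv hz.1 hz.2.1
  rw [hxw, dist_comm, dist_eq_norm, sub_neg_eq_add] at hdist
  exact absurd hdist (not_lt.2 h3)

end Pool.Schoen
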