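import Pool.Agent.H.MP_6c077c_gt.F2.Defs
import Pool.Agent.H.MP_6c077c_gt.Gd.NearStarW

/-! Weights on facing pairs of points with exactly two negative principal curvatures. -/

set_option autoImplicit false

namespace Pool.Schoen

open Filter Set Metric MeasureTheory
open scoped Topology RealInnerProductSpace ContDiff ENNReal

variable {V : Type*} [NormedAddCommGroup V] [InnerProductSpace ℝ V] [FiniteDimensional ℝ V]

/-- Points with a unit tangent vector on which the second derivative is nonnegative. -/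
def nsP (F : V → ℝ) : Set V :=
  {x | F x = 0 ∧ ∃ b : V, ‖b‖ = 1 ∧ fderiv ℝ F x b = 0 ∧ 0 ≤ fderiv ℝ (fderiv ℝ F) x b b}

theorem nsP_closed (F : V → ℝ) (hF : ContDiff ℝ ∞ F) (hK : IsCompact {x | F x = 0}) :
    IsClosed (nsP F) := by
  have c1 : Continuous (fderiv ℝ F) := hF.continuous_fderiv (by simp)
  have c2 : Continuous (fderiv ℝ (fderiv ℝ F)) :=
    (hF.fderiv_right (m := ∞) (by simp)).continuous_fderiv (by simp)
  have hcl : IsClosed {p : V × V | F p.1 = 0 ∧ ‖p.2‖ = 1 ∧ fderiv ℝ F p.1 p.2 = 0 ∧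
      0 ≤ fderiv ℝ (fderiv ℝ F) p.1 p.2 p.2} := by
    have k1 : IsClosed {p : V × V | F p.1 = 0} :=
      isClosed_eq (hF.continuous.comp continuous_fst) continuous_const
    have k2 : IsClosed {p : V × V | ‖p.2‖ = 1} :=
      isClosed_eq continuous_snd.norm continuous_const
    have k3 : IsClosed {p : V × V | fderiv ℝ F p.1 p.2 = 0} :=
      isClosed_eq ((c1.comp continuous_fst).clm_apply continuous_snd) continuous_const
    have k4 : IsClosed {p : V × V | 0 ≤ fderiv ℝ (fderiv ℝ F) p.1 p.2 p.2} :=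
      isClosed_le continuous_const
        (((c2.comp continuous_fst).clm_apply continuous_snd).clm_apply continuous_snd)
    exact k1.inter (k2.inter (k3.inter k4))
  have hcp : IsCompact {p : V × V | F p.1 = 0 ∧ ‖p.2‖ = 1 ∧ fderiv ℝ F p.1 p.2 = 0 ∧
      0 ≤ fderiv ℝ (fderiv ℝ F) p.1 p.2 p.2} := by
    refine (hK.prod (isCompact_sphere (0 : V) 1)).of_isClosed_subset hcl ?_
    rintro p ⟨h1, h2, -⟩
    exact ⟨h1, mem_sphere_zero_iff_norm.2 h2⟩
  have h5 := (hcp.image continuous_fst).isClosed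
  convert h5 using 1
  ext x
  constructor
  · rintro ⟨hx, b, h⟩
    exact ⟨(x, b), ⟨hx, h⟩, rfl⟩
  · rintro ⟨⟨y, b⟩, ⟨hy, h⟩, rfl⟩
    exact ⟨hy, b, h⟩

theorem M21_subset (F : V → ℝ) : M21 F ⊆ nsC F ∩ nsP F := by
  rintro x ⟨hx, h2, u, hu0, hu1, hu2⟩
  refine ⟨M2_subset_nsC F ⟨hx, h2⟩, hx, ‖u‖⁻¹ • u, norm_smul_inv_norm hu0, ?_, ?_⟩
  · rw [map_smul, hu1, smul_zero]
  · rw [map_smul, map_smul, smul_apply, smul_eq_mul, smul_eq_mul]
    have := norm_nonneg u
    positivity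

/-- Where the curvature is not zero, not all curvatures are negative. -/
theorem nneg_lt_of_nsP (n : ℕ) (hn : Module.finrank ℝ V = n + 1) (F : V → ℝ)
    (hF : ContDiff ℝ ∞ F) {x : V} (hx : x ∈ nsP F) (hg : gradient F x ≠ 0)
    (hK : gaussK F x ≠ 0) : nneg F x + 1 ≤ n := by
  obtain ⟨hx0, b, hb, hdb, hle⟩ := hx
  have hnr : ‖nrm F x‖ = 1 := norm_nrm F x hg
  have he : ‖-nrm F x‖ = 1 := by rw [norm_neg, hnr]
  have hI : Inward F (-nrm F x) x := by
    refine ⟨hx0, ‖gradient F x‖, norm_pos_iff.2 hg, ?_⟩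
    rw [smul_neg, neg_neg, nrm, smul_smul, mul_inv_cancel₀ (norm_ne_zero_iff.2 hg), one_smul]
  obtain ⟨N, P, hS, hk⟩ := idx_of_gaussK n hn F hF _ he x hI hK
  have hfr := hS.finrank he
  rw [hk, hn] at hfr
  by_contra hcon
  have hP0 : Module.finrank ℝ P = 0 := by omega
  have hP : P = ⊥ := Submodule.finrank_eq_zero.1 hP0
  have hbe : ⟪b, -nrm F x⟫ = 0 := by
    have h1 : ⟪gradient F x, b⟫ = 0 := by
      rw [gradient, InnerProductSpace.toDual_symm_apply]
      exact hdb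
    rw [inner_neg_right, nrm, real_inner_smul_right, real_inner_comm, h1, mul_zero, neg_zero]
  obtain ⟨p, hp, q, hq, hpq⟩ := hS.span b hbe
  rw [hP, Submodule.mem_bot] at hq
  rw [hq, add_zero] at hpq
  have hb0 : b ≠ 0 := by
    rintro rfl
    rw [norm_zero] at hb
    exact zero_ne_one hb
  have := hS.neg b (by rw [hpq]; exact hp) hb0
  linarith

variable [MeasurableSpace V] [BorelSpace V]

/-- Weights on the facing pairs of points with exactly two negative curvatures. -/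
theorem noFace21_of_weight (hdim : Module.finrank ℝ V = 4) (F : V → ℝ) (hF : ContDiff ℝ ∞ F)
    (hreg : ∀ x, F x = 0 → gradient F x ≠ 0) (hK : IsCompact {x | F x = 0})
    (w : V → ℝ≥0∞) (hw : Measurable w)
    (hpair : ∀ x y, F x = 0 → F y = 0 → gaussK F x ≠ 0 → gaussK F y ≠ 0 → nneg F x = 2 →
      nneg F y = 2 → nrm F x = -nrm F y → 0 < ⟪nrm F y, x - y⟫ → 1 ≤ w x + w y)
    (hint : 2 * ∫⁻ x in {x | F x = 0 ∧ nneg F x = 2},
      w x * ENNReal.ofReal |gaussK F x| ∂μH[3] < μH[3] (sphere (0 : V) 1)) :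
    ∃ e : V, ‖e‖ = 1 ∧ NoFace21 F e := by
  have hCc : IsClosed (nsC F ∩ nsP F) := (nsC_closed F hF hK).inter (nsP_closed F hF hK)
  have hnn : ∀ x ∈ nsC F ∩ nsP F, gaussK F x ≠ 0 → nneg F x = 2 := by
    intro x hx hK0
    have h1 := two_le_nneg_of_nsC 3 hdim F hF hx.1 (hreg x hx.1.1) hK0
    have h2 := nneg_lt_of_nsP 3 hdim F hF hx.2 (hreg x hx.1.1) hK0
    omega
  have hsub : {x | x ∈ nsC F ∩ nsP F ∧ gaussK F x ≠ 0} ⊆ {x | F x = 0 ∧ nneg F x = 2} :=
    fun x hx => ⟨hx.1.1.1, hnn x hx.1 hx.2⟩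
  obtain ⟨e, he, hNF⟩ := nsw_exists 3 hdim F hF hreg hK (nsC F ∩ nsP F) hCc
    (fun x hx => hx.1.1) w hw
    (fun x hx y hy hKx hKy hxy hpos => hpair x y hx.1.1 hy.1.1 hKx hKy (hnn x hx hKx)
      (hnn y hy hKy) hxy hpos) (by
      refine lt_of_le_of_lt ?_ hint
      rw [Nat.cast_ofNat]
      gcongr)
  have hcl : closure (M21 F) ⊆ nsC F ∩ nsP F := closure_minimal (M21_subset F) hCc
  exact ⟨e, he, fun x hx y hy hnx hny => hNF x (hcl hx) y (hcl hy) hnx hny⟩

/-- Weights on the facing pairs, seen from outside, of points with exactly one negative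
curvature. -/
theorem noFace21_neg_of_weight (hdim : Module.finrank ℝ V = 4) (F : V → ℝ) (hF : ContDiff ℝ ∞ F)
    (hreg : ∀ x, F x = 0 → gradient F x ≠ 0) (hK : IsCompact {x | F x = 0})
    (w : V → ℝ≥0∞) (hw : Measurable w)
    (hpair : ∀ x y, F x = 0 → F y = 0 → gaussK F x ≠ 0 → gaussK F y ≠ 0 → nneg F x = 1 →
      nneg F y = 1 → nrm F x = -nrm F y → ⟪nrm F y, x - y⟫ < 0 → 1 ≤ w x + w y)
    (hint : 2 * ∫⁻ x in {x | F x = 0 ∧ nneg F x = 1},
      w x * ENNReal.ofReal |gaussK F x| ∂μH[3] < μH[3] (sphere (0 : V) 1)) :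
    ∃ e : V, ‖e‖ = 1 ∧ NoFace21 (fun x => -F x) e := by
  have hset : {x | -F x = 0} = {x | F x = 0} := by
    ext x
    exact neg_eq_zero
  have hgr : ∀ x, gradient (fun y => -F y) x = -gradient F x := by
    intro x
    unfold gradient
    rw [fderiv_fun_neg, map_neg]
  have hnr : ∀ x, nrm (fun y => -F y) x = -nrm F x := by
    intro x
    unfold nrm
    rw [hgr, norm_neg, smul_neg]
  have hregG : ∀ x, -F x = 0 → gradient (fun y => -F y) x ≠ 0 := by
    intro x hx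
    rw [hgr, neg_ne_zero]
    exact hreg x (neg_eq_zero.1 hx)
  have hKG : ∀ x, gaussK (fun y => -F y) x ≠ 0 → gaussK F x ≠ 0 := by
    intro x hx h0
    apply hx
    rw [← abs_eq_zero, gaussK_neg 3 hdim F hF x, h0, abs_zero]
  have hnng : ∀ x, -F x = 0 → gaussK (fun y => -F y) x ≠ 0 → nneg (fun y => -F y) x = 2 →
      nneg F x = 1 := by
    intro x hx hK0 h2
    have h3 := nneg_neg 3 hdim F hF x (hreg x (neg_eq_zero.1 hx)) (hKG x hK0)
    omega
  have hCc : IsClosed (nsC (fun y => -F y) ∩ nsP (fun y => -F y)) :=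
    (nsC_closed _ hF.neg (by rw [hset]; exact hK)).inter
      (nsP_closed _ hF.neg (by rw [hset]; exact hK))
  have hnn : ∀ x ∈ nsC (fun y => -F y) ∩ nsP (fun y => -F y), gaussK (fun y => -F y) x ≠ 0 →
      nneg F x = 1 := by
    intro x hx hK0
    have h1 := two_le_nneg_of_nsC 3 hdim _ hF.neg hx.1 (hregG x hx.1.1) hK0
    have h2 := nneg_lt_of_nsP 3 hdim _ hF.neg hx.2 (hregG x hx.1.1) hK0
    exact hnng x hx.1.1 hK0 (by omega)
  obtain ⟨e, he, hNF⟩ := nsw_exists 3 hdim (fun y => -F y) hF.neg hregG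
    (by rw [hset]; exact hK) (nsC (fun y => -F y) ∩ nsP (fun y => -F y)) hCc
    (fun x hx => hx.1.1) w hw
    (fun x hx y hy hKx hKy hxy hpos => by
      rw [hnr, hnr, neg_inj] at hxy
      rw [hnr, inner_neg_left] at hpos
      exact hpair x y (neg_eq_zero.1 hx.1.1) (neg_eq_zero.1 hy.1.1) (hKG x hKx) (hKG y hKy)
        (hnn x hx hKx) (hnn y hy hKy) hxy (by linarith)) (by
      refine lt_of_le_of_lt ?_ hint
      rw [Nat.cast_ofNat]
      have e1 : (fun x => w x * ENNReal.ofReal |gaussK (fun y => -F y) x|) =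
          fun x => w x * ENNReal.ofReal |gaussK F x| := by
        funext x
        rw [gaussK_neg 3 hdim F hF x]
      rw [e1]
      have hsub : {x | x ∈ nsC (fun y => -F y) ∩ nsP (fun y => -F y) ∧
          gaussK (fun y => -F y) x ≠ 0} ⊆ {x | F x = 0 ∧ nneg F x = 1} :=
        fun x hx => ⟨neg_eq_zero.1 hx.1.1.1, hnn x hx.1 hx.2⟩
      gcongr)
  have hcl : closure (M21 fun y => -F y) ⊆ nsC (fun y => -F y) ∩ nsP (fun y => -F y) :=
    closure_minimal (M21_subset _) hCc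
  exact ⟨e, he, fun x hx y hy hnx hny => hNF x (hcl hx) y (hcl hy) hnx hny⟩

end Pool.Schoen
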