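import Pool.Agent.H.MP_6c077c_gt.F2.Curv

/-! Weights on parallel pairs: points with the same normal, one with one negative curvature, the
other with at least two. -/

set_option autoImplicit false

namespace Pool.Schoen

open Filter Set Metric MeasureTheory
open scoped Topology RealInnerProductSpace ContDiff ENNReal

/-- A layer cake inequality for two functions. -/
theorem nsw_layer2 {α : Type*} [MeasurableSpace α] (m m' : Measure α) (f g : α → ℝ)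
    (hf : Measurable f) (hg : Measurable g) (hf0 : ∀ x, 0 ≤ f x) (hg0 : ∀ x, 0 ≤ g x) (v : ℝ≥0∞)
    (h : ∀ t : ℝ, 0 < t → t < 1 → v ≤ m {x | t ≤ f x} + m' {x | 1 - t ≤ g x}) :
    v ≤ ∫⁻ x, ENNReal.ofReal (f x) ∂m + ∫⁻ x, ENNReal.ofReal (g x) ∂m' := by
  obtain ⟨φ, hφ⟩ : ∃ φ : ℝ → ℝ≥0∞, ∀ t, φ t = m {x | t ≤ f x} := ⟨_, fun _ => rfl⟩
  obtain ⟨ψ, hψ⟩ : ∃ ψ : ℝ → ℝ≥0∞, ∀ t, ψ t = m' {x | t ≤ g x} := ⟨_, fun _ => rfl⟩
  have hanti : Antitone φ := by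
    intro s t hst
    rw [hφ, hφ]
    exact measure_mono fun x hx => hst.trans hx
  have hφm : Measurable φ := hanti.measurable
  have h1 : ∀ t ∈ Ioo (0 : ℝ) 1, v ≤ φ t + ψ (1 - t) := by
    intro t ht
    rw [hφ, hψ]
    exact h t ht.1 ht.2
  have h2 : ∫⁻ t in Ioo (0 : ℝ) 1, φ t ≤ ∫⁻ x, ENNReal.ofReal (f x) ∂m := by
    rw [lintegral_eq_lintegral_meas_le m (Eventually.of_forall hf0) hf.aemeasurable]
    simp only [← hφ]
    exact lintegral_mono_set fun t ht => ht.1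
  have h2' : ∫⁻ t in Ioo (0 : ℝ) 1, ψ t ≤ ∫⁻ x, ENNReal.ofReal (g x) ∂m' := by
    rw [lintegral_eq_lintegral_meas_le m' (Eventually.of_forall hg0) hg.aemeasurable]
    simp only [← hψ]
    exact lintegral_mono_set fun t ht => ht.1
  have h3 : ∫⁻ t in Ioo (0 : ℝ) 1, ψ (1 - t) = ∫⁻ t in Ioo (0 : ℝ) 1, ψ t := by
    have h4 := (Measure.measurePreserving_sub_left (volume : Measure ℝ)
      1).setLIntegral_comp_preimage_emb
      (Homeomorph.subLeft (1 : ℝ)).measurableEmbedding ψ (Ioo (0 : ℝ) 1)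
    have h5 : (fun t : ℝ => 1 - t) ⁻¹' Ioo (0 : ℝ) 1 = Ioo (0 : ℝ) 1 := by
      ext t
      simp only [mem_preimage, mem_Ioo]
      constructor <;> rintro ⟨h6, h7⟩ <;> constructor <;> linarith
    rw [h5] at h4
    exact h4
  calc v = ∫⁻ _ in Ioo (0 : ℝ) 1, v := by
        rw [setLIntegral_const, Real.volume_Ioo, sub_zero, ENNReal.ofReal_one, mul_one]
    _ ≤ ∫⁻ t in Ioo (0 : ℝ) 1, (φ t + ψ (1 - t)) :=
        setLIntegral_mono' measurableSet_Ioo h1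
    _ = (∫⁻ t in Ioo (0 : ℝ) 1, φ t) + ∫⁻ t in Ioo (0 : ℝ) 1, ψ t := by
        rw [lintegral_add_left hφm, h3]
    _ ≤ _ := add_le_add h2 h2'

variable {V : Type*} [NormedAddCommGroup V] [InnerProductSpace ℝ V] [FiniteDimensional ℝ V]
  [MeasurableSpace V] [BorelSpace V]

/-- Weights on parallel pairs. -/
theorem nsw_par (n : ℕ) (hn : Module.finrank ℝ V = n + 1) (F : V → ℝ) (hF : ContDiff ℝ ∞ F)
    (hreg : ∀ x, F x = 0 → gradient F x ≠ 0) (hK : IsCompact {x | F x = 0})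
    (C D : Set V) (hC : IsClosed C) (hD : IsClosed D) (hCM : C ⊆ {x | F x = 0})
    (hDM : D ⊆ {x | F x = 0}) (w : V → ℝ≥0∞) (hw : Measurable w)
    (hpair : ∀ x ∈ C, ∀ y ∈ D, gaussK F x ≠ 0 → gaussK F y ≠ 0 → nrm F x = nrm F y →
      ⟪nrm F x, y⟫ ≤ ⟪nrm F x, x⟫ → 1 ≤ w x + w y)
    (hall : ∀ e : V, ‖e‖ = 1 → ∃ x ∈ C, ∃ y ∈ D, nrm F x = e ∧ nrm F y = e ∧ ⟪e, y⟫ ≤ ⟪e, x⟫) :
    μH[(n : ℝ)] (sphere (0 : V) 1) ≤
      ∫⁻ x in {x | x ∈ C ∧ gaussK F x ≠ 0}, w x * ENNReal.ofReal |gaussK F x| ∂μH[(n : ℝ)] +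
      ∫⁻ x in {x | x ∈ D ∧ gaussK F x ≠ 0}, w x * ENNReal.ofReal |gaussK F x| ∂μH[(n : ℝ)] := by
  have hF2 : ContDiff ℝ 2 F := hF.of_le (by norm_cast)
  have hgc : ContinuousOn (gaussK F) {x | F x = 0} := fun x hx =>
    (gaussK_continuousAt F hF2 x (hreg x hx)).continuousWithinAt
  obtain ⟨Z, hZdef⟩ : ∃ Z, Z = {x | F x = 0} ∩ gaussK F ⁻¹' {0} := ⟨_, rfl⟩
  have hZ0 : IsClosed Z := by
    rw [hZdef]
    exact hgc.preimage_isClosed_of_isClosed hK.isClosed isClosed_singleton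
  obtain ⟨ν, hν⟩ : ∃ ν : Set V → ℝ≥0∞, ∀ U, ν U = ∫⁻ x in U, ENNReal.ofReal |gaussK F x|
    ∂μH[((n : ℕ) : ℝ)] := ⟨_, fun _ => rfl⟩
  have harea : ∀ U : Set V, MeasurableSet U → U ⊆ {x | F x = 0} →
      μH[((n : ℕ) : ℝ)] (nrm F '' U) ≤ ν U := by
    intro U hU hUM
    rw [hν]
    exact area_le n hn F hF2 hreg hK U hU hUM
  have hZν : ν Z = 0 := by
    have e3 : ν Z ≤ ∫⁻ x in Z, 0 ∂μH[((n : ℕ) : ℝ)] := by
      rw [hν]
      refine setLIntegral_mono' hZ0.measurableSet ?_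
      intro x hx
      rw [hZdef] at hx
      have hx' : gaussK F x = 0 := hx.2
      rw [hx']
      simp
    simpa using e3
  have hNZ : μH[((n : ℕ) : ℝ)] (nrm F '' Z) = 0 := by
    have h1 := harea Z hZ0.measurableSet (by rw [hZdef]; exact inter_subset_left)
    rw [hZν] at h1
    simpa using h1
  -- the truncated real weight
  obtain ⟨f, hf⟩ : ∃ f : V → ℝ, ∀ x, f x = (min (w x) 1).toReal := ⟨_, fun _ => rfl⟩
  have hne : ∀ x, min (w x) 1 ≠ ⊤ := fun x =>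
    ((min_le_right _ _).trans_lt ENNReal.one_lt_top).ne
  have hfm : Measurable f := by
    have : f = fun x => (min (w x) 1).toReal := funext hf
    rw [this]
    exact (hw.min measurable_const).ennreal_toReal
  have hf0 : ∀ x, 0 ≤ f x := fun x => by rw [hf]; exact ENNReal.toReal_nonneg
  have hfw : ∀ x, ENNReal.ofReal (f x) ≤ w x := fun x => by
    rw [hf, ENNReal.ofReal_toReal (hne x)]
    exact min_le_left _ _
  have hfp : ∀ x y, 1 ≤ w x + w y → 1 ≤ f x + f y := by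
    intro x y h
    rw [hf, hf, ← ENNReal.toReal_add (hne x) (hne y), ← ENNReal.toReal_one]
    refine ENNReal.toReal_mono (ENNReal.add_ne_top.2 ⟨hne x, hne y⟩) ?_
    rcases le_total (w x) 1 with h1 | h1
    · rcases le_total (w y) 1 with h2 | h2
      · rwa [min_eq_left h1, min_eq_left h2]
      · rw [min_eq_right h2]
        exact le_add_self
    · rw [min_eq_right h1]
      exact le_self_add
  have hlevel : ∀ t : ℝ, MeasurableSet {x | t ≤ f x} := fun t =>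
    measurableSet_le measurable_const hfm
  -- the measures with density `|K|`
  have key : ∀ C' : Set V, IsClosed C' → C' ⊆ {x | F x = 0} → ∃ m : Measure V,
      (∀ A : Set V, MeasurableSet A → m A = ν (A ∩ C')) ∧
      ∫⁻ x, ENNReal.ofReal (f x) ∂m ≤ ∫⁻ x in {x | x ∈ C' ∧ gaussK F x ≠ 0},
        w x * ENNReal.ofReal |gaussK F x| ∂μH[((n : ℕ) : ℝ)] := by
    intro C' hC' hC'M
    have hgc' : ContinuousOn (gaussK F) C' := hgc.mono hC'M
    have hgm : AEMeasurable (fun x => ENNReal.ofReal |gaussK F x|)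
        (μH[((n : ℕ) : ℝ)].restrict C') :=
      ((hgc'.abs).aemeasurable hC'.measurableSet).ennreal_ofReal
    refine ⟨(μH[((n : ℕ) : ℝ)].restrict C').withDensity
      (fun x => ENNReal.ofReal |gaussK F x|), ?_, ?_⟩
    · intro A hA
      rw [withDensity_apply _ hA, Measure.restrict_restrict hA, hν]
    · rw [lintegral_withDensity_eq_lintegral_mul₀ hgm hfm.ennreal_ofReal.aemeasurable]
      have hZ0' : IsClosed (C' ∩ gaussK F ⁻¹' {0}) :=
        hgc'.preimage_isClosed_of_isClosed hC' isClosed_singleton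
      have h1 : ∫⁻ x in C', ENNReal.ofReal |gaussK F x| * ENNReal.ofReal (f x)
          ∂μH[((n : ℕ) : ℝ)] ≤
          ∫⁻ x in {x | x ∈ C' ∧ gaussK F x ≠ 0}, ENNReal.ofReal |gaussK F x| *
            ENNReal.ofReal (f x) ∂μH[((n : ℕ) : ℝ)] +
          ∫⁻ x in C' ∩ gaussK F ⁻¹' {0}, ENNReal.ofReal |gaussK F x| * ENNReal.ofReal (f x)
          ∂μH[((n : ℕ) : ℝ)] := by
        refine le_trans (lintegral_mono_set ?_) (lintegral_union_le _ _ _)
        intro x hx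
        by_cases h : gaussK F x = 0
        · exact Or.inr ⟨hx, h⟩
        · exact Or.inl ⟨hx, h⟩
      have h2 : ∫⁻ x in C' ∩ gaussK F ⁻¹' {0}, ENNReal.ofReal |gaussK F x| *
          ENNReal.ofReal (f x) ∂μH[((n : ℕ) : ℝ)] = 0 := by
        have e3 : ∫⁻ x in C' ∩ gaussK F ⁻¹' {0}, ENNReal.ofReal |gaussK F x| *
            ENNReal.ofReal (f x) ∂μH[((n : ℕ) : ℝ)] ≤
            ∫⁻ x in C' ∩ gaussK F ⁻¹' {0}, 0 ∂μH[((n : ℕ) : ℝ)] := by
          refine setLIntegral_mono' hZ0'.measurableSet ?_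
          intro x hx
          have hx' : gaussK F x = 0 := hx.2
          rw [hx']
          simp
        simpa using e3
      rw [h2, add_zero] at h1
      refine h1.trans (lintegral_mono fun x => ?_)
      rw [mul_comm]
      gcongr
      exact hfw x
  obtain ⟨m, hm1, hm2⟩ := key C hC hCM
  obtain ⟨m', hm1', hm2'⟩ := key D hD hDM
  have hkey := nsw_layer2 m m' f f hfm hfm hf0 hf0 (μH[((n : ℕ) : ℝ)] (sphere (0 : V) 1)) (by
    intro t ht0 ht1
    rw [hm1 _ (hlevel t), hm1' _ (hlevel (1 - t))]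
    have hcov : sphere (0 : V) 1 ⊆ nrm F '' ({x | t ≤ f x} ∩ C) ∪
        (nrm F '' ({x | 1 - t ≤ f x} ∩ D) ∪ nrm F '' Z) := by
      intro e he
      obtain ⟨x, hx, y, hy, hnx, hny, hlt⟩ := hall e (by simpa using he)
      by_cases hKx : gaussK F x = 0
      · refine Or.inr (Or.inr ⟨x, ?_, hnx⟩)
        rw [hZdef]
        exact ⟨hCM hx, hKx⟩
      by_cases hKy : gaussK F y = 0
      · refine Or.inr (Or.inr ⟨y, ?_, hny⟩)
        rw [hZdef]
        exact ⟨hDM hy, hKy⟩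
      have h1 := hfp x y (hpair x hx y hy hKx hKy (by rw [hnx, hny]) (by rw [hnx]; exact hlt))
      by_cases h2 : t ≤ f x
      · exact Or.inl ⟨x, ⟨h2, hx⟩, hnx⟩
      · refine Or.inr (Or.inl ⟨y, ⟨?_, hy⟩, hny⟩)
        show 1 - t ≤ f y
        linarith [not_le.1 h2]
    refine (measure_mono hcov).trans ((measure_union_le _ _).trans ?_)
    have h3 := harea _ ((hlevel t).inter hC.measurableSet) (fun x hx => hCM hx.2)
    have h4 := harea _ ((hlevel (1 - t)).inter hD.measurableSet) (fun x hx => hDM hx.2)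
    refine add_le_add h3 ((measure_union_le _ _).trans ?_)
    rw [hNZ, add_zero]
    exact h4)
  exact hkey.trans (add_le_add hm2 hm2')

omit [MeasurableSpace V] [BorelSpace V] in
/-- If some direction has no parallel pair in the compact sets `C`, `D`, then an open set of
directions has none. -/
theorem nsw_open (F : V → ℝ) (hF : ContDiff ℝ ∞ F) (hreg : ∀ x, F x = 0 → gradient F x ≠ 0)
    (hK : IsCompact {x | F x = 0}) (C D : Set V) (hC : IsClosed C) (hD : IsClosed D)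
    (hCM : C ⊆ {x | F x = 0}) (hDM : D ⊆ {x | F x = 0}) (e : V)
    (he : ∀ x ∈ C, ∀ y ∈ D, nrm F x = e → nrm F y = e → ⟪e, x⟫ < ⟪e, y⟫) :
    ∃ U : Set V, IsOpen U ∧ e ∈ U ∧ ∀ n ∈ U, ∀ x ∈ C, ∀ y ∈ D, nrm F x = n → nrm F y = n →
      ⟪n, x⟫ < ⟪n, y⟫ := by
  have hCc : IsCompact C := hK.of_isClosed_subset hC hCM
  have hDc : IsCompact D := hK.of_isClosed_subset hD hDM
  have hn : ContinuousOn (nrm F) {x | F x = 0} := nrm_continuousOn hF hreg
  have h1 : ContinuousOn (fun p : V × V => nrm F p.1) (C ×ˢ D) :=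
    hn.comp continuousOn_fst fun p hp => hCM hp.1
  have h2 : ContinuousOn (fun p : V × V => nrm F p.2) (C ×ˢ D) :=
    hn.comp continuousOn_snd fun p hp => hDM hp.2
  have h3 : ContinuousOn (fun p : V × V => (nrm F p.1 - nrm F p.2,
      ⟪nrm F p.1, p.1⟫ - ⟪nrm F p.1, p.2⟫)) (C ×ˢ D) :=
    (h1.sub h2).prodMk ((h1.inner continuousOn_fst).sub (h1.inner continuousOn_snd))
  have h4 : IsCompact ((C ×ˢ D) ∩ (fun p : V × V => (nrm F p.1 - nrm F p.2,
      ⟪nrm F p.1, p.1⟫ - ⟪nrm F p.1, p.2⟫)) ⁻¹' (({0} : Set V) ×ˢ Ici (0 : ℝ))) :=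
    (hCc.prod hDc).of_isClosed_subset (h3.preimage_isClosed_of_isClosed (hC.prod hD)
      (isClosed_singleton.prod isClosed_Ici)) inter_subset_left
  have h5 := (h4.image_of_continuousOn (h1.mono inter_subset_left)).isClosed
  refine ⟨_, h5.isOpen_compl, ?_, ?_⟩
  · rintro ⟨⟨x, y⟩, ⟨⟨hx, hy⟩, hz⟩, hxe⟩
    obtain ⟨hz1, hz2⟩ := hz
    have hz1' : nrm F x - nrm F y = 0 := hz1
    have hz2' : 0 ≤ ⟪nrm F x, x⟫ - ⟪nrm F x, y⟫ := hz2
    have hxe' : nrm F x = e := hxe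
    have hye : nrm F y = e := by rw [← sub_eq_zero.1 hz1', hxe']
    have h6 := he x hx y hy hxe' hye
    rw [hxe'] at hz2'
    linarith
  · intro n hnU x hx y hy hnx hny
    by_contra hcon
    push Not at hcon
    refine hnU ⟨(x, y), ⟨⟨hx, hy⟩, ?_, ?_⟩, hnx⟩
    · show nrm F x - nrm F y = 0
      rw [hnx, hny, sub_self]
    · show 0 ≤ ⟪nrm F x, x⟫ - ⟪nrm F x, y⟫
      rw [hnx]
      linarith

/-- Weights on parallel pairs: an open set of directions without parallel pairs. -/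
theorem nsw_par_exists (n : ℕ) (hn : Module.finrank ℝ V = n + 1) (F : V → ℝ) (hF : ContDiff ℝ ∞ F)
    (hreg : ∀ x, F x = 0 → gradient F x ≠ 0) (hK : IsCompact {x | F x = 0})
    (C D : Set V) (hC : IsClosed C) (hD : IsClosed D) (hCM : C ⊆ {x | F x = 0})
    (hDM : D ⊆ {x | F x = 0}) (w : V → ℝ≥0∞) (hw : Measurable w)
    (hpair : ∀ x ∈ C, ∀ y ∈ D, gaussK F x ≠ 0 → gaussK F y ≠ 0 → nrm F x = nrm F y →
      ⟪nrm F x, y⟫ ≤ ⟪nrm F x, x⟫ → 1 ≤ w x + w y)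
    (hint : ∫⁻ x in {x | x ∈ C ∧ gaussK F x ≠ 0}, w x * ENNReal.ofReal |gaussK F x|
        ∂μH[(n : ℝ)] +
      ∫⁻ x in {x | x ∈ D ∧ gaussK F x ≠ 0}, w x * ENNReal.ofReal |gaussK F x| ∂μH[(n : ℝ)] <
        μH[(n : ℝ)] (sphere (0 : V) 1)) :
    ∃ (e : V) (U : Set V), ‖e‖ = 1 ∧ IsOpen U ∧ e ∈ U ∧ ∀ n ∈ U, ∀ x ∈ C, ∀ y ∈ D,
      nrm F x = n → nrm F y = n → ⟪n, x⟫ < ⟪n, y⟫ := by
  have h1 : ∃ e : V, ‖e‖ = 1 ∧ ∀ x ∈ C, ∀ y ∈ D, nrm F x = e → nrm F y = e →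
      ⟪e, x⟫ < ⟪e, y⟫ := by
    by_contra hcon
    push Not at hcon
    exact absurd (nsw_par n hn F hF hreg hK C D hC hD hCM hDM w hw hpair hcon) (not_le.2 hint)
  obtain ⟨e, he, h2⟩ := h1
  obtain ⟨U, hU, heU, h3⟩ := nsw_open F hF hreg hK C D hC hD hCM hDM e h2
  exact ⟨e, U, he, hU, heU, h3⟩

end Pool.Schoen
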