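import Pool.Agent.H.MP_6c077c_gt.F2.Defs
import Pool.Agent.H.MP_6c077c_gt.F2.StartK
import Pool.Agent.H.MP_6c077c_gt.Gd.Facing

/-! Theorem F2: preparations for the closure form. -/

set_option autoImplicit false

namespace Pool.Schoen

open Filter Set Metric
open scoped Topology RealInnerProductSpace ContDiff

variable {V : Type*} [NormedAddCommGroup V] [InnerProductSpace ℝ V] [FiniteDimensional ℝ V]

/-- The condition `NoFace21` in the form with an epsilon. -/
theorem noFace21_eps (F : V → ℝ) (hF : ContDiff ℝ ∞ F) (hb : Bornology.IsBounded {x | F x = 0})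
    (hreg : ∀ x, F x = 0 → gradient F x ≠ 0) {e : V} (h : NoFace21 F e) {ε : ℝ} (hε : 0 < ε) :
    ∃ η : ℝ, 0 < η ∧ ∀ x ∈ M21 F, ∀ y ∈ M21 F, ‖nrm F x + e‖ < η → ‖nrm F y - e‖ < η →
      ⟪e, x⟫ ≤ ⟪e, y⟫ + ε := by
  haveI : ProperSpace V := FiniteDimensional.proper ℝ V
  have hZ : IsClosed {x | F x = 0} := isClosed_eq hF.continuous continuous_const
  have hsub : closure (M21 F) ⊆ {x | F x = 0} := closure_minimal (fun x hx => hx.1) hZ
  have hKc : IsCompact (closure (M21 F)) :=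
    isCompact_of_isClosed_isBounded isClosed_closure (hb.subset hsub)
  have hn := nrm_continuousOn hF hreg
  have hB : IsCompact ((closure (M21 F) ×ˢ closure (M21 F)) ∩
      {p : V × V | ⟪e, p.2⟫ + ε ≤ ⟪e, p.1⟫}) := by
    refine (hKc.prod hKc).inter_right (isClosed_le ?_ ?_)
    · fun_prop
    · fun_prop
  have hφ : ContinuousOn (fun p : V × V => max ‖nrm F p.1 + e‖ ‖nrm F p.2 - e‖)
      ((closure (M21 F) ×ˢ closure (M21 F)) ∩ {p : V × V | ⟪e, p.2⟫ + ε ≤ ⟪e, p.1⟫}) := by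
    refine ContinuousOn.sup ?_ ?_
    · exact ((hn.comp continuousOn_fst (fun p hp => hsub hp.1.1)).add continuousOn_const).norm
    · exact ((hn.comp continuousOn_snd (fun p hp => hsub hp.1.2)).sub continuousOn_const).norm
  rcases ((closure (M21 F) ×ˢ closure (M21 F)) ∩
      {p : V × V | ⟪e, p.2⟫ + ε ≤ ⟪e, p.1⟫}).eq_empty_or_nonempty with h0 | h0
  · refine ⟨1, one_pos, fun x hx y hy _ _ => ?_⟩
    by_contra hlt
    push Not at hlt
    have : (x, y) ∈ (closure (M21 F) ×ˢ closure (M21 F)) ∩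
        {p : V × V | ⟪e, p.2⟫ + ε ≤ ⟪e, p.1⟫} :=
      ⟨⟨subset_closure hx, subset_closure hy⟩, hlt.le⟩
    rw [h0] at this
    exact notMem_empty _ this
  · obtain ⟨p, hp, hmin⟩ := hB.exists_isMinOn h0 hφ
    refine ⟨max ‖nrm F p.1 + e‖ ‖nrm F p.2 - e‖, ?_, fun x hx y hy h1 h2 => ?_⟩
    · rw [lt_max_iff]
      by_contra hcon
      push Not at hcon
      obtain ⟨h1, h2⟩ := hcon
      have e1 : nrm F p.1 = -e := by
        have := norm_le_zero_iff.1 h1
        exact eq_neg_of_add_eq_zero_left this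
      have e2 : nrm F p.2 = e := by
        have := norm_le_zero_iff.1 h2
        exact sub_eq_zero.1 this
      have h3 := h p.1 hp.1.1 p.2 hp.1.2 e1 e2
      have h4 : ⟪e, p.2⟫ + ε ≤ ⟪e, p.1⟫ := hp.2
      linarith
    · by_contra hlt
      push Not at hlt
      have h3 : (x, y) ∈ (closure (M21 F) ×ˢ closure (M21 F)) ∩
          {p : V × V | ⟪e, p.2⟫ + ε ≤ ⟪e, p.1⟫} :=
        ⟨⟨subset_closure hx, subset_closure hy⟩, hlt.le⟩
      have h4 : max ‖nrm F p.1 + e‖ ‖nrm F p.2 - e‖ ≤ max ‖nrm F x + e‖ ‖nrm F y - e‖ := hmin h3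
      exact absurd (max_lt h1 h2) (not_lt.2 h4)

/-- A homotopy carries the zero set. -/
theorem zero_hom {f g : V → ℝ} (h : Hom f g) (hf : ContDiff ℝ ∞ f) (hg : ContDiff ℝ ∞ g)
    (hc : IsConnected {x | f x = 0}) (hl : LiftS {x | f x = 0}) :
    IsConnected {x | g x = 0} ∧ LiftS {x | g x = 0} := by
  obtain ⟨φ, ψ, h1, h2, h3, h4, -, h6, -⟩ := h.carries hf hg
  have hD : Dif ψ φ := ⟨h2, h1, h4, h3⟩
  have h8 : {x | g x = 0} = {x | ψ x ∈ {y | f y = 0}} := by
    ext x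
    constructor
    · intro hx
      have h9 : x ∈ φ '' {x | f x = 0} := by
        rw [h6]
        exact hx
      obtain ⟨y, hy, rfl⟩ := h9
      show ψ (φ y) ∈ {y | f y = 0}
      rw [h3]
      exact hy
    · intro hx
      have h9 : x ∈ {x | g x = 0} := by
        rw [← h6]
        exact ⟨ψ x, hx, h4 x⟩
      exact h9
  rw [h8]
  exact ⟨hD.isConnected hc, hD.liftS hl⟩

/-- A horizontal point of index two in dimension four is in `M21`. -/
theorem m21_of_idx (hV : Module.finrank ℝ V = 4) {F : V → ℝ} {e : V} (he : ‖e‖ = 1) {x : V}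
    (hx : Crit F e x) (h : Idx F e x 2) : x ∈ M21 F := by
  obtain ⟨N, P, hS, hN⟩ := h
  have hP : Module.finrank ℝ P = 1 := by
    have := hS.finrank he
    omega
  refine ⟨hx.1, ⟨N, hN, fun u hu hu0 => ⟨hx.2 u (hS.hN u hu), hS.neg u hu hu0⟩⟩, ?_⟩
  have hne : P ≠ ⊥ := by
    rintro rfl
    rw [finrank_bot] at hP
    exact zero_ne_one hP
  obtain ⟨b, hb, hb0⟩ := P.exists_mem_ne_zero_of_ne_bot hne
  exact ⟨b, hb0, hx.2 b (hS.hP b hb), hS.pos b hb hb0⟩

end Pool.Schoen
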