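import Pool.Agent.H.MP_6c077c_gt.IxB.LiftBall
import Pool.Agent.H.MP_6c077c_gt.Ix.LiftA

/-! Theorem F2: filling. -/

set_option autoImplicit false

namespace Pool.Schoen

open Filter Set
open scoped Topology RealInnerProductSpace ContDiff

variable {V : Type*} [NormedAddCommGroup V] [InnerProductSpace ℝ V] [FiniteDimensional ℝ V]

/-- If circle maps lift on a closed set `Z` which contains the frontier of the closed set `X ⊇ Z`,
they lift on `X`. PROOF. `u` on `X`, `v` a lift on `Z`, `g` a continuous extension of `v` to `V`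
(`ContinuousMap.exists_restrict_eq`), `u' = u * exp (-i g)` on `X`, `1` outside of `X`: continuous, as `u' = 1`
on `Z`. `liftS_univ`. -/
theorem LiftS.fill {Z X : Set V} (hZ : IsClosed Z) (hX : IsClosed X) (hZX : Z ⊆ X)
    (hfr : frontier X ⊆ Z) (hl : LiftS Z) : LiftS X := by
  classical
  intro u hu hu1
  obtain ⟨v, hv, hv1⟩ := hl u (hu.mono hZX) fun x hx => hu1 x (hZX hx)
  obtain ⟨g, hg⟩ := ContinuousMap.exists_restrict_eq hZ (⟨Z.restrict v, hv.restrict⟩ : C(Z, ℝ))
  have hgv : ∀ x ∈ Z, g x = v x := by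
    intro x hx
    have := DFunLike.congr_fun hg ⟨x, hx⟩
    exact this
  obtain ⟨w, hw⟩ : ∃ w : V → ℂ, w = fun x =>
      if x ∈ X then u x * Complex.exp (-(g x) * Complex.I) else 1 := ⟨_, rfl⟩
  have hwX : ∀ x ∈ X, w x = u x * Complex.exp (-(g x) * Complex.I) := by
    intro x hx
    rw [hw]
    exact if_pos hx
  have hwZ : ∀ x ∈ Z, w x = 1 := by
    intro x hx
    rw [hwX x (hZX hx), hv1 x hx, hgv x hx, ← Complex.exp_add, neg_mul, add_neg_cancel,
      Complex.exp_zero]
  have hwo : ∀ x, x ∉ X → w x = 1 := by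
    intro x hx
    rw [hw]
    exact if_neg hx
  have hc1 : ContinuousOn w X := by
    have h1 : ContinuousOn (fun x => u x * Complex.exp (-(g x) * Complex.I)) X := by
      refine hu.mul (Continuous.continuousOn ?_)
      have := g.continuous
      fun_prop
    exact h1.congr hwX
  have hc2 : ContinuousOn w (closure Xᶜ) := by
    refine (continuousOn_const (c := (1 : ℂ))).congr ?_
    intro x hx
    by_cases h : x ∈ X
    · refine hwZ x (hfr ?_)
      rw [frontier_eq_closure_inter_closure]
      exact ⟨subset_closure h, hx⟩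
    · exact hwo x h
  have hwc : ContinuousOn w univ := by
    have h1 : (univ : Set V) = X ∪ closure Xᶜ := by
      refine (Set.eq_univ_of_forall fun x => ?_).symm
      by_cases h : x ∈ X
      · exact Or.inl h
      · exact Or.inr (subset_closure h)
    rw [h1]
    exact hc1.union_of_isClosed hc2 hX isClosed_closure
  have hw1 : ∀ x ∈ (univ : Set V), ‖w x‖ = 1 := by
    intro x _
    by_cases h : x ∈ X
    · rw [hwX x h, norm_mul, hu1 x h, one_mul]
      have : -((g x : ℝ) : ℂ) * Complex.I = ((-(g x) : ℝ) : ℂ) * Complex.I := by push_cast; ring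
      rw [this]
      exact Complex.norm_exp_ofReal_mul_I _
    · rw [hwo x h, norm_one]
  obtain ⟨V0, hV0, hV1⟩ := liftS_univ V w hwc hw1
  refine ⟨fun x => V0 x + g x, (hV0.mono (subset_univ X)).add g.continuous.continuousOn,
    fun x hx => ?_⟩
  have h1 := hV1 x (mem_univ x)
  rw [hwX x hx] at h1
  have h2 : u x = u x * Complex.exp (-(g x) * Complex.I) * Complex.exp ((g x) * Complex.I) := by
    rw [mul_assoc, ← Complex.exp_add, neg_mul, neg_add_cancel, Complex.exp_zero, mul_one]
  rw [h2, h1, ← Complex.exp_add]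
  congr 1
  push_cast
  ring

end Pool.Schoen
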