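import Pool.Agent.H.MP_6c077c_gt.Al.Cls2
import Pool.Agent.H.MP_6c077c_gt.Al.Rd1
import Pool.Agent.H.MP_6c077c_gt.Al.Planar

/-! Level cuts in dimension four: the class of the induction. -/

set_option autoImplicit false

namespace Pool.Schoen

open Filter Set
open scoped Topology RealInnerProductSpace ContDiff

variable {V : Type*} [NormedAddCommGroup V] [InnerProductSpace ℝ V] [FiniteDimensional ℝ V]

/-- The class of the induction: the level `c` is regular, the slice of the body at this level has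
the lifting property, the points with normal `-e` and index `2` are below the level, those with
normal `e` and index `2` are above it; `S` are the markers of the slice. -/
structure K2 (f : V → ℝ) (e : V) (c : ℝ) (S : Finset V) : Prop where
  mo : Mo f e
  reg : ∀ x, Crit f e x → ⟪e, x⟫ ≠ c
  conn : IsConnected {x | f x ≤ 0}
  out : IsConnected {x | 0 ≤ f x}
  lift : LiftS {x | f x = 0}
  sl : LiftS {w : (ℝ ∙ e)ᗮ | f ((w : V) + c • e) ≤ 0}
  up : ∀ x, Inward f e x → Idx f e x 2 → ⟪e, x⟫ < c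
  dn : ∀ x, Inward f (-e) x → Idx f e x 2 → c < ⟪e, x⟫
  mark : Mark f e {c} S

variable {f g : V → ℝ} {e : V} {c : ℝ} {S : Finset V}

theorem Inward.crit (he : ‖e‖ = 1) {x : V} (h : Inward f e x) : Crit f e x := by
  obtain ⟨h0, l, -, hl⟩ := h
  refine crit_of_vert (l := -l) h0 ?_
  rw [hl, neg_smul]

theorem Inward.crit_neg (he : ‖e‖ = 1) {x : V} (h : Inward f (-e) x) : Crit f e x := by
  obtain ⟨h0, l, -, hl⟩ := h
  refine crit_of_vert (l := l) h0 ?_
  rw [hl, smul_neg, neg_neg]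

/-- Both sides have the lifting property. -/
theorem K2.lift_sides (h : K2 f e c S) : LiftS {x | f x ≤ 0} ∧ LiftS {x | 0 ≤ f x} := by
  have hc := h.mo.smooth.continuous
  have h1 : IsClosed {x | f x ≤ 0} := isClosed_le hc continuous_const
  have h2 : IsClosed {x | 0 ≤ f x} := isClosed_le continuous_const hc
  have h3 : {x | f x ≤ 0} ∪ {x | 0 ≤ f x} = univ := by
    ext x
    simp only [mem_union, mem_ofPred_eq, mem_univ, iff_true]
    exact le_total _ _
  have h4 : {x | f x ≤ 0} ∩ {x | 0 ≤ f x} = {x | f x = 0} := by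
    ext x
    simp only [mem_inter_iff, mem_ofPred_eq]
    exact ⟨fun h => le_antisymm h.1 h.2, fun h => ⟨h.le, h.ge⟩⟩
  constructor
  · refine LiftS.of_union h1 h2 ?_ ?_
    · rw [h3]
      exact liftS_univ V
    · rw [h4]
      exact h.lift
  · refine LiftS.of_union h2 h1 ?_ ?_
    · rw [union_comm, h3]
      exact liftS_univ V
    · rw [inter_comm, h4]
      exact h.lift

theorem K2.topE (h : K2 f e c S) : TopE f := ⟨h.conn, h.out, Or.inl h.lift_sides.1⟩

/-- Invariance under a homotopy to a function with the same germs at the horizontal zeros and the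
same slice. -/
theorem K2.hom (he : ‖e‖ = 1) (h : K2 f e c S) (hfg : Hom f g) (hg : ContDiff ℝ ∞ g)
    (hc : ∀ x, Crit g e x → g =ᶠ[𝓝 x] f) (hz : ∀ x, ⟪e, x⟫ = c → (g x = 0 ↔ f x = 0))
    (hz' : ∀ x, ⟪e, x⟫ = c → (g x ≤ 0 ↔ f x ≤ 0)) : K2 g e c S := by
  have hmo : Mo g e := by
    refine h.mo.transfer hg hfg.good_right.bdd (fun x hx h0 => ?_) hc
    refine hfg.good_right.regular hg x hx ?_
    rw [gradient, LinearIsometryEquiv.map_eq_zero_iff] at h0
    exact h0
  have htop := h.topE.of_hom hfg h.mo.smooth hg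
  have hlift : LiftS {x | g x = 0} := by
    obtain ⟨φ, ψ, h1, h2, h3, h4, -, h6, -⟩ := hfg.carries h.mo.smooth hg
    have hD : Dif ψ φ := ⟨h2, h1, h4, h3⟩
    have h8 : {x | g x = 0} = {x | ψ x ∈ {y | f y = 0}} := by
      ext x
      constructor
      · intro hx
        have h9 : x ∈ φ '' {x | f x = 0} := by
          rw [h6]
          exact hx
        obtain ⟨y, hy, rfl⟩ := h9
        show ψ (φ y) ∈ {y | f y = 0}
        rw [h3]
        exact hy
      · intro hx
        have h9 : x ∈ {x | g x = 0} := by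
          rw [← h6]
          exact ⟨ψ x, hx, h4 x⟩
        exact h9
    rw [h8]
    exact hD.liftS h.lift
  have hlev : ∀ w : (ℝ ∙ e)ᗮ, ⟪e, (w : V) + c • e⟫ = c := by
    intro w
    rw [inner_add_right, BaseDef_inner, real_inner_smul_right, real_inner_self_eq_norm_sq, he]
    ring
  refine ⟨hmo, fun x hx => h.reg x (hx.congr (hc x hx)), htop.conn, htop.out, hlift, ?_,
    fun x hx hi => ?_, fun x hx hi => ?_, h.mark.congr fun x hx => hz x hx⟩
  · have h1 : {w : (ℝ ∙ e)ᗮ | g ((w : V) + c • e) ≤ 0} = {w : (ℝ ∙ e)ᗮ | f ((w : V) + c • e) ≤ 0} := by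
      ext w
      exact hz' _ (hlev w)
    rw [h1]
    exact h.sl
  · have h1 := hc x (hx.crit he)
    exact h.up x (hx.congr' h1) (hi.congr' h1)
  · have h1 := hc x (hx.crit_neg he)
    exact h.dn x (hx.congr' h1) (hi.congr' h1)

/-- Invariance under diffeomorphisms of the hyperplane. -/
theorem K2.comp_dif [DecidableEq V] (he : ‖e‖ = 1) (h : K2 f e c S) {φ ψ : (ℝ ∙ e)ᗮ → (ℝ ∙ e)ᗮ}
    (hφ : Dif φ ψ) : K2 (fun x => f (extH e φ x)) e c (S.image (extH e ψ)) := by
  have hΦ : Dif (extH e φ) (extH e ψ) := hφ.extH he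
  have hh : ∀ x, ⟪e, extH e φ x⟫ = ⟪e, x⟫ := extH_height he φ
  have hh' : ∀ x, ⟪e, extH e ψ x⟫ = ⟪e, x⟫ := extH_height he ψ
  have hs : ContDiff ℝ ∞ fun x => f (extH e φ x) := h.mo.smooth.comp hΦ.smooth
  have hcr : ∀ x, Crit (fun y => f (extH e φ y)) e x ↔ Crit f e (extH e φ x) := by
    intro x
    constructor
    · intro hx
      obtain ⟨l, hl⟩ := hx.vert he
      exact crit_of_vert hx.1 ((gradient_comp_height h.mo.smooth hΦ hh x l).1 hl)
    · intro hx
      obtain ⟨l, hl⟩ := hx.vert he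
      exact crit_of_vert (f := fun y => f (extH e φ y)) hx.1
        ((gradient_comp_height h.mo.smooth hΦ hh x l).2 hl)
  have hid : ∀ x, Crit (fun y => f (extH e φ y)) e x → ∀ k, Idx (fun y => f (extH e φ y)) e x k →
      Idx f e (extH e φ x) k := by
    intro x hx k hk
    obtain ⟨l, hl⟩ := hx.vert he
    have h1 := idx_comp_height hs hΦ.symm hh' (extH e φ x) l (k := k) (by
      simp only [hΦ.left]
      exact hl) (by simpa only [hΦ.left] using hk)
    simpa only [hΦ.right] using h1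
  refine ⟨⟨hs, hΦ.bounded h.mo.bdd, fun x hx => hΦ.reg h.mo.smooth (h.mo.reg _ hx),
    fun x hx => ?_⟩, fun x hx => ?_, hΦ.isConnected h.conn, hΦ.isConnected h.out,
    hΦ.liftS h.lift, ?_, fun x hx hi => ?_, fun x hx hi => ?_,
    h.mark.transport hΦ.symm.continuous hΦ.left hΦ.right hh⟩
  · obtain ⟨k, hk⟩ := h.mo.nd _ ((hcr x).1 hx)
    obtain ⟨l, hl⟩ := ((hcr x).1 hx).vert he
    exact ⟨k, idx_comp_height h.mo.smooth hΦ hh x l hl hk⟩
  · rw [← hh]
    exact h.reg _ ((hcr x).1 hx)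
  · have h1 : {w : (ℝ ∙ e)ᗮ | f (extH e φ ((w : V) + c • e)) ≤ 0} =
        {w | φ w ∈ {w : (ℝ ∙ e)ᗮ | f ((w : V) + c • e) ≤ 0}} := by
      ext w
      have h2 : hpr e ((w : V) + c • e) = w := by
        have h3 : hpr e ((w : V) + c • e) = hprL e (w : V) + c • hprL e e := by
          rw [← hprL_apply, map_add, map_smul]
        rw [h3, hprL_apply, hprL_apply, BaseDef_coe, BaseDef_self, smul_zero, add_zero]
      have h4 : ⟪e, (w : V) + c • e⟫ = c := by
        rw [inner_add_right, BaseDef_inner, real_inner_smul_right, real_inner_self_eq_norm_sq, he]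
        ring
      show f (((φ (hpr e ((w : V) + c • e)) : (ℝ ∙ e)ᗮ) : V) + ⟪e, (w : V) + c • e⟫ • e) ≤ 0 ↔
        f ((φ w : V) + c • e) ≤ 0
      rw [h2, h4]
    show LiftS {w : (ℝ ∙ e)ᗮ | f (extH e φ ((w : V) + c • e)) ≤ 0}
    rw [h1]
    exact hφ.liftS h.sl
  · rw [← hh]
    exact h.up _ ((inward_comp_height h.mo.smooth hΦ hh x).1 hx) (hid x (hx.crit he) 2 hi)
  · rw [← hh]
    exact h.dn _ ((inward_comp_height' h.mo.smooth hΦ hh x).1 hx) (hid x (hx.crit_neg he) 2 hi)

end Pool.Schoen
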