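import Pool.Agent.H.MP_6c077c_gt.Al.STop
import Pool.Agent.H.MP_6c077c_gt.Al.PartsA
import Pool.Agent.H.MP_6c077c_gt.Al.PieceRet

/-! Theorem F2: definitions for the parts of the smooth cut. -/

set_option autoImplicit false

namespace Pool.Schoen

open Filter Set
open scoped Topology RealInnerProductSpace ContDiff

variable {V : Type*} [NormedAddCommGroup V] [InnerProductSpace ℝ V]

/-- `G` is a smooth function of the part `A` of the smooth cut. -/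
structure PartG (f : V → ℝ) (e q : V) (d R : ℝ) (A : Set V) (G : V → ℝ) : Prop where
  smooth : ContDiff ℝ ∞ G
  le : ∀ x, G x ≤ 0 ↔ x ∈ A ∧ scut f e q d R x ≤ 0
  zero : ∀ x, G x = 0 ↔ x ∈ A ∧ scut f e q d R x = 0
  near : ∀ x, G x = 0 → G =ᶠ[𝓝 x] scut f e q d R

/-- The cap `{scut = 0}` in the lower half of the neck. -/
def capZ (f : V → ℝ) (e q : V) (d R : ℝ) : Set V :=
  {x | -(3 / 2 * d) ≤ ⟪e, x - q⟫ ∧ ⟪e, x - q⟫ ≤ 0 ∧ ‖orth e (x - q)‖ ≤ 1 ∧ scut f e q d R x = 0}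

/-- The part of the zero set outside of the neck. -/
def outZ (f : V → ℝ) (e q : V) (d R : ℝ) (A : Set V) : Set V :=
  {x | f x = 0 ∧ x ∈ A ∧
    (⟪e, x - q⟫ ≤ -(3 / 2 * d) ∨ 3 / 2 * d ≤ ⟪e, x - q⟫ ∨ R ≤ ‖orth e (x - q)‖)}

/-- The rim, a sphere of dimension `finrank V - 2`. -/
def rimZ (e q : V) (d : ℝ) : Set V := {x | ⟪e, x - q⟫ = -(3 / 2 * d) ∧ ‖orth e (x - q)‖ = 1}

end Pool.Schoen
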