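import Pool.Agent.H.MP_6c077c_gt.F2.K2
import Pool.Agent.H.MP_6c077c_gt.Al.StepN

/-! Level cuts in dimension four: normal form at a slice component which is a ball. -/

set_option autoImplicit false

namespace Pool.Schoen

open Filter Set
open scoped Topology RealInnerProductSpace ContDiff

/-- A ball is carried to the unit ball by a diffeomorphism with compact support. -/
theorem ball_dif {V : Type*} [NormedAddCommGroup V] [InnerProductSpace ℝ V]
    [FiniteDimensional ℝ V] (G : V → ℝ) (hD : ContDiff ℝ ∞ G) (hB : IsBall G) :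
    ∃ φ ψ : V → V, Dif φ ψ ∧ (∃ R : ℝ, ∀ w, R ≤ ‖w‖ → φ w = w) ∧
      (∀ w, G (φ w) ≤ 0 ↔ ‖w‖ ≤ 1) ∧ (∀ w, G (φ w) = 0 ↔ ‖w‖ = 1) := by
  have hs : ContDiff ℝ ∞ fun x : V => ‖x‖ ^ 2 - 1 := (contDiff_norm_sq ℝ).sub contDiff_const
  obtain ⟨φ, ψ, h1, h2, h3, h4, h5, h6, h7⟩ := (Hom.carries hB hD hs).symm
  refine ⟨φ, ψ, ⟨h1, h2, h3, h4⟩, h5, fun w => ?_, fun w => ?_⟩
  · constructor
    · intro h
      have h8 : φ w ∈ φ '' {x : V | ‖x‖ ^ 2 - 1 ≤ 0} := by
        rw [h7]
        exact h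
      obtain ⟨y, hy, hyw⟩ := h8
      have h9 : y = w := by rw [← h3 y, hyw, h3 w]
      rw [h9] at hy
      have h10 : ‖w‖ ^ 2 - 1 ≤ 0 := hy
      nlinarith [norm_nonneg w]
    · intro h
      have h8 : φ w ∈ {x | G x ≤ 0} := by
        rw [← h7]
        refine ⟨w, ?_, rfl⟩
        show ‖w‖ ^ 2 - 1 ≤ 0
        nlinarith [norm_nonneg w]
      exact h8
  · constructor
    · intro h
      have h8 : φ w ∈ φ '' {x : V | ‖x‖ ^ 2 - 1 = 0} := by
        rw [h6]
        exact h
      obtain ⟨y, hy, hyw⟩ := h8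
      have h9 : y = w := by rw [← h3 y, hyw, h3 w]
      rw [h9] at hy
      have h10 : ‖w‖ ^ 2 - 1 = 0 := hy
      nlinarith [norm_nonneg w]
    · intro h
      have h8 : φ w ∈ {x | G x = 0} := by
        rw [← h6]
        refine ⟨w, ?_, rfl⟩
        show ‖w‖ ^ 2 - 1 = 0
        rw [h]
        norm_num
      exact h8

/-- A ball becomes the unit ball; the two functions have the same signs near it. -/
theorem ball_normal {V : Type*} [NormedAddCommGroup V] [InnerProductSpace ℝ V]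
    [FiniteDimensional ℝ V] (g : V → ℝ) (hg : ContDiff ℝ ∞ g)
    (hreg : ∀ w, g w = 0 → gradient g w ≠ 0) (G : V → ℝ) (hD : Dom G) (hB : IsBall G)
    (h1 : ∀ w, G w ≤ 0 → g w ≤ 0) (h2 : ∀ w, G w = 0 → G =ᶠ[𝓝 w] g) :
    ∃ (φ ψ : V → V) (d : ℝ), Dif φ ψ ∧ (∃ R : ℝ, ∀ w, R ≤ ‖w‖ → φ w = w) ∧ 0 < d ∧
      (∀ w, G (φ w) ≤ 0 ↔ ‖w‖ ≤ 1) ∧ (∀ w, ‖w‖ < 1 + d → (g (φ w) ≤ 0 ↔ ‖w‖ ≤ 1)) ∧
      (∀ w, ‖w‖ < 1 + d → (g (φ w) = 0 ↔ ‖w‖ = 1)) ∧
      (∀ w, ‖w‖ = 1 → fderiv ℝ (fun y => g (φ y)) w ≠ 0) := by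
  obtain ⟨φ, ψ, hφ, hR, hle, heq⟩ := ball_dif G hD.smooth hB
  have : ProperSpace V := FiniteDimensional.proper ℝ V
  -- negative values
  have hneg : ∀ w, G w < 0 → g w < 0 := by
    intro w hw
    refine lt_of_le_of_ne (h1 w hw.le) fun h0 => ?_
    have hgr := hreg w h0
    have ho : ∀ᶠ y in 𝓝 w, g y ≤ 0 := by
      filter_upwards [(hD.smooth.continuous.tendsto w).eventually (gt_mem_nhds hw)] with y hy
      exact h1 y hy.le
    have hmax : IsLocalMax g w := by
      filter_upwards [ho] with y hy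
      rw [h0]
      exact hy
    apply hgr
    rw [gradient, hmax.fderiv_eq_zero, map_zero]
  -- near the circle
  obtain ⟨d, hd, hdU⟩ : ∃ d : ℝ, 0 < d ∧ ∀ w, 1 ≤ ‖w‖ → ‖w‖ < 1 + d → G (φ w) = g (φ w) := by
    have hU : IsOpen {w | ∀ᶠ y in 𝓝 (φ w), G y = g y} :=
      (isOpen_setOfPred_eventually_nhds).preimage hφ.continuous
    have hK : IsCompact (Metric.sphere (0 : V) 1) := isCompact_sphere _ _
    have hKU : Metric.sphere (0 : V) 1 ⊆ {w | ∀ᶠ y in 𝓝 (φ w), G y = g y} := by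
      intro w hw
      exact h2 (φ w) ((heq w).2 (by simpa using hw))
    obtain ⟨d, hd, hdU⟩ := hK.exists_thickening_subset_open hU hKU
    refine ⟨d, hd, fun w hw1 hw2 => ?_⟩
    have h3 : w ∈ Metric.thickening d (Metric.sphere (0 : V) 1) := by
      rw [Metric.mem_thickening_iff]
      refine ⟨‖w‖⁻¹ • w, ?_, ?_⟩
      · rw [mem_sphere_zero_iff_norm, norm_smul, norm_inv, norm_norm]
        exact inv_mul_cancel₀ (by linarith : ‖w‖ ≠ 0)
      · rw [dist_eq_norm]
        have e1 : w - ‖w‖⁻¹ • w = (1 - ‖w‖⁻¹) • w := by rw [sub_smul, one_smul]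
        have h4 : ‖w‖⁻¹ ≤ 1 := inv_le_one_of_one_le₀ hw1
        rw [e1, norm_smul, Real.norm_of_nonneg (by linarith)]
        have h5 : ‖w‖⁻¹ * ‖w‖ = 1 := inv_mul_cancel₀ (by linarith : ‖w‖ ≠ 0)
        nlinarith
    exact (hdU h3 : ∀ᶠ y in 𝓝 (φ w), G y = g y).self_of_nhds
  refine ⟨φ, ψ, d, hφ, hR, hd, hle, ?_, ?_, ?_⟩
  · intro w hw
    refine ⟨fun h => ?_, fun h => h1 _ ((hle w).2 h)⟩
    by_contra hc
    push Not at hc
    have h3 := hdU w hc.le hw
    exact not_le.2 hc ((hle w).1 (by rw [h3]; exact h))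
  · intro w hw
    constructor
    · intro h
      by_cases hc : ‖w‖ < 1
      · have h3 : G (φ w) < 0 := by
          refine lt_of_le_of_ne ((hle w).2 hc.le) fun h0 => ?_
          exact hc.ne ((heq w).1 h0)
        exact absurd h (hneg _ h3).ne
      · push Not at hc
        have h3 := hdU w hc hw
        exact (heq w).1 (by rw [h3]; exact h)
    · intro h
      have h3 := (h2 (φ w) ((heq w).2 h)).self_of_nhds
      rw [← h3]
      exact (heq w).2 h
  · intro w hw h0
    have h3 : g (φ w) = 0 := by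
      have h3 := (h2 (φ w) ((heq w).2 hw)).self_of_nhds
      rw [← h3]
      exact (heq w).2 hw
    have h4 : HasFDerivAt (fun y => g (φ y)) ((fderiv ℝ g (φ w)).comp (fderiv ℝ φ w)) w :=
      HasFDerivAt.comp (g := g) w
        ((hg.differentiable (by simp)).differentiableAt.hasFDerivAt) (hφ.has w)
    rw [h4.fderiv] at h0
    apply hreg _ h3
    have h5 : fderiv ℝ g (φ w) = 0 := by
      ext v
      have h6 := DFunLike.congr_fun h0 (fderiv ℝ ψ (φ w) v)
      rw [ContinuousLinearMap.comp_apply, hφ.fderiv_right] at h6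
      exact h6
    rw [gradient, h5, map_zero]

variable {V : Type*} [NormedAddCommGroup V] [InnerProductSpace ℝ V] [FiniteDimensional ℝ V]

omit [FiniteDimensional ℝ V] in
private theorem StepM_neg {f : V → ℝ} : (Rd fun x => -f x) → Rd f := by
  intro h
  have h1 := h.neg
  simpa using h1

/-- At a slice component which is a ball there is a straight neck, after an admissible change of the
function. -/
theorem step_m {e : V} (he : ‖e‖ = 1) {f : V → ℝ} {c : ℝ} {S : Finset V} (h : K2 f e c S) {s : ℝ}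
    (hs : s = 1 ∨ s = -1) {k : (ℝ ∙ e)ᗮ → ℝ} (hk : Dom k) (hkb : IsBall k)
    (hk1 : ∀ w, k w ≤ 0 → s * f ((w : V) + c • e) ≤ 0)
    (hk2 : ∀ w, k w = 0 → k =ᶠ[𝓝 w] fun w : (ℝ ∙ e)ᗮ => s * f ((w : V) + c • e)) :
    ∃ (G : V → ℝ) (ζ R : ℝ) (S' : Finset V), (Rd G → Rd f) ∧ S'.card ≤ S.card ∧ K2 G e c S' ∧
      CylN (fun x => s * G x) e (c • e) ζ R := by
  classical
  -- straightening
  have hcr : ∀ x, f x = 0 → ⟪e, x⟫ = c → ∀ l : ℝ, gradient f x ≠ l • e := by
    intro x hx hxc l hl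
    exact h.reg x (crit_of_vert hx hl) hxc
  obtain ⟨F1, Φ1, a, ha, haδ, hF1, hH1, hb1, hr1, -, -, hfar, hlev, hstr, -, hno, hgerm, -⟩ :=
    straighten h.mo.smooth h.mo.bdd h.mo.reg he one_pos hcr
  have hA1 : K2 F1 e c S := by
    refine h.hom he hH1 hF1 (fun x hx => ?_) (fun x hx => by rw [hlev x hx])
      (fun x hx => by rw [hlev x hx])
    obtain ⟨l, hl⟩ := hx.vert he
    exact hgerm x l hx.1 hl
  -- the slice
  obtain ⟨g, hg⟩ : ∃ g, g = slc F1 e c := ⟨_, rfl⟩
  have hgf : ∀ w, g w = f ((w : V) + c • e) := by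
    intro w
    have h1 : ⟪e, (w : V) + c • e⟫ = c := by
      rw [inner_add_right, BaseDef_inner, real_inner_smul_right, real_inner_self_eq_norm_sq, he]
      ring
    rw [hg, ← hlev _ h1]
    rfl
  have hgs : ContDiff ℝ ∞ g := by
    rw [hg]
    exact slc_smooth hF1 e c
  have hno1 : ∀ x, F1 x = 0 → ⟪e, x⟫ = c → ∀ l : ℝ, gradient F1 x ≠ l • e := fun x hx hxc =>
    hno x (by rw [hxc, sub_self, abs_zero]; exact ha.le) hx
  have hgr : ∀ y, g y = 0 → gradient g y ≠ 0 := by
    rw [hg]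
    exact slc_reg hF1 he hno1
  have hgF : ∀ x, |⟪e, x⟫ - c| ≤ a → F1 x = g (hpr e x) := by
    intro x hx
    have h1 : ⟪e, x - (⟪e, x⟫ - c) • e⟫ = c := by
      rw [inner_sub_right, real_inner_smul_right, real_inner_self_eq_norm_sq, he]
      ring
    have h2 : hpr e (x - (⟪e, x⟫ - c) • e) = hpr e x := by
      apply Subtype.ext
      rw [Cy.Cyl_hpr he, Cy.Cyl_hpr he, h1]
      module
    rw [hstr x hx, ← hlev _ h1, ← hpr_slc (f := F1) he h1, h2, hg]
  have hs0 : s ≠ 0 := by rcases hs with h | h <;> rw [h] <;> norm_num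
  have hss : s * s = 1 := by rcases hs with h | h <;> rw [h] <;> norm_num
  have hsgr : ∀ (P : Type _) [NormedAddCommGroup P] [InnerProductSpace ℝ P] [CompleteSpace P]
      (u : P → ℝ) (y : P), gradient (fun z => s * u z) y = s • gradient u y := by
    intro P _ _ _ u y
    have h1 : (fun z => s * u z) = fun z => s • u z := rfl
    have h2 : fderiv ℝ (fun z => s • u z) y = s • fderiv ℝ u y := by
      have h3 : (fun z => s • u z) = s • u := rfl
      rw [h3, fderiv_const_smul_field]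
      rfl
    unfold gradient
    rw [h1, h2, map_smul]
  have hkg : ∀ w, k w = 0 → k =ᶠ[𝓝 w] fun w => s * g w := by
    intro w hw
    filter_upwards [hk2 w hw] with y hy
    rw [hy, hgf]
  -- the normal form of the ball
  obtain ⟨φ, ψ, d₀, hφ, -, hd₀, -, hle, heq, hfd⟩ := ball_normal (fun w => s * g w)
    (contDiff_const.mul hgs) (fun w hw => by
      have hw' : g w = 0 := (mul_eq_zero.1 hw).resolve_left hs0
      rw [hsgr]
      exact smul_ne_zero hs0 (hgr w hw')) k hk hkb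
    (fun w hw => by
      rw [hgf]
      exact hk1 w hw) hkg
  -- transport
  have hΦ : Dif (extH e φ) (extH e ψ) := hφ.extH he
  have hΦh : ∀ x, ⟪e, extH e φ x⟫ = ⟪e, x⟫ := extH_height he φ
  have hA2 : K2 (fun x => F1 (extH e φ x)) e c (S.image (extH e ψ)) := hA1.comp_dif he hφ
  obtain ⟨f1, hf1⟩ : ∃ f1, f1 = fun x => F1 (extH e φ x) := ⟨_, rfl⟩
  rw [← hf1] at hA2
  obtain ⟨f2, hf2⟩ : ∃ f2, f2 = fun x => s * f1 x := ⟨_, rfl⟩
  have hf2g : ∀ x, |⟪e, x⟫ - c| < a → f2 x = s * g (φ (hpr e x)) := by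
    intro x hx
    rw [hf2, hf1]
    show s * F1 (extH e φ x) = s * g (φ (hpr e x))
    rw [hgF (extH e φ x) (by rw [hΦh]; exact hx.le), extH_hpr he]
  have hgφ : ContDiff ℝ ∞ fun w => s * g (φ w) := contDiff_const.mul (hgs.comp hφ.smooth)
  have hf2s : ContDiff ℝ ∞ f2 := by
    rw [hf2]
    exact contDiff_const.mul hA2.mo.smooth
  have hsf : ∀ x, f1 x = s * f2 x := by
    intro x
    rw [hf2]
    show f1 x = s * (s * f1 x)
    rw [← mul_assoc, hss, one_mul]
  have hf2good : Good f2 := by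
    refine good_of_regular hf2s ?_ ?_
    · refine hA2.mo.bdd.subset fun x hx => ?_
      have hx' : f2 x = 0 := hx
      show f1 x = 0
      rw [hsf, hx', mul_zero]
    · intro x hx h0
      have hx' : f1 x = 0 := by rw [hsf, hx, mul_zero]
      refine hA2.mo.reg x hx' ?_
      have h1 : gradient f2 x = 0 := by rw [gradient, h0, map_zero]
      rw [hf2, hsgr] at h1
      exact (smul_eq_zero.1 h1).resolve_left hs0
  obtain ⟨F3, d, hd, -, hF3, hH3, hle3, heq3, hgr3, hgerm3, -, hcyl⟩ :=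
    normal_form hf2s hf2good hgφ ha hd₀ hf2g hle heq hfd
  have hno2 : ∀ x, |⟪e, x⟫ - c| < a → f2 x = 0 → ∀ l : ℝ, gradient f2 x ≠ l • e := by
    intro x hx hx0 l hl
    have hx1 : f1 x = 0 := by rw [hsf, hx0, mul_zero]
    have hx0' : F1 (extH e φ x) = 0 := by
      rw [hf1] at hx1
      exact hx1
    rw [hf2, hsgr, hf1] at hl
    have h2 : gradient (fun y => F1 (extH e φ y)) x = (s⁻¹ * l) • e := by
      rw [mul_smul, ← hl, smul_smul, inv_mul_cancel₀ hs0, one_smul]
    have h1 := (gradient_comp_height hF1 hΦ hΦh x _).1 h2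
    exact hno (extH e φ x) (by rw [hΦh]; exact hx.le) hx0' _ h1
  have hHom : Hom f1 fun x => s * F3 x := by
    rcases hs with h1 | h1
    · subst h1
      have h2 : f2 = f1 := by
        rw [hf2]
        funext x
        exact one_mul _
      rw [h2] at hH3
      simpa only [one_mul] using hH3
    · subst h1
      have h2 : (fun x => -f2 x) = f1 := by
        rw [hf2]
        funext x
        show -(-1 * f1 x) = f1 x
        ring
      have h3 := hH3.neg
      rw [h2] at h3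
      simpa only [neg_one_mul] using h3
  have hA4 : K2 (fun x => s * F3 x) e c (S.image (extH e ψ)) := by
    refine hA2.hom he hHom (contDiff_const.mul hF3) (fun x hx => ?_) (fun x _ => ?_)
      (fun x _ => ?_)
    · obtain ⟨l, hl⟩ := hx.vert he
      have h0 : F3 x = 0 := (mul_eq_zero.1 hx.1).resolve_left hs0
      have h2 : f2 x = 0 := (heq3 x).1 h0
      obtain ⟨μ, hμ, h3⟩ := hgr3 x h2
      have h4 : F3 =ᶠ[𝓝 x] f2 := by
        refine hgerm3 x (Or.inl ?_)
        by_contra hlt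
        push Not at hlt
        refine hno2 x hlt h2 (μ⁻¹ * (s⁻¹ * l)) ?_
        rw [hsgr] at hl
        rw [mul_smul, mul_smul, ← hl, smul_smul s⁻¹, inv_mul_cancel₀ hs0, one_smul, h3, smul_smul,
          inv_mul_cancel₀ hμ.ne', one_smul]
      filter_upwards [h4] with y hy
      rw [hy, ← hsf]
    · constructor
      · intro hx
        have h0 : F3 x = 0 := (mul_eq_zero.1 hx).resolve_left hs0
        rw [hsf, (heq3 x).1 h0, mul_zero]
      · intro hx
        have h0 : f2 x = 0 := by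
          rw [hf2]
          show s * f1 x = 0
          rw [hx, mul_zero]
        show s * F3 x = 0
        rw [(heq3 x).2 h0, mul_zero]
    · have key : ∀ x, (F3 x ≤ 0 ↔ f2 x ≤ 0) ∧ (0 ≤ F3 x ↔ 0 ≤ f2 x) := by
        intro x
        refine ⟨hle3 x, ?_⟩
        constructor
        · intro hx
          rcases hx.eq_or_lt with h0 | h0
          · exact ((heq3 x).1 h0.symm).ge
          · exact (not_le.1 fun hc => absurd ((hle3 x).2 hc) (not_le.2 h0)).le
        · intro hx
          rcases hx.eq_or_lt with h0 | h0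
          · exact ((heq3 x).2 h0.symm).ge
          · exact (not_le.1 fun hc => absurd ((hle3 x).1 hc) (not_le.2 h0)).le
      rw [hsf x]
      rcases hs with h1 | h1
      · subst h1
        simpa only [one_mul] using (key x).1
      · subst h1
        simpa only [neg_one_mul, neg_nonpos] using (key x).2
  have hec : ⟪e, c • e⟫ = c := by
    rw [real_inner_smul_right, real_inner_self_eq_norm_sq, he]
    ring
  refine ⟨fun x => s * F3 x, a / 2, 1 + d, _, fun hR => ?_, Finset.card_image_le, hA4, ?_⟩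
  · have h1 : Rd f1 := Rd.of_hom hHom hR
    rw [hf1] at h1
    have h2 : Rd F1 := (Rd.comp_dif hΦ (f := F1)).1 h1
    exact Rd.of_hom hH1 h2
  · have h1 : (fun x => s * (s * F3 x)) = F3 := by
      funext x
      rw [← mul_assoc, hss, one_mul]
    show CylN (fun x => s * (s * F3 x)) e (c • e) (a / 2) (1 + d)
    rw [h1]
    refine ⟨he, by linarith, by linarith, fun x h1 h2 => ?_⟩
    rw [Cy.Cyl_orth he] at h2 ⊢
    rw [inner_sub_right, hec] at h1
    exact hcyl x h2.le h1

end Pool.Schoen
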