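import Pool.Agent.H.MP_6c077c_gt.F2.Cap
import Pool.Agent.H.MP_6c077c_gt.Al.Cls2
import Pool.Agent.H.MP_6c077c_gt.Al.NoSad

/-! Level cuts in any dimension: the lifting property of the zero sets of the pieces. -/

set_option autoImplicit false

namespace Pool.Schoen

open Filter Set
open scoped Topology RealInnerProductSpace ContDiff

variable {V : Type*} [NormedAddCommGroup V] [InnerProductSpace ℝ V] [FiniteDimensional ℝ V]
variable {f : V → ℝ} {e q : V} {ζ R d : ℝ} {A C : V → ℝ}

/-- A zero of the cut is a zero of one of the parts. -/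
theorem CylN.parts_zero (h : CylN f e q ζ R) (hf : ContDiff ℝ ∞ f)
    (hreg : ∀ x, f x = 0 → gradient f x ≠ 0) (hd : 0 < d) (hdζ : 2 * d ≤ ζ)
    (hA : Continuous A) (hC : Continuous C)
    (hun : ∀ x, scut f e q d R x ≤ 0 ↔ A x ≤ 0 ∨ C x ≤ 0) {x : V} (hx : scut f e q d R x = 0) :
    A x = 0 ∨ C x = 0 := by
  have hs := scut_smooth hf e q d R
  have hcl : x ∈ closure {y | 0 < scut f e q d R y} := by
    have h1 := h.scut_reg hd hdζ hreg x hx
    exact NoSad_closure hs hx h1
  rcases (hun x).1 hx.le with h1 | h1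
  · left
    refine le_antisymm h1 (not_lt.1 fun h2 => ?_)
    have h3 : ∀ᶠ y in 𝓝 x, A y < 0 := hA.continuousAt.eventually_lt_const h2
    rw [mem_closure_iff_frequently] at hcl
    obtain ⟨y, hy1, hy2⟩ := (hcl.and_eventually h3).exists
    have h4 := (hun y).2 (Or.inl hy2.le)
    exact absurd hy1 (not_lt.2 h4)
  · right
    refine le_antisymm h1 (not_lt.1 fun h2 => ?_)
    have h3 : ∀ᶠ y in 𝓝 x, C y < 0 := hC.continuousAt.eventually_lt_const h2
    rw [mem_closure_iff_frequently] at hcl
    obtain ⟨y, hy1, hy2⟩ := (hcl.and_eventually h3).exists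
    have h4 := (hun y).2 (Or.inr hy2.le)
    exact absurd hy1 (not_lt.2 h4)

/-- The lifting property of the zero set of a piece. -/
theorem CylN.zero_lift (h : CylN f e q ζ R) (hn : 4 ≤ Module.finrank ℝ V) (hf : ContDiff ℝ ∞ f)
    (hreg : ∀ x, f x = 0 → gradient f x ≠ 0) (hl : LiftS {x | f x = 0}) (hd : 0 < d)
    (hdζ : 2 * d ≤ ζ) (hA : Continuous A) (hC : Continuous C)
    (hAs : ∀ x, A x = 0 → A =ᶠ[𝓝 x] scut f e q d R) (hCs : ∀ x, C x = 0 → C =ᶠ[𝓝 x] scut f e q d R)
    (hun : ∀ x, scut f e q d R x ≤ 0 ↔ A x ≤ 0 ∨ C x ≤ 0) (hdis : ∀ x, A x ≤ 0 → 0 < C x)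
    (hpA : A (q + (-d) • e) = 0) (hpC : C (q + d • e) = 0) : LiftS {x | A x = 0} := by
  have he := h.he
  have hR := h.hR
  obtain ⟨a, ha, ha2⟩ : ∃ a : ℝ, 0 < a ∧ a ^ 2 = 2 * d ^ 2 :=
    ⟨Real.sqrt 2 * d, by positivity, by rw [mul_pow, Real.sq_sqrt (by norm_num)]⟩
  have haζ : a < ζ := by nlinarith
  have had : d < a := by nlinarith
  -- zeros of the parts are zeros of the cut
  have hAz : ∀ x, A x = 0 → scut f e q d R x = 0 := fun x hx => by
    rw [← (hAs x hx).self_of_nhds, hx]
  have hCz : ∀ x, C x = 0 → scut f e q d R x = 0 := fun x hx => by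
    rw [← (hCs x hx).self_of_nhds, hx]
  have hnot : ∀ x, A x = 0 → C x ≠ 0 := fun x hx => (hdis x hx.le).ne'
  have hzero : ∀ x, scut f e q d R x = 0 → A x = 0 ∨ C x = 0 := fun x hx =>
    h.parts_zero hf hreg hd hdζ hA hC hun hx
  -- in the closed cylinder the cut is the model
  have hmod : ∀ x, |⟪e, x - q⟫| < ζ → ‖orth e (x - q)‖ ≤ 1 →
      scut f e q d R x = scutM e q d x := fun x h1 h2 => (h.scut_in h1 h2).self_of_nhds
  have hTz : ∀ x ∈ capS e q d a, scut f e q d R x = 0 := by
    intro x hx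
    obtain ⟨h1, h2, h3⟩ := capS_sub q hx
    rw [hmod x (by rw [abs_lt]; constructor <;> linarith) h3]
    exact hx.1
  have hT'z : ∀ x ∈ capS (-e) q d a, scut f e q d R x = 0 := by
    intro x hx
    obtain ⟨h1, h2, h3⟩ := capS_sub q hx
    have ho : orth (-e) (x - q) = orth e (x - q) := by
      unfold orth
      rw [inner_neg_left, neg_smul, smul_neg, neg_neg]
    rw [inner_neg_left] at h1 h2
    rw [ho] at h3
    rw [hmod x (by rw [abs_lt]; constructor <;> linarith) h3]
    have h4 := hx.1
    unfold scutM at h4 ⊢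
    rw [ho, inner_neg_left, wb_neg] at h4
    exact h4
  -- a connected set of zeros is in one part
  have hside : ∀ {W : Set V}, IsPreconnected W → (∀ x ∈ W, scut f e q d R x = 0) →
      W ⊆ {x | A x = 0} ∨ W ⊆ {x | C x = 0} := by
    intro W hW hs
    refine isPreconnected_iff_subset_of_disjoint_closed.1 hW _ _ (isClosed_eq hA continuous_const)
      (isClosed_eq hC continuous_const) (fun x hx => hzero x (hs x hx)) ?_
    rw [Set.eq_empty_iff_forall_notMem]
    rintro x ⟨-, hx1, hx2⟩
    exact hnot x hx1 hx2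
  have hT : capS e q d a ⊆ {x | A x = 0} := by
    rcases hside (capS_preconn he q hd ha ha2) hTz with h1 | h1
    · exact h1
    · exfalso
      have h2 : q + (-d) • e ∈ capS e q d a := by
        obtain ⟨a1, a2, -⟩ := h.axis (s := -d) (by rw [abs_neg, abs_of_pos hd]; linarith)
        refine ⟨?_, ?_, ?_⟩
        · unfold scutM
          rw [a1, a2, norm_zero, wb_neg, wb_one hd.ne']
          norm_num
        · rw [a1]
          linarith
        · rw [a1]
          linarith
      exact hnot _ hpA (h1 h2)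
  have hT' : capS (-e) q d a ⊆ {x | C x = 0} := by
    have hne : ‖-e‖ = 1 := by rw [norm_neg]; exact he
    rcases hside (capS_preconn hne q hd ha ha2) hT'z with h1 | h1
    · exfalso
      have h2 : q + d • e ∈ capS (-e) q d a := by
        obtain ⟨a1, a2, -⟩ := h.axis (s := d) (by rw [abs_of_pos hd]; linarith)
        have ho : orth (-e) (q + d • e - q) = orth e (q + d • e - q) := by
          unfold orth
          rw [inner_neg_left, neg_smul, smul_neg, neg_neg]
        refine ⟨?_, ?_, ?_⟩
        · unfold scutM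
          rw [ho, inner_neg_left, a1, a2, norm_zero, wb_neg, wb_one hd.ne']
          norm_num
        · rw [inner_neg_left, a1]
          linarith
        · rw [inner_neg_left, a1]
          linarith
      exact hnot _ (h1 h2) hpC
    · exact h1
  -- the regions
  have c1 : Continuous fun x : V => |⟪e, x - q⟫| := by fun_prop
  have c2 : Continuous fun x : V => ‖orth e (x - q)‖ := by
    unfold orth
    fun_prop
  obtain ⟨O, hO⟩ : ∃ O : Set V, O = {x | a ≤ |⟪e, x - q⟫| ∨ R ≤ ‖orth e (x - q)‖} := ⟨_, rfl⟩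
  have hOc : IsClosed O := by
    rw [hO]
    exact (isClosed_le continuous_const c1).union (isClosed_le continuous_const c2)
  have hOf : ∀ x ∈ O, scut f e q d R x = f x := by
    intro x hx
    rw [hO] at hx
    rcases hx with hx | hx
    · refine CylN.scut_eq hd ?_
      rw [← ha2, ← sq_abs ⟪e, x - q⟫]
      have hx' : a ≤ |⟪e, x - q⟫| := hx
      nlinarith
    · exact (h.scut_off hd hdζ (Or.inr hx)).self_of_nhds
  have hring : ∀ x, x ∉ O → f x = 0 → ‖orth e (x - q)‖ = 1 := by
    intro x hx h0
    rw [hO] at hx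
    have hx' : ¬ (a ≤ |⟪e, x - q⟫| ∨ R ≤ ‖orth e (x - q)‖) := hx
    push Not at hx'
    have h1 := h.hf x (by linarith [hx'.1]) hx'.2
    rw [h0] at h1
    have := norm_nonneg (orth e (x - q))
    nlinarith
  obtain ⟨N, hN⟩ : ∃ N : Set V, N = {x | |⟪e, x - q⟫| ≤ a ∧ ‖orth e (x - q)‖ = 1} := ⟨_, rfl⟩
  have hNc : IsClosed N := by
    rw [hN]
    exact (isClosed_le c1 continuous_const).inter (isClosed_eq c2 continuous_const)
  have hNf : ∀ x ∈ N, f x = 0 := by
    intro x hx
    rw [hN] at hx
    rw [h.hf x (by linarith [hx.1]) (by rw [hx.2]; exact hR), hx.2]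
    norm_num
  -- the upper rim is in `C`, the lower one in `A`
  have hrA : rimS e q (-a) ⊆ capS e q d a := by
    rintro x ⟨h1, h2⟩
    refine ⟨?_, ?_, ?_⟩
    · unfold scutM
      rw [h1, h2, wb_neg, wb_zero hd (by rw [ha2])]
      norm_num
    · rw [h1]
    · rw [h1]
      linarith
  have hrC : rimS e q a ⊆ capS (-e) q d a := by
    rintro x ⟨h1, h2⟩
    have ho : orth (-e) (x - q) = orth e (x - q) := by
      unfold orth
      rw [inner_neg_left, neg_smul, smul_neg, neg_neg]
    refine ⟨?_, ?_, ?_⟩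
    · unfold scutM
      rw [ho, inner_neg_left, h1, h2, wb_neg, wb_zero hd (by rw [ha2])]
      norm_num
    · rw [inner_neg_left, h1]
    · rw [inner_neg_left, h1]
      linarith
  have hNO : ∀ x ∈ N, x ∈ O → x ∈ rimS e q (-a) ∨ x ∈ rimS e q a := by
    intro x hx hxO
    rw [hN] at hx
    rw [hO] at hxO
    have h1 : |⟪e, x - q⟫| = a := by
      rcases hxO with h2 | h2
      · exact le_antisymm hx.1 h2
      · exfalso
        have h2' : R ≤ ‖orth e (x - q)‖ := h2
        rw [hx.2] at h2'
        linarith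
    rcases (abs_eq ha.le).1 h1 with h2 | h2
    · exact Or.inr ⟨h2, hx.2⟩
    · exact Or.inl ⟨h2, hx.2⟩
  have hXA : IsClosed ({x | A x = 0} ∩ O) := (isClosed_eq hA continuous_const).inter hOc
  have hXC : IsClosed ({x | C x = 0} ∩ O) := (isClosed_eq hC continuous_const).inter hOc
  -- first part of the zero set
  have hX : LiftS ({x | A x = 0} ∩ O) := by
    refine LiftS.of_union (B := N ∪ ({x | C x = 0} ∩ O)) hXA (hNc.union hXC) ?_ ?_
    · have h1 : ({x | A x = 0} ∩ O) ∪ (N ∪ ({x | C x = 0} ∩ O)) = {x | f x = 0} := by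
        ext x
        constructor
        · rintro (⟨hx, hx1⟩ | hx | ⟨hx, hx1⟩)
          · show f x = 0
            rw [← hOf x hx1]
            exact hAz x hx
          · exact hNf x hx
          · show f x = 0
            rw [← hOf x hx1]
            exact hCz x hx
        · intro hx
          have hx' : f x = 0 := hx
          by_cases hxO : x ∈ O
          · rcases hzero x (by rw [hOf x hxO]; exact hx') with h2 | h2
            · exact Or.inl ⟨h2, hxO⟩
            · exact Or.inr (Or.inr ⟨h2, hxO⟩)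
          · right
            left
            have h2 := hring x hxO hx'
            rw [hO] at hxO
            have h3 : ¬ (a ≤ |⟪e, x - q⟫| ∨ R ≤ ‖orth e (x - q)‖) := hxO
            push Not at h3
            rw [hN]
            exact ⟨h3.1.le, h2⟩
      rw [h1]
      exact hl
    · have h1 : ({x | A x = 0} ∩ O) ∩ (N ∪ ({x | C x = 0} ∩ O)) = rimS e q (-a) := by
        ext x
        constructor
        · rintro ⟨⟨hx, hx1⟩, hx2 | ⟨hx2, -⟩⟩
          · rcases hNO x hx2 hx1 with h2 | h2
            · exact h2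
            · exact absurd (hT' (hrC h2)) (hnot x hx)
          · exact absurd hx2 (hnot x hx)
        · intro hx
          have hxO : x ∈ O := by
            rw [hO]
            left
            show a ≤ |⟪e, x - q⟫|
            rw [hx.1, abs_neg, abs_of_pos ha]
          refine ⟨⟨hT (hrA hx), hxO⟩, Or.inl ?_⟩
          rw [hN]
          refine ⟨?_, hx.2⟩
          rw [hx.1, abs_neg, abs_of_pos ha]
      rw [h1]
      exact rimS_lift hn he q _
  have h1 : {x | A x = 0} = ({x | A x = 0} ∩ O) ∪ capS e q d a := by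
    ext x
    constructor
    · intro hx
      have hx' : A x = 0 := hx
      by_cases hxO : x ∈ O
      · exact Or.inl ⟨hx, hxO⟩
      right
      have h3 : ¬ (a ≤ |⟪e, x - q⟫| ∨ R ≤ ‖orth e (x - q)‖) := by
        rw [hO] at hxO
        exact hxO
      push Not at h3
      have h4 := hAz x hx'
      have h5 : ‖orth e (x - q)‖ ≤ 1 := by
        by_contra h6
        have h7 := h.scut_pos (d := d) (by linarith [h3.1]) (not_le.1 h6) h3.2
        linarith
      have h6 : scutM e q d x = 0 := by
        rw [← hmod x (by linarith [h3.1]) h5]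
        exact h4
      have h7 := abs_lt.1 h3.1
      by_cases h8 : ⟪e, x - q⟫ ≤ 0
      · exact ⟨h6, h7.1.le, h8⟩
      · exfalso
        refine hnot x hx' (hT' ?_)
        have ho : orth (-e) (x - q) = orth e (x - q) := by
          unfold orth
          rw [inner_neg_left, neg_smul, smul_neg, neg_neg]
        refine ⟨?_, ?_, ?_⟩
        · unfold scutM at h6 ⊢
          rw [ho, inner_neg_left, wb_neg]
          exact h6
        · rw [inner_neg_left]
          linarith [h7.2]
        · rw [inner_neg_left]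
          linarith [not_le.1 h8]
    · rintro (hx | hx)
      · exact hx.1
      · exact hT hx
  have h2 : ({x | A x = 0} ∩ O) ∩ capS e q d a = rimS e q (-a) := by
    ext x
    constructor
    · rintro ⟨⟨hx, hx1⟩, hx2⟩
      obtain ⟨h3, h4, h5⟩ := capS_sub q hx2
      rw [hO] at hx1
      have h6 : ⟪e, x - q⟫ = -a := by
        rcases hx1 with h6 | h6
        · have h6' : a ≤ |⟪e, x - q⟫| := h6
          rw [abs_of_nonpos h4] at h6'
          linarith
        · exfalso
          have h6' : R ≤ ‖orth e (x - q)‖ := h6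
          linarith
      refine ⟨h6, ?_⟩
      have h7 := hx2.1
      unfold scutM at h7
      rw [h6, wb_neg, wb_zero hd (by rw [ha2])] at h7
      have := norm_nonneg (orth e (x - q))
      nlinarith
    · intro hx
      refine ⟨⟨hT (hrA hx), ?_⟩, hrA hx⟩
      rw [hO]
      left
      show a ≤ |⟪e, x - q⟫|
      rw [hx.1, abs_neg, abs_of_pos ha]
  rw [h1]
  refine LiftS.union hXA (capS_closed q) hX (capS_lift he q hd ha ha2) ?_
  rw [h2]
  exact rimS_preconn (by omega) he q _

/-- The lifting property of the zero set of the other piece. -/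
theorem CylN.zero_lift' (h : CylN f e q ζ R) (hn : 4 ≤ Module.finrank ℝ V) (hf : ContDiff ℝ ∞ f)
    (hreg : ∀ x, f x = 0 → gradient f x ≠ 0) (hl : LiftS {x | f x = 0}) (hd : 0 < d)
    (hdζ : 2 * d ≤ ζ) (hA : Continuous A) (hC : Continuous C)
    (hAs : ∀ x, A x = 0 → A =ᶠ[𝓝 x] scut f e q d R) (hCs : ∀ x, C x = 0 → C =ᶠ[𝓝 x] scut f e q d R)
    (hun : ∀ x, scut f e q d R x ≤ 0 ↔ A x ≤ 0 ∨ C x ≤ 0) (hdis : ∀ x, A x ≤ 0 → 0 < C x)
    (hpA : A (q + (-d) • e) = 0) (hpC : C (q + d • e) = 0) : LiftS {x | C x = 0} := by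
  have hs := scut_flip f e q d R
  refine h.flip.zero_lift (A := C) (C := A) hn hf hreg hl hd hdζ hC hA ?_ ?_ ?_ ?_ ?_ ?_
  · rw [hs]
    exact hCs
  · rw [hs]
    exact hAs
  · intro x
    rw [hs, hun, or_comm]
  · intro x hx
    by_contra h1
    exact absurd (hdis x (not_lt.1 h1)) (not_lt.2 hx)
  · rw [smul_neg, neg_smul, neg_neg]
    exact hpC
  · rw [smul_neg, ← neg_smul]
    exact hpA

end Pool.Schoen
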